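import Pool.Agent.H296R2.LE.Basic
import Pool.Agent.H370R2.Local
import Pool.Agent.W571.SD.Grow

set_option autoImplicit false

/-!
# Zero free functions on discs
-/

namespace Pool.Agent.N831.SD

open Complex Filter Topology Set Metric

noncomputable section

/-- logarithm of a zero free function on a disc -/
theorem exists_log {f : ℂ → ℂ} {c : ℂ} {r : ℝ} (hr : 0 < r) (hf : DifferentiableOn ℂ f (ball c r))
    (h0 : ∀ z ∈ ball c r, f z ≠ 0) :
    ∃ h : ℂ → ℂ, DifferentiableOn ℂ h (ball c r) ∧ h c = 0 ∧ ∀ z ∈ ball c r, f z = f c * cexp (h z) := by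
  have hcr : c ∈ ball c r := mem_ball_self hr
  have han : ∀ z ∈ ball c r, AnalyticAt ℂ f z := fun z hz => hf.analyticAt (isOpen_ball.mem_nhds hz)
  have hd : DifferentiableOn ℂ (logDeriv f) (ball c r) := by
    intro w hw
    have h1 : AnalyticAt ℂ (logDeriv f) w := (han w hw).deriv.div (han w hw) (h0 w hw)
    exact h1.differentiableAt.differentiableWithinAt
  obtain ⟨h, hhc, hh⟩ := hd.isExactOn_ball.with_val_at c 0
  refine ⟨h, fun w hw => (hh w hw).differentiableAt.differentiableWithinAt, hhc, ?_⟩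
  intro w hw
  have hderiv : ∀ x ∈ ball c r, HasDerivAt (fun y => f y * cexp (-h y)) 0 x := by
    intro x hx
    have e1 : HasDerivAt f (deriv f x) x := (han x hx).differentiableAt.hasDerivAt
    have e2 : HasDerivAt (fun y => cexp (-h y)) (cexp (-h x) * (-(logDeriv f x))) x :=
      ((hh x hx).neg).cexp
    have e3 : HasDerivAt (fun y => f y * cexp (-h y))
        (deriv f x * cexp (-h x) + f x * (cexp (-h x) * (-(logDeriv f x)))) x := e1.mul e2
    have e4 : deriv f x * cexp (-h x) + f x * (cexp (-h x) * (-(logDeriv f x))) = 0 := by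
      have := h0 x hx
      rw [logDeriv_apply]
      field_simp
      ring
    rwa [e4] at e3
  have hcv : Convex ℝ (ball c r) := convex_ball c r
  have := hcv.is_const_of_fderivWithin_eq_zero (𝕜 := ℂ) (f := fun y => f y * cexp (-h y))
    (fun x hx => (hderiv x hx).differentiableAt.differentiableWithinAt)
    (fun x hx => by
      have h5 := (hderiv x hx).hasFDerivAt.hasFDerivWithinAt (s := ball c r)
      rw [h5.fderivWithin (isOpen_ball.uniqueDiffWithinAt hx)]
      ext; simp) hw hcr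
  simp only [hhc, neg_zero, Complex.exp_zero, mul_one] at this
  rw [← this, mul_assoc, ← Complex.exp_add, neg_add_cancel, Complex.exp_zero, mul_one]

/-- lower bound for a zero free function -/
theorem low {f : ℂ → ℂ} {c : ℂ} {r M : ℝ} (hr : 0 < r) (hf : DifferentiableOn ℂ f (ball c r))
    (h0 : ∀ z ∈ ball c r, f z ≠ 0) (hM : 0 < M) (hb : ∀ z ∈ ball c r, ‖f z‖ ≤ Real.exp M * ‖f c‖)
    {z : ℂ} (hz : z ∈ ball c r) :
    ‖f c‖ * Real.exp (-(2 * M * r / (r - ‖z - c‖))) ≤ ‖f z‖ := by
  obtain ⟨h, hd, hhc, hh⟩ := exists_log hr hf h0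
  have hcr : c ∈ ball c r := mem_ball_self hr
  have hc0 : 0 < ‖f c‖ := norm_pos_iff.2 (h0 c hcr)
  have hre : ∀ w ∈ ball c r, (h w).re ≤ M := by
    intro w hw
    have h1 := hb w hw
    rw [hh w hw, norm_mul, Complex.norm_exp, mul_comm] at h1
    have h2 := le_of_mul_le_mul_right h1 hc0
    exact Real.exp_le_exp.1 h2
  have hz' : ‖z - c‖ < r := by rwa [← mem_ball_iff_norm]
  have hbc := Complex.borelCaratheodory_zero (f := fun w => h (c + w)) (M := M) (R := r) (z := z - c) hM
    (by
      intro w hw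
      have hw' : c + w ∈ ball c r := by rw [mem_ball_iff_norm]; simpa using hw
      have h1 : DifferentiableAt ℂ h (c + w) := hd.differentiableAt (isOpen_ball.mem_nhds hw')
      have h2 : DifferentiableAt ℂ (fun w => c + w) w := by fun_prop
      exact (DifferentiableAt.comp w h1 h2).differentiableWithinAt)
    (by
      intro w hw
      have hw' : c + w ∈ ball c r := by rw [mem_ball_iff_norm]; simpa using hw
      exact hre _ hw') hr (by rw [mem_ball_zero_iff]; exact hz') (by simpa using hhc)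
  simp only [add_sub_cancel] at hbc
  have h1 : ‖h z‖ ≤ 2 * M * r / (r - ‖z - c‖) := by
    refine hbc.trans ?_
    have : 0 < r - ‖z - c‖ := by linarith
    gcongr
  rw [hh z hz, norm_mul, Complex.norm_exp]
  gcongr
  have h2 := (abs_le.1 (Complex.abs_re_le_norm (h z))).1
  linarith

/-- A zero free function on a disc, of exponential size `L` and bounded near the centre, has a logarithmic derivative
which is `o(L)`. -/
theorem tame {A B ρ0 η Rm θ : ℝ} (hA : 0 < A) (hB : 1 ≤ B) (hρ0 : 0 < ρ0) (hη : 0 < η) (hRm : 0 < Rm)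
    (hθ : 0 < θ) : ∃ L0 : ℝ, 1 ≤ L0 ∧ ∀ L : ℝ, L0 ≤ L → ∀ (c : ℂ) (r : ℝ) (f : ℂ → ℂ), η < r → ρ0 ≤ r → r ≤ Rm →
    DifferentiableOn ℂ f (ball c r) → (∀ z ∈ ball c r, f z ≠ 0) → (∀ z ∈ ball c r, ‖f z‖ ≤ Real.exp (A * L)) →
    (∀ z ∈ ball c ρ0, B⁻¹ ≤ ‖f z‖ ∧ ‖f z‖ ≤ B) → ∀ z ∈ closedBall c (r - η), ‖logDeriv f z‖ ≤ θ * L := by
  -- the radii for the three circles theorem
  obtain ⟨ρ, hρ⟩ : ∃ ρ : ℝ, ρ = max (1 - η / (2 * Rm)) (1 / 2) := ⟨_, rfl⟩
  have hρ1 : ρ < 1 := by
    rw [hρ]
    apply max_lt _ (by norm_num)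
    have : 0 < η / (2 * Rm) := by positivity
    linarith
  have hρh : 1 / 2 ≤ ρ := by rw [hρ]; exact le_max_right _ _
  obtain ⟨ρ1, hρ1'⟩ : ∃ ρ1 : ℝ, ρ1 = min (ρ0 / (2 * Rm)) (1 / 4) := ⟨_, rfl⟩
  have hρ1p : 0 < ρ1 := by rw [hρ1']; exact lt_min (by positivity) (by norm_num)
  have hρ1l : ρ1 < ρ := by
    have : ρ1 ≤ 1 / 4 := by rw [hρ1']; exact min_le_right _ _
    linarith
  obtain ⟨α, hα0, hα1, hthree⟩ := Pool.Agent.H296R2.LE.three_circles hρ1p hρ1l hρ1
  obtain ⟨m, hm⟩ : ∃ m : ℝ, m = 3 * B ^ 2 / ρ0 := ⟨_, rfl⟩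
  have hmp : 0 < m := by rw [hm]; positivity
  have hBl : 0 ≤ Real.log B := Real.log_nonneg hB
  obtain ⟨C, hC⟩ : ∃ C : ℝ, C = 2 * (A + Real.log B + 1) * Rm * (8 / η) * (4 / η) + m := ⟨_, rfl⟩
  have hCp : 0 < C := by rw [hC]; positivity
  have hmC : m ≤ C := by rw [hC]; linarith [show 0 < 2 * (A + Real.log B + 1) * Rm * (8 / η) * (4 / η) by positivity]
  -- the threshold
  have hlim : Tendsto (fun L : ℝ => L ^ (-(1 - α))) atTop (𝓝 0) := tendsto_rpow_neg_atTop (by linarith)
  have hev : ∀ᶠ L : ℝ in atTop, L ^ (-(1 - α)) < θ / (m ^ (1 - α) * C ^ α) := by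
    apply hlim.eventually_lt_const
    positivity
  obtain ⟨L1, hL1⟩ := eventually_atTop.1 hev
  refine ⟨max L1 1, le_max_right _ _, ?_⟩
  intro L hL c r f hηr hρ0r hrRm hf h0 hup hmid z hz
  have hL1' : L1 ≤ L := (le_max_left _ _).trans hL
  have hL1o : 1 ≤ L := (le_max_right _ _).trans hL
  have hLp : 0 < L := by linarith
  have hr : 0 < r := hη.trans hηr
  have han : ∀ z ∈ ball c r, AnalyticAt ℂ f z := fun z hz => hf.analyticAt (isOpen_ball.mem_nhds hz)
  have hcρ : c ∈ ball c ρ0 := mem_ball_self hρ0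
  have hsub : closedBall c (r - η / 8) ⊆ ball c r := closedBall_subset_ball (by linarith)
  -- bound for the logarithmic derivative on the large disc
  have hbig : ∀ w ∈ closedBall c (r - η / 2), ‖logDeriv f w‖ ≤ C * L := by
    intro w hw
    have h1 := H370.Loc.logDeriv_zero_free (g := f) (c := c) (r := r - η / 8) (r1 := r - η / 4) (r2 := r - η / 2)
      (B := A * L + Real.log B) (by linarith) (by linarith) (by linarith) (by positivity)
      (fun w hw => han w (hsub hw)) (fun w hw => h0 w (hsub hw))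
      (fun w hw => by
        rw [Real.exp_add, Real.exp_log (by linarith), mul_assoc]
        refine (hup w (hsub hw)).trans ?_
        apply le_mul_of_one_le_right (Real.exp_pos _).le
        have h2 := (hmid c hcρ).1
        rwa [inv_le_iff_one_le_mul₀ (by linarith), mul_comm] at h2) hw
    have e1 : r - η / 8 - (r - η / 4) = η / 8 := by ring
    have e2 : r - η / 4 - (r - η / 2) = η / 4 := by ring
    rw [e1, e2] at h1
    refine h1.trans ?_
    have h3 : 2 * (A * L + Real.log B + 1) * (r - η / 4) / (η / 8) / (η / 4) ≤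
        2 * ((A + Real.log B + 1) * L) * Rm / (η / 8) / (η / 4) := by
      have h4 : A * L + Real.log B + 1 ≤ (A + Real.log B + 1) * L := by nlinarith
      have h5 : r - η / 4 ≤ Rm := by linarith
      have h6 : 0 < r - η / 4 := by linarith
      gcongr
    refine h3.trans ?_
    rw [hC]
    have h7 : 0 < m * L := by positivity
    calc 2 * ((A + Real.log B + 1) * L) * Rm / (η / 8) / (η / 4)
        = 2 * (A + Real.log B + 1) * Rm * (8 / η) * (4 / η) * L := by field_simp
      _ ≤ _ := by rw [add_mul]; linarith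
  -- bound on the small disc
  have hsmall : ∀ w ∈ closedBall c (ρ0 / 2), ‖logDeriv f w‖ ≤ m := by
    intro w hw
    have hw1 : ‖w - c‖ ≤ ρ0 / 2 := by rwa [← mem_closedBall_iff_norm]
    have hwb : w ∈ ball c ρ0 := by rw [mem_ball_iff_norm]; linarith
    have h1 : ‖deriv f w‖ ≤ B / (ρ0 / 3) := by
      refine Complex.norm_deriv_le_of_forall_mem_sphere_norm_le (by positivity) ?_ ?_
      · apply DifferentiableOn.diffContOnCl
        rw [closure_ball _ (by positivity)]
        apply hf.mono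
        intro u hu
        rw [mem_closedBall_iff_norm] at hu
        rw [mem_ball_iff_norm]
        have := norm_sub_le_norm_sub_add_norm_sub u w c
        linarith
      · intro u hu
        rw [mem_sphere_iff_norm] at hu
        refine (hmid u ?_).2
        rw [mem_ball_iff_norm]
        have := norm_sub_le_norm_sub_add_norm_sub u w c
        linarith
    have h2 := (hmid w hwb).1
    have hBp : 0 < B := by linarith
    rw [logDeriv_apply, norm_div, div_le_iff₀ (lt_of_lt_of_le (by positivity) h2), hm]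
    refine h1.trans ?_
    calc B / (ρ0 / 3) = 3 * B ^ 2 / ρ0 * B⁻¹ := by field_simp
      _ ≤ _ := by gcongr
  -- three circles
  have hR3 : 0 < r - η / 2 := by linarith
  obtain ⟨F, hF⟩ : ∃ F : ℂ → ℂ, F = fun w => logDeriv f (c + (r - η / 2 : ℝ) * w) := ⟨_, rfl⟩
  have hmap : ∀ w : ℂ, ‖c + (r - η / 2 : ℝ) * w - c‖ = (r - η / 2) * ‖w‖ := by
    intro w
    rw [add_sub_cancel_left, norm_mul, Complex.norm_real, Real.norm_of_nonneg hR3.le]
  have hFd : DifferentiableOn ℂ F (ball 0 1) := by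
    intro w hw
    rw [mem_ball_zero_iff] at hw
    have hw' : c + (r - η / 2 : ℝ) * w ∈ ball c r := by
      rw [mem_ball_iff_norm, hmap]
      nlinarith
    have h1 : AnalyticAt ℂ (logDeriv f) (c + (r - η / 2 : ℝ) * w) := (han _ hw').deriv.div (han _ hw') (h0 _ hw')
    have h2 : DifferentiableAt ℂ (fun w : ℂ => c + (r - η / 2 : ℝ) * w) w := by fun_prop
    rw [hF]
    exact (DifferentiableAt.comp w h1.differentiableAt h2).differentiableWithinAt
  have hCL : m ≤ C * L := hmC.trans (le_mul_of_one_le_right hCp.le hL1o)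
  have hzn : ‖z - c‖ ≤ r - η := by rwa [← mem_closedBall_iff_norm]
  have h3 := hthree F 0 m (C * L) hmp hCL hFd
    (fun w hw => by
      rw [mem_closedBall_zero_iff] at hw
      rw [hF]
      apply hsmall
      rw [mem_closedBall_iff_norm, hmap]
      have h4 : ρ1 ≤ ρ0 / (2 * Rm) := by rw [hρ1']; exact min_le_left _ _
      have h5 : r - η / 2 ≤ Rm := by linarith
      calc (r - η / 2) * ‖w‖ ≤ Rm * (ρ0 / (2 * Rm)) := by
            have := hw.trans h4
            gcongr
        _ = ρ0 / 2 := by field_simp)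
    (fun w hw => by
      rw [mem_ball_zero_iff] at hw
      rw [hF]
      apply hbig
      rw [mem_closedBall_iff_norm, hmap]
      nlinarith) ((z - c) / (r - η / 2 : ℝ)) (by
        rw [mem_closedBall_zero_iff, norm_div, Complex.norm_real, Real.norm_of_nonneg hR3.le]
        have h6 : ‖z - c‖ / (r - η / 2) ≤ 1 - η / (2 * Rm) := by
          rw [div_le_iff₀ hR3]
          have h7 : η / (2 * Rm) * (r - η / 2) ≤ η / (2 * Rm) * Rm := by
            have : r - η / 2 ≤ Rm := by linarith
            gcongr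
          have h8 : η / (2 * Rm) * Rm = η / 2 := by field_simp
          linarith
        exact h6.trans (by rw [hρ]; exact le_max_left _ _))
  have hR3c : ((r - η / 2 : ℝ) : ℂ) ≠ 0 := by exact_mod_cast hR3.ne'
  rw [hF] at h3
  simp only at h3
  rw [mul_div_cancel₀ _ hR3c, add_sub_cancel] at h3
  refine h3.trans ?_
  have h9 := hL1 L hL1'
  rw [lt_div_iff₀ (by positivity)] at h9
  rw [Real.mul_rpow hCp.le hLp.le]
  have h10 : L ^ α = L ^ (-(1 - α)) * L := by
    nth_rewrite 3 [← Real.rpow_one L]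
    rw [← Real.rpow_add hLp]
    congr 1
    ring
  rw [h10]
  calc m ^ (1 - α) * (C ^ α * (L ^ (-(1 - α)) * L)) = (L ^ (-(1 - α)) * (m ^ (1 - α) * C ^ α)) * L := by ring
    _ ≤ θ * L := by gcongr

/-- size of a function with a small logarithmic derivative on a disc -/
theorem size {f : ℂ → ℂ} {c : ℂ} {r E : ℝ} (hr : 0 ≤ r) (hE : 0 < E) (hf : ∀ z ∈ closedBall c r, DifferentiableAt ℂ f z)
    (h0 : ∀ z ∈ closedBall c r, f z ≠ 0) (hl : ∀ z ∈ closedBall c r, ‖logDeriv f z‖ ≤ E) {a b : ℂ}
    (ha : a ∈ closedBall c r) (hb : b ∈ closedBall c r) : ‖f b‖ ≤ ‖f a‖ * Real.exp (3 * E * ‖b - a‖) := by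
  have h1 := Pool.Agent.W571.SD.grow (F := f) (M := E) (η := 2) a b (fun t ht0 ht1 => by
    have h2 : a + (t : ℂ) * (b - a) ∈ closedBall c r := by
      have h3 : a + (t : ℂ) * (b - a) = (1 - t : ℝ) • a + t • b := by
        simp only [real_smul]; push_cast; ring
      rw [h3]
      exact (convex_closedBall c r) ha hb (by linarith) ht0 (by ring)
    refine ⟨hf _ h2, h0 _ h2, ?_⟩
    refine (norm_sub_le _ _).trans ?_
    rw [Complex.norm_real, Real.norm_of_nonneg hE.le]
    linarith [hl _ h2])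
  refine h1.trans ?_
  gcongr
  have h4 := (le_abs_self _).trans (Complex.abs_re_le_norm (b - a))
  nlinarith

end

end Pool.Agent.N831.SD
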