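import Pool.Agent.N831.SD.A

set_option autoImplicit false

/-!
# Functions on windows
-/

namespace Pool.Agent.N831.SD

open Complex Filter Topology Set Metric

noncomputable section

/-- maximum principle on a rectangle -/
theorem rect_max {f : ℂ → ℂ} {a b c d C : ℝ} (hab : a < b) (hcd : c < d)
    (hf : ∀ z : ℂ, a ≤ z.re → z.re ≤ b → c ≤ z.im → z.im ≤ d → DifferentiableAt ℂ f z)
    (h1 : ∀ z : ℂ, z.re = a → c ≤ z.im → z.im ≤ d → ‖f z‖ ≤ C)
    (h2 : ∀ z : ℂ, z.re = b → c ≤ z.im → z.im ≤ d → ‖f z‖ ≤ C)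
    (h3 : ∀ z : ℂ, z.im = c → a ≤ z.re → z.re ≤ b → ‖f z‖ ≤ C)
    (h4 : ∀ z : ℂ, z.im = d → a ≤ z.re → z.re ≤ b → ‖f z‖ ≤ C)
    {z : ℂ} (z1 : a ≤ z.re) (z2 : z.re ≤ b) (z3 : c ≤ z.im) (z4 : z.im ≤ d) : ‖f z‖ ≤ C := by
  have hcl : closure (Ioo a b ×ℂ Ioo c d) = Icc a b ×ℂ Icc c d := by
    rw [closure_reProdIm, closure_Ioo hab.ne, closure_Ioo hcd.ne]
  refine Complex.norm_le_of_forall_mem_frontier_norm_le (U := Ioo a b ×ℂ Ioo c d)
    ((isBounded_Ioo _ _).reProdIm (isBounded_Ioo _ _)) ?_ ?_ ?_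
  · apply DifferentiableOn.diffContOnCl
    rw [hcl]
    intro w hw
    exact (hf w hw.1.1 hw.1.2 hw.2.1 hw.2.2).differentiableWithinAt
  · intro w hw
    rw [frontier_reProdIm, closure_Ioo hab.ne, frontier_Ioo hab, closure_Ioo hcd.ne, frontier_Ioo hcd] at hw
    rcases hw with ⟨hw1, hw2⟩ | ⟨hw1, hw2⟩
    · rcases hw2 with hw2 | hw2
      · exact h3 w hw2 hw1.1 hw1.2
      · exact h4 w hw2 hw1.1 hw1.2
    · rcases hw1 with hw1 | hw1
      · exact h1 w hw1 hw2.1 hw2.2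
      · exact h2 w hw1 hw2.1 hw2.2
  · rw [hcl]
    exact ⟨⟨z1, z2⟩, z3, z4⟩

/-- the window `|Re z| < X`, `|Im z| < Y` -/
def Wi (X Y : ℝ) : Set ℂ := {z | |z.re| < X ∧ |z.im| < Y}

lemma isOpen_Wi (X Y : ℝ) : IsOpen (Wi X Y) := by
  have h1 : IsOpen {z : ℂ | |z.re| < X} := isOpen_lt (by fun_prop) continuous_const
  have h2 : IsOpen {z : ℂ | |z.im| < Y} := isOpen_lt (by fun_prop) continuous_const
  exact h1.inter h2

lemma Wi_mono {X Y X' Y' : ℝ} (hX : X' ≤ X) (hY : Y' ≤ Y) : Wi X' Y' ⊆ Wi X Y :=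
  fun _ hz => ⟨hz.1.trans_le hX, hz.2.trans_le hY⟩

lemma ball_sub_Wi {X Y r : ℝ} {z : ℂ} (hz : z ∈ Wi (X - r) (Y - r)) : closedBall z r ⊆ Wi X Y := by
  intro w hw
  rw [mem_closedBall_iff_norm] at hw
  have h1 := (Complex.abs_re_le_norm (w - z)).trans hw
  have h2 := (Complex.abs_im_le_norm (w - z)).trans hw
  rw [Complex.sub_re] at h1
  rw [Complex.sub_im] at h2
  have h3 := abs_sub_abs_le_abs_sub w.re z.re
  have h4 := abs_sub_abs_le_abs_sub w.im z.im
  exact ⟨by linarith [hz.1], by linarith [hz.2]⟩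

/-- analytic functions on a window, of size `e^{O(L)}`, bounded above and below on the left, `O(e^{Lx})` on the right -/
structure Loc (X Y A B x1 L : ℝ) (g : ℂ → ℂ) : Prop where
  an : ∀ z ∈ Wi X Y, DifferentiableAt ℂ g z
  up : ∀ z ∈ Wi X Y, ‖g z‖ ≤ Real.exp (A * L)
  far : ∀ z ∈ Wi X Y, z.re ≤ -x1 → B⁻¹ ≤ ‖g z‖ ∧ ‖g z‖ ≤ B
  rgt : ∀ z ∈ Wi X Y, x1 ≤ z.re → ‖g z‖ ≤ B * Real.exp (L * z.re)

variable {X Y A B x1 L : ℝ} {g : ℂ → ℂ}

lemma Loc.diffOn (h : Loc X Y A B x1 L g) : DifferentiableOn ℂ g (Wi X Y) :=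
  fun z hz => (h.an z hz).differentiableWithinAt

lemma Loc.ana (h : Loc X Y A B x1 L g) {z : ℂ} (hz : z ∈ Wi X Y) : AnalyticAt ℂ g z :=
  h.diffOn.analyticAt ((isOpen_Wi X Y).mem_nhds hz)

lemma Loc.cauchy (h : Loc X Y A B x1 L g) {z : ℂ} {r C : ℝ} (hr : 0 < r) (hz : closedBall z r ⊆ Wi X Y)
    (hC : ∀ w ∈ closedBall z r, ‖g w‖ ≤ C) : ‖deriv g z‖ ≤ C / r := by
  refine Complex.norm_deriv_le_of_forall_mem_sphere_norm_le hr ?_ (fun w hw => hC w (sphere_subset_closedBall hw))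
  apply DifferentiableOn.diffContOnCl
  rw [closure_ball _ hr.ne']
  exact h.diffOn.mono hz

theorem Loc.step (h : Loc X Y A B x1 L g) (hB : 1 ≤ B) (hL : 2 * B ^ 2 ≤ L) :
    Loc (X - 1) (Y - 1) (A + 1) (4 * B) (x1 + 1) L (fun z => g z - deriv g z / L) := by
  have hL1 : 1 ≤ L := by nlinarith
  have hLp : 0 < L := by linarith
  have hBp : 0 < B := by linarith
  have hnL : ‖(L : ℂ)‖ = L := by rw [Complex.norm_real, Real.norm_of_nonneg hLp.le]
  have hsub : Wi (X - 1) (Y - 1) ⊆ Wi X Y := Wi_mono (by linarith) (by linarith)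
  refine ⟨?_, ?_, ?_, ?_⟩
  · intro z hz
    have h1 := h.ana (hsub hz)
    exact (h1.sub (h1.deriv.div_const)).differentiableAt
  · intro z hz
    have h1 : ‖deriv g z‖ ≤ Real.exp (A * L) / 1 :=
      h.cauchy one_pos (ball_sub_Wi hz) (fun w hw => h.up w (ball_sub_Wi hz hw))
    have h2 := h.up z (hsub hz)
    have h3 : ‖g z - deriv g z / L‖ ≤ Real.exp (A * L) + Real.exp (A * L) := by
      refine (norm_sub_le _ _).trans (add_le_add h2 ?_)
      rw [norm_div, hnL]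
      rw [div_one] at h1
      exact (div_le_self (norm_nonneg _) hL1).trans h1
    refine h3.trans ?_
    rw [add_mul, one_mul, Real.exp_add]
    have h4 : 2 ≤ Real.exp L := by
      have := Real.add_one_le_exp L
      linarith
    nlinarith [Real.exp_pos (A * L)]
  · intro z hz hre
    have hfar : ∀ w ∈ closedBall z 1, B⁻¹ ≤ ‖g w‖ ∧ ‖g w‖ ≤ B := by
      intro w hw
      refine h.far w (ball_sub_Wi hz hw) ?_
      rw [mem_closedBall_iff_norm] at hw
      have h1 := (abs_le.1 ((Complex.abs_re_le_norm (w - z)).trans hw)).2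
      rw [Complex.sub_re] at h1
      linarith
    have h1 : ‖deriv g z‖ ≤ B / 1 := h.cauchy one_pos (ball_sub_Wi hz) (fun w hw => (hfar w hw).2)
    rw [div_one] at h1
    obtain ⟨h2, h3⟩ := hfar z (mem_closedBall_self zero_le_one)
    have h4 : ‖deriv g z / L‖ ≤ B / L := by
      rw [norm_div, hnL]
      gcongr
    have h5 : B / L ≤ B⁻¹ / 2 := by
      rw [div_le_div_iff₀ hLp two_pos]
      have : B⁻¹ * (2 * B ^ 2) ≤ B⁻¹ * L := by gcongr
      have e : B⁻¹ * (2 * B ^ 2) = B * 2 := by field_simp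
      linarith
    have h6 : B⁻¹ ≤ B := by
      have : B⁻¹ ≤ 1 := inv_le_one_of_one_le₀ hB
      linarith
    constructor
    · have h7 := norm_sub_norm_le (g z) (deriv g z / L)
      have h8 : (4 * B)⁻¹ = B⁻¹ / 4 := by rw [mul_inv]; ring
      rw [h8]
      have : 0 < B⁻¹ := by positivity
      linarith
    · refine (norm_sub_le _ _).trans ?_
      have : 0 < B⁻¹ := by positivity
      linarith
  · intro z hz hre
    have hr : 0 < 1 / L := by positivity
    have hr1 : 1 / L ≤ 1 := by rw [div_le_one hLp]; exact hL1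
    have hsub2 : closedBall z (1 / L) ⊆ closedBall z 1 := closedBall_subset_closedBall hr1
    have hb : ∀ w ∈ closedBall z (1 / L), ‖g w‖ ≤ B * Real.exp (L * z.re + 1) := by
      intro w hw
      have hw' := hsub2 hw
      rw [mem_closedBall_iff_norm] at hw
      have h1 := abs_le.1 ((Complex.abs_re_le_norm (w - z)).trans hw)
      rw [Complex.sub_re] at h1
      refine (h.rgt w (ball_sub_Wi hz hw') (by linarith)).trans ?_
      gcongr
      have h2 : L * w.re ≤ L * (z.re + 1 / L) := by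
        gcongr
        linarith
      have h3 : L * (z.re + 1 / L) = L * z.re + 1 := by field_simp
      linarith
    have h1 := h.cauchy hr (hsub2.trans (ball_sub_Wi hz)) hb
    have h2 := h.rgt z (hsub hz) (by linarith)
    have h3 : ‖deriv g z / L‖ ≤ B * Real.exp (L * z.re + 1) := by
      rw [norm_div, hnL, div_le_iff₀ hLp]
      refine h1.trans (le_of_eq ?_)
      field_simp
    refine (norm_sub_le _ _).trans ((add_le_add h2 h3).trans ?_)
    rw [Real.exp_add]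
    have h4 : Real.exp 1 ≤ 3 := Real.exp_one_lt_d9.le.trans (by norm_num)
    have h5 : 0 < B * Real.exp (L * z.re) := by positivity
    nlinarith

/-- the iterates of `g ↦ g - g'/L` -/
def GG (L : ℝ) (g : ℂ → ℂ) : ℕ → ℂ → ℂ
  | 0 => g
  | n + 1 => fun z => GG L g n z - deriv (GG L g n) z / L

theorem Loc.iter (h : Loc X Y A B x1 L g) (hB : 1 ≤ B) (n : ℕ) (hL : 2 * (4 ^ n * B) ^ 2 ≤ L) :
    Loc (X - n) (Y - n) (A + n) (4 ^ n * B) (x1 + n) L (GG L g n) := by
  induction n with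
  | zero => simpa [GG] using h
  | succ n ih =>
    have h4 : (1 : ℝ) ≤ 4 ^ n := one_le_pow₀ (by norm_num)
    have hmul : 1 ≤ 4 ^ n * B := by nlinarith
    have h5 : 2 * (4 ^ n * B) ^ 2 ≤ 2 * (4 ^ (n + 1) * B) ^ 2 := by
      have h7 : (4 ^ n * B) ≤ 4 ^ (n + 1) * B := by rw [pow_succ]; nlinarith
      have h8 : 0 ≤ 4 ^ n * B := by linarith
      exact mul_le_mul_of_nonneg_left (pow_le_pow_left₀ h8 h7 2) (by norm_num)
    have h6 := (ih (h5.trans hL)).step hmul (h5.trans hL)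
    have e1 : X - n - 1 = X - ((n + 1 : ℕ) : ℝ) := by push_cast; ring
    have e2 : Y - n - 1 = Y - ((n + 1 : ℕ) : ℝ) := by push_cast; ring
    have e3 : A + n + 1 = A + ((n + 1 : ℕ) : ℝ) := by push_cast; ring
    have e4 : 4 * (4 ^ n * B) = 4 ^ (n + 1) * B := by ring
    have e5 : x1 + n + 1 = x1 + ((n + 1 : ℕ) : ℝ) := by push_cast; ring
    rw [e1, e2, e3, e4, e5] at h6
    exact h6

lemma GG_an {U : Set ℂ} (hU : IsOpen U) (hd : DifferentiableOn ℂ g U) (L : ℝ) (n : ℕ) :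
    ∀ z ∈ U, AnalyticAt ℂ (GG L g n) z := by
  induction n with
  | zero => exact fun z hz => hd.analyticAt (hU.mem_nhds hz)
  | succ n ih => exact fun z hz => (ih z hz).sub ((ih z hz).deriv.div_const)

theorem iter_eq {h : ℂ → ℂ} {U : Set ℂ} (hU : IsOpen U) (hd : DifferentiableOn ℂ h U) {L : ℝ} (hL : L ≠ 0) (n : ℕ) :
    ∀ z ∈ U, iteratedDeriv n h z = (-(L : ℂ)) ^ n * cexp (-(L * z)) * GG L (fun z => cexp (L * z) * h z) n z := by
  have hLc : (L : ℂ) ≠ 0 := by exact_mod_cast hL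
  have hg : DifferentiableOn ℂ (fun z => cexp (L * z) * h z) U := by
    have : Differentiable ℂ fun z : ℂ => cexp (L * z) := by fun_prop
    exact this.differentiableOn.mul hd
  induction n with
  | zero =>
    intro z hz
    simp only [iteratedDeriv_zero, pow_zero, one_mul, GG]
    rw [← mul_assoc, ← Complex.exp_add, neg_add_cancel, Complex.exp_zero, one_mul]
  | succ n ih =>
    intro z hz
    rw [iteratedDeriv_succ]
    have hev : iteratedDeriv n h =ᶠ[𝓝 z] fun z => (-(L : ℂ)) ^ n * cexp (-(L * z)) *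
        GG L (fun z => cexp (L * z) * h z) n z := by
      filter_upwards [hU.mem_nhds hz] with w hw
      exact ih w hw
    rw [hev.deriv_eq]
    have hG := (GG_an hU hg L n z hz).differentiableAt.hasDerivAt
    have hE : HasDerivAt (fun z : ℂ => (-(L : ℂ)) ^ n * cexp (-(L * z))) ((-(L : ℂ)) ^ n * (cexp (-(L * z)) * (-L))) z := by
      have h1 : HasDerivAt (fun z : ℂ => -((L : ℂ) * z)) (-(L * 1)) z := ((hasDerivAt_id z).const_mul (L : ℂ)).neg
      rw [mul_one] at h1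
      exact h1.cexp.const_mul _
    have hEG : HasDerivAt (fun z => (-(L : ℂ)) ^ n * cexp (-(L * z)) * GG L (fun z => cexp (L * z) * h z) n z) _ z :=
      hE.mul hG
    rw [hEG.deriv]
    simp only [GG]
    field_simp
    ring

end

end Pool.Agent.N831.SD
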