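import Pool.Agent.N831.SD.B

set_option autoImplicit false

/-!
# The logarithmic derivative to the left of all zeros
-/

namespace Pool.Agent.N831.SD

open Complex Filter Topology Set Metric
open scoped ComplexConjugate

noncomputable section

lemma inv_re (w v : ℂ) : (1 / (w - v)).re = (w.re - v.re) / ((w.re - v.re) ^ 2 + (w.im - v.im) ^ 2) := by
  rw [one_div, Complex.inv_re, Complex.normSq_apply, Complex.sub_re, Complex.sub_im]
  congr 1
  ring

lemma inv_re_nonneg {w v : ℂ} (h : v.re ≤ w.re) : 0 ≤ (1 / (w - v)).re := by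
  rw [inv_re]
  apply div_nonneg (by linarith) (by positivity)

lemma inv_re_zero {w v : ℂ} (h : w.re = v.re) : (1 / (w - v)).re = 0 := by
  rw [inv_re, h, sub_self, zero_div]

lemma inv_re_ge {w v : ℂ} {r : ℝ} (hr : w.re - v.re = r) (hr0 : 0 < r) (h : |w.im - v.im| ≤ r) :
    1 / (2 * r) ≤ (1 / (w - v)).re := by
  rw [inv_re, hr]
  have h1 : (w.im - v.im) ^ 2 ≤ r ^ 2 := by rw [← sq_abs]; gcongr
  rw [div_le_div_iff₀ (by positivity) (by positivity)]
  nlinarith

lemma inv_re_le {w v : ℂ} {r y : ℝ} (hr : w.re - v.re = r) (hr0 : 0 ≤ r) (hy : 0 < y) (h : y ≤ |w.im - v.im|) :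
    (1 / (w - v)).re ≤ r / y ^ 2 := by
  rw [inv_re, hr]
  have h1 : y ^ 2 ≤ (w.im - v.im) ^ 2 := by rw [← sq_abs (w.im - v.im)]; gcongr
  gcongr
  nlinarith [sq_nonneg r]

variable {X Y A B x1 L : ℝ} {g : ℂ → ℂ}

/-- lower bound to the left of all zeros -/
lemma Loc.low_left (h : Loc X Y A B x1 L g) (hB : 1 ≤ B) (hBL : Real.log B ≤ A * L) (hAL : 0 < A * L) {d D : ℝ}
    (hd0 : 0 ≤ d) (hd : d ≤ D) (hx1 : 1 ≤ x1) (hX : 2 * (x1 + D + 2) ≤ X)
    (hz : ∀ z ∈ Wi X Y, z.re ≤ -d → g z ≠ 0) {p : ℂ} (hp : p ∈ Wi X (Y - (x1 + D + 2))) (hpr : p.re < -d) :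
    Real.exp (-(A * L + 4 * (A * L) * (x1 + D + 1) / (-d - p.re))) ≤ ‖g p‖ := by
  have hBp : 0 < B := by linarith
  have hD : 0 ≤ D := hd0.trans hd
  have hr : 0 < -d - p.re := by linarith
  have hx0 : 0 < x1 + D + 1 := by linarith
  have hBinv : Real.exp (-(A * L)) ≤ B⁻¹ := by
    rw [← Real.exp_log (show 0 < B⁻¹ by positivity), Real.log_inv]
    gcongr
  have hq : 0 ≤ 4 * (A * L) * (x1 + D + 1) / (-d - p.re) := by positivity
  have hYs : Wi X (Y - (x1 + D + 2)) ⊆ Wi X Y := Wi_mono le_rfl (by linarith)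
  rcases le_or_gt p.re (-x1) with h1 | h1
  · refine le_trans ?_ (hBinv.trans (h.far p (hYs hp) h1).1)
    apply Real.exp_le_exp.2
    linarith
  obtain ⟨c, hc⟩ : ∃ c : ℂ, c = ⟨-(x1 + D + 1), p.im⟩ := ⟨_, rfl⟩
  have hρ : 0 < x1 + D + 1 - d := by linarith
  have hcp : ‖p - c‖ = p.re + (x1 + D + 1) := by
    have e : p - c = ((p.re + (x1 + D + 1) : ℝ) : ℂ) := by
      rw [hc]
      apply Complex.ext
      · simp only [Complex.sub_re, Complex.ofReal_re]
        ring
      · simp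
    rw [e, Complex.norm_real, Real.norm_of_nonneg (by linarith)]
  have hball : ∀ z ∈ ball c (x1 + D + 1 - d), z ∈ Wi X Y ∧ z.re ≤ -d := by
    intro z hz
    rw [mem_ball_iff_norm] at hz
    have h2 := abs_lt.1 ((Complex.abs_re_le_norm (z - c)).trans_lt hz)
    have h3 := abs_lt.1 ((Complex.abs_im_le_norm (z - c)).trans_lt hz)
    have h4 := abs_lt.1 hp.2
    rw [Complex.sub_re, hc] at h2
    rw [Complex.sub_im, hc] at h3
    simp only at h2 h3
    refine ⟨⟨abs_lt.2 ⟨by linarith, by linarith⟩, abs_lt.2 ⟨by linarith, by linarith⟩⟩, by linarith⟩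
  have hcb : c ∈ ball c (x1 + D + 1 - d) := mem_ball_self hρ
  have hcfar := h.far c (hball c hcb).1 (by rw [hc]; simp only; linarith)
  have hc1 : 1 ≤ Real.exp (A * L) * ‖g c‖ := by
    calc (1 : ℝ) = Real.exp (A * L) * Real.exp (-(A * L)) := by rw [← Real.exp_add, add_neg_cancel, Real.exp_zero]
      _ ≤ Real.exp (A * L) * ‖g c‖ := by gcongr; exact hBinv.trans hcfar.1
  have hlow := low (f := g) (c := c) (r := x1 + D + 1 - d) (M := 2 * (A * L)) hρ
    (fun z hz => (h.an z (hball z hz).1).differentiableWithinAt) (fun z hz' => hz z (hball z hz').1 (hball z hz').2)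
    (by positivity) (fun z hz => by
      refine (h.up z (hball z hz).1).trans ?_
      have e : 2 * (A * L) = A * L + A * L := by ring
      rw [e, Real.exp_add, mul_assoc]
      exact le_mul_of_one_le_right (Real.exp_pos _).le hc1) (z := p) (by
        rw [mem_ball_iff_norm, hcp]; linarith)
  rw [hcp] at hlow
  have e1 : x1 + D + 1 - d - (p.re + (x1 + D + 1)) = -d - p.re := by ring
  rw [e1] at hlow
  refine le_trans ?_ hlow
  have h5 : Real.exp (-(A * L + 4 * (A * L) * (x1 + D + 1) / (-d - p.re))) =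
      Real.exp (-(A * L)) * Real.exp (-(4 * (A * L) * (x1 + D + 1) / (-d - p.re))) := by
    rw [← Real.exp_add]; congr 1; ring
  rw [h5]
  refine mul_le_mul (hBinv.trans hcfar.1) ?_ (Real.exp_pos _).le (norm_nonneg _)
  apply Real.exp_le_exp.2
  apply neg_le_neg
  have e2 : 2 * (2 * (A * L)) = 4 * (A * L) := by ring
  rw [e2]
  gcongr
  linarith

/-- comparison with the reflection at the vertical line -/
theorem Loc.compare (h : Loc X Y A B x1 L g) (hB : 1 ≤ B) (hL : 0 < L) (hA : 0 < A) (hBL : Real.log B ≤ A * L)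
    {d D : ℝ} (hd0 : 0 ≤ d) (hd : d ≤ D) (hx1 : 1 ≤ x1) (hX : 2 * (x1 + D + 2) ≤ X) (hY : x1 + D + 3 < Y)
    (hz : ∀ z ∈ Wi X Y, z.re ≤ -d → g z ≠ 0) {c C : ℝ} (hc : L + 2 * Real.log B ≤ c * L)
    (hC : C = 2 * (2 * A * (x1 + 1 + D) + 4 * A * (x1 + D + 1))) {r : ℝ} (hr0 : 0 ≤ r) (hr : r ≤ x1 + 1) :
    ‖g (-(d : ℂ) + r)‖ ≤ ‖g (-(d : ℂ) - r)‖ *
      Real.exp ((c * L + 2 * (C * L) / (Y - (x1 + D + 3)) ^ 2) * r) := by
  have hAL : 0 < A * L := by positivity
  have hBp : 0 < B := by linarith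
  have hD : 0 ≤ D := hd0.trans hd
  have hlB : 0 ≤ Real.log B := Real.log_nonneg hB
  have hcL : 0 < c * L := by linarith
  have hCp : 0 < C := by rw [hC]; positivity
  obtain ⟨Y1, hY1⟩ : ∃ Y1 : ℝ, Y1 = Y - (x1 + D + 3) := ⟨_, rfl⟩
  have hY1p : 0 < Y1 := by rw [hY1]; linarith
  rw [← hY1]
  obtain ⟨GS, hGS⟩ : ∃ GS : ℂ → ℂ, GS = fun w => conj (g (-(2 * d : ℝ) - conj w)) := ⟨_, rfl⟩
  have hnGS : ∀ w : ℂ, ‖GS w‖ = ‖g (-(2 * d : ℝ) - conj w)‖ := by
    intro w
    rw [hGS]
    simp only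
    rw [Complex.norm_conj]
  -- the reflected point
  have hmem : ∀ w : ℂ, -d ≤ w.re → w.re ≤ x1 + 1 → |w.im| ≤ Y1 →
      (-(2 * d : ℝ) - conj w : ℂ) ∈ Wi X (Y - (x1 + D + 2)) ∧ (-(2 * d : ℝ) - conj w : ℂ).re = -2 * d - w.re ∧
      w ∈ Wi X Y := by
    intro w h1 h2 h3
    have e1 : (-(2 * d : ℝ) - conj w : ℂ).re = -2 * d - w.re := by simp
    have e2 : (-(2 * d : ℝ) - conj w : ℂ).im = w.im := by simp
    refine ⟨⟨?_, ?_⟩, e1, ?_, ?_⟩
    · rw [e1]
      exact abs_lt.2 ⟨by linarith, by linarith⟩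
    · rw [e2]; linarith
    · exact abs_lt.2 ⟨by linarith, by linarith⟩
    · linarith
  have hsubW : Wi X (Y - (x1 + D + 2)) ⊆ Wi X Y := Wi_mono le_rfl (by linarith)
  have hGSne : ∀ w : ℂ, -d ≤ w.re → w.re ≤ x1 + 1 → |w.im| ≤ Y1 → GS w ≠ 0 := by
    intro w h1 h2 h3
    obtain ⟨h4, h5, -⟩ := hmem w h1 h2 h3
    rw [← norm_pos_iff, hnGS, norm_pos_iff]
    exact hz _ (hsubW h4) (by rw [h5]; linarith)
  have hGSd : ∀ w : ℂ, -d ≤ w.re → w.re ≤ x1 + 1 → |w.im| ≤ Y1 → DifferentiableAt ℂ GS w := by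
    intro w h1 h2 h3
    obtain ⟨h4, h5, -⟩ := hmem w h1 h2 h3
    have h6 : DifferentiableAt ℂ (fun v : ℂ => g (-(2 * d : ℝ) - v)) (conj w) := by
      have h7 : DifferentiableAt ℂ g (-(2 * d : ℝ) - conj w) := h.an _ (hsubW h4)
      have h8 : DifferentiableAt ℂ (fun v : ℂ => (-(2 * d : ℝ) - v : ℂ)) (conj w) := by fun_prop
      exact DifferentiableAt.comp (conj w) h7 h8
    have h9 := h6.conj_conj
    rw [Complex.conj_conj] at h9
    rw [hGS]
    exact h9
  -- the claim with an error `δ`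
  have key : ∀ δ : ℝ, 0 < δ → ‖g (-(d : ℂ) + r)‖ ≤ ‖g (-(d : ℂ) - r)‖ *
      ((1 + δ) * Real.exp ((c * L + 2 * (C * L) / Y1 ^ 2) * r)) := by
    intro δ hδ
    -- near the corners
    have hcorner : ∀ y : ℝ, |y| ≤ Y1 → ∃ r0 : ℝ, 0 < r0 ∧ ∀ w : ℂ, w.im = y → -d ≤ w.re → w.re ≤ -d + r0 →
        ‖g w‖ / ‖GS w‖ ≤ 1 + δ := by
      intro y hy
      obtain ⟨h1, h2, h3⟩ := hmem ⟨-d, y⟩ le_rfl (by simp only; linarith) hy
      have hne := hGSne ⟨-d, y⟩ le_rfl (by simp only; linarith) hy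
      have hcont : ContinuousAt (fun w => ‖g w‖ / ‖GS w‖) (⟨-d, y⟩ : ℂ) :=
        ((h.an _ h3).continuousAt.norm).div (hGSd _ le_rfl (by simp only; linarith) hy).continuousAt.norm
          (norm_ne_zero_iff.2 hne)
      have hval : ‖g ⟨-d, y⟩‖ / ‖GS ⟨-d, y⟩‖ = 1 := by
        rw [hnGS]
        have e : (-(2 * d : ℝ) - conj (⟨-d, y⟩ : ℂ) : ℂ) = ⟨-d, y⟩ := by
          apply Complex.ext <;> simp
          ring
        rw [e]
        exact div_self (norm_ne_zero_iff.2 (hz _ h3 le_rfl))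
      have hev : ∀ᶠ w in 𝓝 (⟨-d, y⟩ : ℂ), ‖g w‖ / ‖GS w‖ < 1 + δ := by
        apply hcont.eventually_lt_const
        simp only
        rw [hval]
        linarith
      obtain ⟨r0, hr0, hb⟩ := Metric.eventually_nhds_iff.1 hev
      refine ⟨r0 / 2, by positivity, fun w h4 h5 h6 => (hb ?_).le⟩
      rw [Complex.dist_eq]
      have e : w - ⟨-d, y⟩ = ((w.re + d : ℝ) : ℂ) := by
        apply Complex.ext
        · simp
        · simp [h4]
      rw [e, Complex.norm_real, Real.norm_of_nonneg (by linarith)]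
      linarith
    obtain ⟨ra, hra, hca⟩ := hcorner Y1 (by rw [abs_of_pos hY1p])
    obtain ⟨rb, hrb, hcb⟩ := hcorner (-Y1) (by rw [abs_neg, abs_of_pos hY1p])
    obtain ⟨s, hs⟩ : ∃ s : ℝ, s = min ra rb := ⟨_, rfl⟩
    have hsp : 0 < s := by rw [hs]; exact lt_min hra hrb
    have hsa : s ≤ ra := by rw [hs]; exact min_le_left _ _
    have hsb : s ≤ rb := by rw [hs]; exact min_le_right _ _
    obtain ⟨w1, hw1⟩ : ∃ w1 : ℂ, w1 = ⟨-d, Y1 + s⟩ := ⟨_, rfl⟩
    obtain ⟨w2, hw2⟩ : ∃ w2 : ℂ, w2 = ⟨-d, -(Y1 + s)⟩ := ⟨_, rfl⟩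
    have hw1r : w1.re = -d := by rw [hw1]
    have hw2r : w2.re = -d := by rw [hw2]
    have hw1i : w1.im = Y1 + s := by rw [hw1]
    have hw2i : w2.im = -(Y1 + s) := by rw [hw2]
    obtain ⟨q, hq⟩ : ∃ q : ℂ → ℂ, q = fun w => g w / GS w *
        cexp (-(((c * L : ℝ) : ℂ) * (w + d) + ((C * L : ℝ) : ℂ) * (1 / (w - w1) + 1 / (w - w2)))) := ⟨_, rfl⟩
    have hqn : ∀ w : ℂ, ‖q w‖ = ‖g w‖ / ‖GS w‖ *
        Real.exp (-(c * L * (w.re + d) + C * L * ((1 / (w - w1)).re + (1 / (w - w2)).re))) := by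
      intro w
      rw [hq]
      simp only
      rw [norm_mul, norm_div, Complex.norm_exp]
      congr 2
      rw [Complex.neg_re, Complex.add_re, Complex.re_ofReal_mul, Complex.re_ofReal_mul, Complex.add_re, Complex.add_re,
        Complex.ofReal_re]
    have hexp1 : ∀ w : ℂ, -d ≤ w.re →
        Real.exp (-(c * L * (w.re + d) + C * L * ((1 / (w - w1)).re + (1 / (w - w2)).re))) ≤ 1 := by
      intro w hw
      rw [Real.exp_le_one_iff]
      have h1 := inv_re_nonneg (w := w) (v := w1) (by rw [hw1r]; exact hw)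
      have h2 := inv_re_nonneg (w := w) (v := w2) (by rw [hw2r]; exact hw)
      have h3 : 0 ≤ c * L * (w.re + d) := mul_nonneg hcL.le (by linarith)
      have h4 : 0 ≤ C * L * ((1 / (w - w1)).re + (1 / (w - w2)).re) := by positivity
      linarith
    have hlat : ∀ w : ℂ, -d ≤ w.re → w.re ≤ x1 + 1 → |w.im| = Y1 →
        (w.re ≤ -d + s → ‖g w‖ / ‖GS w‖ ≤ 1 + δ) →
        (|w.im - w1.im| ≤ s ∨ |w.im - w2.im| ≤ s) → ‖q w‖ ≤ 1 + δ := by
      intro w h1 h2 h3 h4 h5
      rw [hqn]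
      rcases le_or_gt w.re (-d + s) with h6 | h6
      · calc _ ≤ (1 + δ) * 1 := mul_le_mul (h4 h6) (hexp1 w h1) (Real.exp_pos _).le (by linarith)
          _ = 1 + δ := mul_one _
      · obtain ⟨h7, h8, h9⟩ := hmem w h1 h2 h3.le
        have hrw : 0 < w.re + d := by linarith
        have hlow := h.low_left hB hBL hAL hd0 hd hx1 hX hz h7 (by rw [h8]; linarith)
        rw [h8] at hlow
        have e1 : -d - (-2 * d - w.re) = w.re + d := by ring
        rw [e1, ← hnGS] at hlow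
        have hGp : 0 < ‖GS w‖ := norm_pos_iff.2 (hGSne w h1 h2 h3.le)
        have hup := h.up w h9
        have h10 : ‖g w‖ / ‖GS w‖ ≤ Real.exp (2 * (A * L) + 4 * (A * L) * (x1 + D + 1) / (w.re + d)) := by
          rw [div_le_iff₀ hGp]
          calc ‖g w‖ ≤ Real.exp (A * L) := hup
            _ = Real.exp (2 * (A * L) + 4 * (A * L) * (x1 + D + 1) / (w.re + d)) *
              Real.exp (-(A * L + 4 * (A * L) * (x1 + D + 1) / (w.re + d))) := by
                rw [← Real.exp_add]; congr 1; ring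
            _ ≤ _ := by gcongr
        have h11 : 2 * (A * L) + 4 * (A * L) * (x1 + D + 1) / (w.re + d) ≤ C * L * (1 / (2 * (w.re + d))) := by
          have e2 : C * L * (1 / (2 * (w.re + d))) =
              (2 * (A * L) * (x1 + 1 + D) + 4 * (A * L) * (x1 + D + 1)) / (w.re + d) := by
            rw [hC]; field_simp
          rw [e2, add_div]
          have e3 : 2 * (A * L) ≤ 2 * (A * L) * (x1 + 1 + D) / (w.re + d) := by
            rw [le_div_iff₀ hrw]
            exact mul_le_mul_of_nonneg_left (by linarith) (by positivity)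
          linarith
        have h12 : 1 / (2 * (w.re + d)) ≤ (1 / (w - w1)).re + (1 / (w - w2)).re := by
          have h13 := inv_re_nonneg (w := w) (v := w1) (by rw [hw1r]; exact h1)
          have h14 := inv_re_nonneg (w := w) (v := w2) (by rw [hw2r]; exact h1)
          rcases h5 with h5 | h5
          · have := inv_re_ge (w := w) (v := w1) (r := w.re + d) (by rw [hw1r]; ring) hrw (by linarith)
            linarith
          · have := inv_re_ge (w := w) (v := w2) (r := w.re + d) (by rw [hw2r]; ring) hrw (by linarith)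
            linarith
        have h15 : Real.exp (-(c * L * (w.re + d) + C * L * ((1 / (w - w1)).re + (1 / (w - w2)).re))) ≤
            Real.exp (-(2 * (A * L) + 4 * (A * L) * (x1 + D + 1) / (w.re + d))) := by
          apply Real.exp_le_exp.2
          apply neg_le_neg
          have h16 : 0 ≤ c * L * (w.re + d) := by positivity
          have h17 : C * L * (1 / (2 * (w.re + d))) ≤ C * L * ((1 / (w - w1)).re + (1 / (w - w2)).re) := by
            gcongr
          linarith
        calc _ ≤ Real.exp (2 * (A * L) + 4 * (A * L) * (x1 + D + 1) / (w.re + d)) *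
              Real.exp (-(2 * (A * L) + 4 * (A * L) * (x1 + D + 1) / (w.re + d))) :=
              mul_le_mul h10 h15 (Real.exp_pos _).le (Real.exp_pos _).le
          _ = 1 := by rw [← Real.exp_add, add_neg_cancel, Real.exp_zero]
          _ ≤ 1 + δ := by linarith
    have hne12 : ∀ w : ℂ, |w.im| ≤ Y1 → w - w1 ≠ 0 ∧ w - w2 ≠ 0 := by
      intro w hw
      have h1 := abs_le.1 hw
      constructor
      · intro h0
        have h2 := congrArg Complex.im h0
        rw [Complex.sub_im, hw1i, Complex.zero_im] at h2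
        linarith [h1.2]
      · intro h0
        have h2 := congrArg Complex.im h0
        rw [Complex.sub_im, hw2i, Complex.zero_im] at h2
        linarith [h1.1]
    have hmax : ∀ z : ℂ, -d ≤ z.re → z.re ≤ x1 + 1 → -Y1 ≤ z.im → z.im ≤ Y1 → ‖q z‖ ≤ 1 + δ := by
      intro z z1 z2 z3 z4
      refine rect_max (a := -d) (b := x1 + 1) (c := -Y1) (d := Y1) (by linarith) (by linarith) ?_ ?_ ?_ ?_ ?_ z1 z2 z3 z4
      · intro w h1 h2 h3 h4
        have h5 : |w.im| ≤ Y1 := abs_le.2 ⟨h3, h4⟩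
        obtain ⟨h6, h7⟩ := hne12 w h5
        have h8 := h.an w (hmem w h1 h2 h5).2.2
        have h9 := hGSd w h1 h2 h5
        have h10 := hGSne w h1 h2 h5
        rw [hq]
        have h11 : DifferentiableAt ℂ (fun w => 1 / (w - w1)) w :=
          (differentiableAt_const _).div (by fun_prop) h6
        have h12 : DifferentiableAt ℂ (fun w => 1 / (w - w2)) w :=
          (differentiableAt_const _).div (by fun_prop) h7
        have h13 : DifferentiableAt ℂ (fun w : ℂ => w + d) w := by fun_prop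
        exact (h8.div h9 h10).mul ((((h13.const_mul _).add ((h11.add h12).const_mul _)).neg).cexp)
      · intro w h1 h2 h3
        have h5 : |w.im| ≤ Y1 := abs_le.2 ⟨h2, h3⟩
        rw [hqn, inv_re_zero (by rw [h1, hw1r]), inv_re_zero (by rw [h1, hw2r]), h1]
        have e : (-(2 * d : ℝ) - conj w : ℂ) = w := by
          apply Complex.ext
          · simp [h1]; ring
          · simp
        rw [hnGS, e, div_self (norm_ne_zero_iff.2 (hz w (hmem w h1.ge (by linarith) h5).2.2 h1.le))]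
        simp only [neg_add_cancel, mul_zero, add_zero, neg_zero, Real.exp_zero, mul_one]
        linarith
      · intro w h1 h2 h3
        have h5 : |w.im| ≤ Y1 := abs_le.2 ⟨h2, h3⟩
        obtain ⟨h7, h8, h9⟩ := hmem w (by linarith) h1.le h5
        have hrg := h.rgt w h9 (by linarith)
        have hfar := (h.far _ (hsubW h7) (by rw [h8]; linarith)).1
        rw [← hnGS] at hfar
        have hGp : 0 < ‖GS w‖ := lt_of_lt_of_le (by positivity) hfar
        rw [hqn]
        have h10 : ‖g w‖ / ‖GS w‖ ≤ Real.exp (c * L * (w.re + d)) := by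
          rw [div_le_iff₀ hGp]
          refine hrg.trans ?_
          have h11 : Real.exp (c * L * (w.re + d)) * B⁻¹ ≤ Real.exp (c * L * (w.re + d)) * ‖GS w‖ := by gcongr
          refine le_trans ?_ h11
          rw [← div_eq_mul_inv, le_div_iff₀ hBp]
          have e3 : B * Real.exp (L * w.re) * B = Real.exp (L * w.re + 2 * Real.log B) := by
            rw [Real.exp_add, two_mul, Real.exp_add, Real.exp_log hBp]
            ring
          rw [e3]
          apply Real.exp_le_exp.2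
          rw [h1]
          have h12 : c * L * (x1 + 1) ≤ c * L * (x1 + 1 + d) :=
            mul_le_mul_of_nonneg_left (by linarith) hcL.le
          have h13 : (L + 2 * Real.log B) * (x1 + 1) ≤ c * L * (x1 + 1) := by gcongr
          nlinarith
        have h14 : Real.exp (-(c * L * (w.re + d) + C * L * ((1 / (w - w1)).re + (1 / (w - w2)).re))) ≤
            Real.exp (-(c * L * (w.re + d))) := by
          apply Real.exp_le_exp.2
          have h15 := inv_re_nonneg (w := w) (v := w1) (by rw [hw1r]; linarith)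
          have h16 := inv_re_nonneg (w := w) (v := w2) (by rw [hw2r]; linarith)
          have : 0 ≤ C * L * ((1 / (w - w1)).re + (1 / (w - w2)).re) := by positivity
          linarith
        calc _ ≤ Real.exp (c * L * (w.re + d)) * Real.exp (-(c * L * (w.re + d))) :=
              mul_le_mul h10 h14 (Real.exp_pos _).le (Real.exp_pos _).le
          _ = 1 := by rw [← Real.exp_add, add_neg_cancel, Real.exp_zero]
          _ ≤ 1 + δ := by linarith
      · intro w h1 h2 h3
        refine hlat w h2 h3 (by rw [h1, abs_neg, abs_of_pos hY1p]) (fun h4 => hcb w h1 h2 (by linarith)) (Or.inr ?_)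
        rw [h1, hw2i]
        have : -Y1 - -(Y1 + s) = s := by ring
        rw [this, abs_of_pos hsp]
      · intro w h1 h2 h3
        refine hlat w h2 h3 (by rw [h1, abs_of_pos hY1p]) (fun h4 => hca w h1 h2 (by linarith)) (Or.inl ?_)
        rw [h1, hw1i]
        have : Y1 - (Y1 + s) = -s := by ring
        rw [this, abs_neg, abs_of_pos hsp]
    -- evaluate
    have hwr : (-(d : ℂ) + r).re = -d + r := by simp
    have hwi : (-(d : ℂ) + r).im = 0 := by simp
    have h1 := hmax (-(d : ℂ) + r) (by rw [hwr]; linarith) (by rw [hwr]; linarith) (by rw [hwi]; linarith)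
      (by rw [hwi]; exact hY1p.le)
    rw [hqn, hwr] at h1
    have e1 : (-(2 * d : ℝ) - conj (-(d : ℂ) + r) : ℂ) = -(d : ℂ) - r := by
      simp
      ring
    rw [hnGS, e1] at h1
    have e2 : -d + r + d = r := by ring
    rw [e2] at h1
    have hgp : 0 < ‖g (-(d : ℂ) - r)‖ := by
      rw [norm_pos_iff]
      obtain ⟨h2, h3, -⟩ := hmem (-(d : ℂ) + r) (by rw [hwr]; linarith) (by rw [hwr]; linarith)
        (by rw [hwi, abs_zero]; exact hY1p.le)
      rw [e1] at h2 h3
      exact hz _ (hsubW h2) (by rw [h3, hwr]; linarith)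
    have h2 : (1 / (-(d : ℂ) + r - w1)).re ≤ r / Y1 ^ 2 := by
      apply inv_re_le (by rw [hwr, hw1r]; ring) hr0 hY1p
      rw [hwi, hw1i, zero_sub, abs_neg, abs_of_pos (by linarith)]
      linarith
    have h3 : (1 / (-(d : ℂ) + r - w2)).re ≤ r / Y1 ^ 2 := by
      apply inv_re_le (by rw [hwr, hw2r]; ring) hr0 hY1p
      rw [hwi, hw2i, zero_sub, neg_neg, abs_of_pos (by linarith)]
      linarith
    have h4 : c * L * r + C * L * ((1 / (-(d : ℂ) + r - w1)).re + (1 / (-(d : ℂ) + r - w2)).re) ≤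
        (c * L + 2 * (C * L) / Y1 ^ 2) * r := by
      have h5 : C * L * ((1 / (-(d : ℂ) + r - w1)).re + (1 / (-(d : ℂ) + r - w2)).re) ≤ C * L * (r / Y1 ^ 2 + r / Y1 ^ 2) := by
        gcongr
      refine (add_le_add le_rfl h5).trans (le_of_eq ?_)
      ring
    have h6 : ‖g (-(d : ℂ) + r)‖ / ‖g (-(d : ℂ) - r)‖ ≤
        (1 + δ) * Real.exp (c * L * r + C * L * ((1 / (-(d : ℂ) + r - w1)).re + (1 / (-(d : ℂ) + r - w2)).re)) := by
      rw [Real.exp_neg, ← div_eq_mul_inv, div_le_iff₀ (Real.exp_pos _)] at h1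
      exact h1
    rw [div_le_iff₀ hgp, mul_comm _ ‖g (-(d : ℂ) - r)‖] at h6
    refine h6.trans ?_
    gcongr
  -- let `δ → 0`
  have hlim : Tendsto (fun δ : ℝ => ‖g (-(d : ℂ) - r)‖ *
      ((1 + δ) * Real.exp ((c * L + 2 * (C * L) / Y1 ^ 2) * r))) (𝓝[>] 0) (𝓝 (‖g (-(d : ℂ) - r)‖ *
      ((1 + 0) * Real.exp ((c * L + 2 * (C * L) / Y1 ^ 2) * r)))) := by
    apply tendsto_nhdsWithin_of_tendsto_nhds
    apply Continuous.tendsto
    fun_prop
  rw [add_zero, one_mul] at hlim
  refine ge_of_tendsto hlim ?_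
  filter_upwards [self_mem_nhdsWithin] with δ hδ
  exact key δ hδ

end

end Pool.Agent.N831.SD
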