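import Pool.Agent.N831.SD.C

set_option autoImplicit false

/-!
# Zeros of the next function are to the right of a zero
-/

namespace Pool.Agent.N831.SD

open Complex Filter Topology Set Metric
open scoped ComplexConjugate RealInnerProductSpace

noncomputable section

variable {X Y A B x1 L : ℝ} {g : ℂ → ℂ}

lemma deriv_le_zero {N : ℝ → ℝ} {N' e : ℝ} (h0 : N 0 = 0) (he : 0 < e) (h : ∀ r, 0 ≤ r → r ≤ e → N r ≤ 0)
    (hN : HasDerivAt N N' 0) : N' ≤ 0 := by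
  have h1 := (hasDerivAt_iff_tendsto_slope_zero.1 hN).mono_left (nhdsWithin_mono (0 : ℝ) (s := Ioi 0) (t := {0}ᶜ)
    (fun x hx => ne_of_gt hx))
  refine le_of_tendsto h1 ?_
  filter_upwards [Ioo_mem_nhdsGT he] with t ht
  rw [zero_add, h0, sub_zero, smul_eq_mul]
  exact mul_nonpos_of_nonneg_of_nonpos (inv_nonneg.2 ht.1.le) (h t ht.1.le ht.2.le)

theorem Loc.edge (h : Loc X Y A B x1 L g) (hB : 1 ≤ B) (hL : 0 < L) (hA : 0 < A) (hBL : Real.log B ≤ A * L)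
    {d D : ℝ} (hd0 : 0 ≤ d) (hd : d ≤ D) (hx1 : 1 ≤ x1) (hX : 2 * (x1 + D + 2) ≤ X) (hY : x1 + D + 3 < Y)
    (hz : ∀ z ∈ Wi X Y, z.re ≤ -d → g z ≠ 0) {c C : ℝ} (hc : L + 2 * Real.log B ≤ c * L)
    (hC : C = 2 * (2 * A * (x1 + 1 + D) + 4 * A * (x1 + D + 1))) :
    2 * (deriv g (-(d : ℂ)) / g (-(d : ℂ))).re ≤ c * L + 2 * (C * L) / (Y - (x1 + D + 3)) ^ 2 := by
  obtain ⟨K, hK⟩ : ∃ K : ℝ, K = c * L + 2 * (C * L) / (Y - (x1 + D + 3)) ^ 2 := ⟨_, rfl⟩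
  rw [← hK]
  have hmem : (-(d : ℂ)) ∈ Wi X Y := by
    refine ⟨?_, ?_⟩
    · rw [Complex.neg_re, Complex.ofReal_re, abs_neg, abs_of_nonneg hd0]
      linarith
    · rw [Complex.neg_im, Complex.ofReal_im, neg_zero, abs_zero]
      linarith
  have hne : g (-(d : ℂ)) ≠ 0 := hz _ hmem (by simp)
  have hg := (h.an _ hmem).hasDerivAt
  have hg1 : HasDerivAt (fun r : ℝ => g (-(d : ℂ) + r)) (deriv g (-(d : ℂ))) 0 := by
    have h1 : HasDerivAt (fun r : ℝ => (-(d : ℂ) + (r : ℂ))) 1 0 := by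
      have := (Complex.ofRealCLM.hasDerivAt (x := 0)).const_add (-(d : ℂ))
      simpa using this
    have h2 := HasDerivAt.comp_of_eq (x := (0 : ℝ)) (h₂ := g) (h := fun r : ℝ => (-(d : ℂ) + (r : ℂ)))
      (y := -(d : ℂ)) hg h1 (by simp)
    rw [mul_one] at h2
    exact h2
  have hg2 : HasDerivAt (fun r : ℝ => g (-(d : ℂ) - r)) (-deriv g (-(d : ℂ))) 0 := by
    have h1 : HasDerivAt (fun r : ℝ => (-(d : ℂ) - (r : ℂ))) (-1) 0 := by
      have := (Complex.ofRealCLM.hasDerivAt (x := 0)).const_sub (-(d : ℂ))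
      simpa using this
    have h2 := HasDerivAt.comp_of_eq (x := (0 : ℝ)) (h₂ := g) (h := fun r : ℝ => (-(d : ℂ) - (r : ℂ)))
      (y := -(d : ℂ)) hg h1 (by simp)
    rw [mul_neg_one] at h2
    exact h2
  have hE : HasDerivAt (fun r : ℝ => Real.exp (2 * K * r)) (2 * K) 0 := by
    have h1 : HasDerivAt (fun r : ℝ => 2 * K * r) (2 * K) 0 := by
      simpa using (hasDerivAt_id (0 : ℝ)).const_mul (2 * K)
    simpa using h1.exp
  have hN : HasDerivAt (fun r : ℝ => ‖g (-(d : ℂ) + r)‖ ^ 2 - ‖g (-(d : ℂ) - r)‖ ^ 2 * Real.exp (2 * K * r))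
      (4 * ⟪g (-(d : ℂ)), deriv g (-(d : ℂ))⟫ - 2 * K * ‖g (-(d : ℂ))‖ ^ 2) 0 := by
    have h1 := hg1.norm_sq.sub (hg2.norm_sq.mul hE)
    refine h1.congr_deriv ?_
    simp only [ofReal_zero, add_zero, sub_zero, mul_zero, Real.exp_zero, mul_one, inner_neg_right]
    ring
  have h1 := deriv_le_zero (e := x1 + 1) (by simp) (by linarith) (fun r hr0 hr => by
    have h2 := h.compare hB hL hA hBL hd0 hd hx1 hX hY hz hc hC hr0 hr
    rw [← hK] at h2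
    have h3 : ‖g (-(d : ℂ) + r)‖ ^ 2 ≤ (‖g (-(d : ℂ) - r)‖ * Real.exp (K * r)) ^ 2 := by gcongr
    have h4 : Real.exp (2 * K * r) = Real.exp (K * r) ^ 2 := by rw [← Real.exp_nat_mul]; congr 1; push_cast; ring
    rw [h4, ← mul_pow]
    linarith) hN
  have hn : 0 < ‖g (-(d : ℂ))‖ ^ 2 := by positivity
  have h5 : (deriv g (-(d : ℂ)) / g (-(d : ℂ))).re = ⟪g (-(d : ℂ)), deriv g (-(d : ℂ))⟫ / ‖g (-(d : ℂ))‖ ^ 2 := by
    rw [Complex.inner, div_eq_mul_inv, Complex.inv_def, ← Complex.normSq_eq_norm_sq, ← mul_assoc, Complex.re_mul_ofReal,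
      ← div_eq_mul_inv, mul_comm]
  rw [h5, mul_div_assoc', div_le_iff₀ hn]
  linarith

theorem next {X A x1 D : ℝ} (hA : 0 < A) (hx1 : 1 ≤ x1) (hD : 0 ≤ D) (hX : 2 * (x1 + D + 3) ≤ X) :
    ∃ Y0 : ℝ, 0 < Y0 ∧ ∀ B : ℝ, 1 ≤ B → ∃ L0 : ℝ, 1 ≤ L0 ∧ ∀ L : ℝ, L0 ≤ L → ∀ Y : ℝ, Y0 ≤ Y → ∀ g : ℂ → ℂ,
    Loc X Y A B x1 L g → ∀ d : ℝ, 0 ≤ d → d ≤ D → (∀ z ∈ Wi X Y, z.re < -d → g z ≠ 0) → g (-(d : ℂ)) ≠ 0 →
    g (-(d : ℂ)) - deriv g (-(d : ℂ)) / L ≠ 0 := by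
  obtain ⟨C, hC⟩ : ∃ C : ℝ, C = 2 * (2 * A * (x1 + 1 + (D + 1)) + 4 * A * (x1 + (D + 1) + 1)) := ⟨_, rfl⟩
  have hCp : 0 < C := by rw [hC]; positivity
  refine ⟨x1 + (D + 1) + 3 + (1 + 16 * C), by positivity, fun B hB => ?_⟩
  have hlB : 0 ≤ Real.log B := Real.log_nonneg hB
  refine ⟨1 + 16 * Real.log B + Real.log B / A, by have : 0 ≤ Real.log B / A := by positivity
                                                   linarith, ?_⟩
  intro L hL Y hY g h d hd0 hd hz hgd hcon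
  have hlBA : 0 ≤ Real.log B / A := by positivity
  have hLp : 0 < L := by linarith
  have hBL : Real.log B ≤ A * L := by
    have h1 : Real.log B / A ≤ L := by linarith
    rwa [div_le_iff₀ hA, mul_comm] at h1
  have hK : (9 / 8 : ℝ) * L + 2 * (C * L) / (Y - (x1 + (D + 1) + 3)) ^ 2 ≤ 5 / 4 * L := by
    have h1 : 1 + 16 * C ≤ Y - (x1 + (D + 1) + 3) := by linarith
    have h2 : 16 * C ≤ (Y - (x1 + (D + 1) + 3)) ^ 2 := by nlinarith
    have h3 : 2 * (C * L) / (Y - (x1 + (D + 1) + 3)) ^ 2 ≤ L / 8 := by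
      rw [div_le_iff₀ (by linarith)]
      nlinarith
    linarith
  -- bound slightly to the left
  have hleft : ∀ e : ℝ, 0 < e → e ≤ 1 → (deriv g (-((d + e : ℝ) : ℂ)) / g (-((d + e : ℝ) : ℂ))).re ≤ 5 / 8 * L := by
    intro e he he1
    have h1 := h.edge hB hLp hA hBL (d := d + e) (D := D + 1) (by linarith) (by linarith) hx1 (by linarith) (by linarith)
      (fun z hz1 hz2 => hz z hz1 (by linarith)) (c := 9 / 8) (by linarith) hC
    linarith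
  have hmem : (-(d : ℂ)) ∈ Wi X Y := by
    refine ⟨?_, ?_⟩
    · rw [Complex.neg_re, Complex.ofReal_re, abs_neg, abs_of_nonneg hd0]
      linarith
    · rw [Complex.neg_im, Complex.ofReal_im, neg_zero, abs_zero]
      linarith
  have hcont : Tendsto (fun e : ℝ => (deriv g (-((d + e : ℝ) : ℂ)) / g (-((d + e : ℝ) : ℂ))).re) (𝓝[>] 0)
      (𝓝 ((deriv g (-(d : ℂ)) / g (-(d : ℂ))).re)) := by
    apply tendsto_nhdsWithin_of_tendsto_nhds
    have h1 : ContinuousAt (fun z => (deriv g z / g z).re) (-(d : ℂ)) :=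
      Complex.continuous_re.continuousAt.comp (((h.ana hmem).deriv.continuousAt).div (h.ana hmem).continuousAt hgd)
    have h2 : Tendsto (fun e : ℝ => -((d + e : ℝ) : ℂ)) (𝓝 0) (𝓝 (-(d : ℂ))) := by
      have h3 : Continuous fun e : ℝ => -((d + e : ℝ) : ℂ) := by fun_prop
      simpa using h3.tendsto 0
    exact h1.tendsto.comp h2
  have hfin : (deriv g (-(d : ℂ)) / g (-(d : ℂ))).re ≤ 5 / 8 * L := by
    refine le_of_tendsto hcont ?_
    filter_upwards [Ioo_mem_nhdsGT one_pos] with e he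
    exact hleft e he.1 he.2.le
  have hLc : (L : ℂ) ≠ 0 := by exact_mod_cast hLp.ne'
  have h1 : deriv g (-(d : ℂ)) / g (-(d : ℂ)) = L := by
    rw [div_eq_iff hgd]
    have h2 : g (-(d : ℂ)) = deriv g (-(d : ℂ)) / L := sub_eq_zero.1 hcon
    rw [eq_div_iff hLc] at h2
    rw [← h2, mul_comm]
  rw [h1, Complex.ofReal_re] at hfin
  linarith

end

end Pool.Agent.N831.SD
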