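import Pool.Agent.N831.SD.B

set_option autoImplicit false

/-!
# Growth of a function with no zeros far from the line
-/

namespace Pool.Agent.N831.SD

open Complex Filter Topology Set Metric
open scoped ComplexConjugate

noncomputable section

variable {X Y A B x1 L : ℝ} {g : ℂ → ℂ}

/-- the functional equation -/
def Refl (X Y B L : ℝ) (g : ℂ → ℂ) : Prop :=
  ∀ z ∈ Wi X Y, ‖g z‖ ≤ B * Real.exp (L * z.re) * ‖g (-conj z)‖

lemma cosh_ge {y : ℝ} : (1 + |y|) / 2 ≤ Real.cosh y := by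
  rw [← Real.cosh_abs, Real.cosh_eq]
  have h1 := Real.add_one_le_exp |y|
  have h2 := Real.exp_pos (-|y|)
  linarith

/-- the function is small to the left of all zeros -/
theorem left_small {X A x1 τ η : ℝ} (hA : 0 < A) (hx1 : 1 ≤ x1) (hX : 2 * (x1 + 1) ≤ X) (hη : 0 < η) (hη1 : η ≤ 1 / 8)
    (hτ : 0 < τ) : ∀ B : ℝ, 1 ≤ B → ∃ L0 : ℝ, 1 ≤ L0 ∧ ∀ L : ℝ, L0 ≤ L → ∀ (Y : ℝ) (g : ℂ → ℂ), Loc X Y A B x1 L g →
    ∀ δ : ℝ, 0 ≤ δ → δ ≤ 1 / 2 → (∀ z ∈ Wi X Y, z.re < -δ - η → g z ≠ 0) →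
    ∀ z ∈ Wi X (Y - (x1 + 2)), z.re ≤ -δ - 2 * η → ‖g z‖ ≤ Real.exp (τ * L) := by
  intro B hB
  have hBp : 0 < B := by linarith
  obtain ⟨L0, hL0, ht⟩ := tame (A := A) (B := B) (ρ0 := 1 / 2) (η := η) (Rm := x1 + 1) (θ := τ / (6 * (x1 + 1))) hA hB
    (by norm_num) hη (by linarith) (by positivity)
  have hlB : 0 ≤ Real.log B := Real.log_nonneg hB
  refine ⟨max L0 (2 * Real.log B / τ), hL0.trans (le_max_left _ _), ?_⟩
  intro L hL Y g h δ hδ hδ1 hz z hzW hzr
  have hL1 : L0 ≤ L := (le_max_left _ _).trans hL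
  have hLp : 0 < L := by linarith
  have hL2 : Real.log B ≤ τ / 2 * L := by
    have h1 := (le_max_right _ _).trans hL
    rw [div_le_iff₀ hτ] at h1
    linarith
  have hBe : B ≤ Real.exp (τ / 2 * L) := by
    rw [← Real.exp_log hBp]
    exact Real.exp_le_exp.2 hL2
  have hYs : Wi X (Y - (x1 + 2)) ⊆ Wi X Y := Wi_mono le_rfl (by linarith)
  rcases le_or_gt z.re (-x1) with h1 | h1
  · refine (h.far z (hYs hzW) h1).2.trans (hBe.trans (Real.exp_le_exp.2 ?_))
    nlinarith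
  obtain ⟨c, hc⟩ : ∃ c : ℂ, c = ⟨-(x1 + 1), z.im⟩ := ⟨_, rfl⟩
  obtain ⟨r, hr⟩ : ∃ r : ℝ, r = x1 + 1 - δ - η := ⟨_, rfl⟩
  have hball : ∀ w ∈ ball c r, w ∈ Wi X Y ∧ w.re < -δ - η := by
    intro w hw
    rw [mem_ball_iff_norm] at hw
    have h2 := abs_lt.1 ((Complex.abs_re_le_norm (w - c)).trans_lt hw)
    have h3 := abs_lt.1 ((Complex.abs_im_le_norm (w - c)).trans_lt hw)
    have h4 := abs_lt.1 hzW.2
    rw [Complex.sub_re, hc] at h2
    rw [Complex.sub_im, hc] at h3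
    simp only at h2 h3
    refine ⟨⟨abs_lt.2 ⟨by linarith, by linarith⟩, abs_lt.2 ⟨by linarith, by linarith⟩⟩, by linarith⟩
  have hmid : ∀ w ∈ ball c (1 / 2), B⁻¹ ≤ ‖g w‖ ∧ ‖g w‖ ≤ B := by
    intro w hw
    refine h.far w (hball w (ball_subset_ball (by linarith) hw)).1 ?_
    rw [mem_ball_iff_norm] at hw
    have h2 := abs_lt.1 ((Complex.abs_re_le_norm (w - c)).trans_lt hw)
    rw [Complex.sub_re, hc] at h2
    simp only at h2
    linarith
  have hlog := ht L hL1 c r g (by linarith) (by linarith) (by linarith)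
    (fun w hw => (h.an w (hball w hw).1).differentiableWithinAt) (fun w hw => hz w (hball w hw).1 (hball w hw).2)
    (fun w hw => h.up w (hball w hw).1) hmid
  have hcz : ‖z - c‖ = z.re + (x1 + 1) := by
    have e : z - c = ((z.re + (x1 + 1) : ℝ) : ℂ) := by
      rw [hc]
      apply Complex.ext
      · simp only [Complex.sub_re, Complex.ofReal_re]
        ring
      · simp
    rw [e, Complex.norm_real, Real.norm_of_nonneg (by linarith)]
  have hsub : closedBall c (r - η) ⊆ ball c r := closedBall_subset_ball (by linarith)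
  have hcc : c ∈ closedBall c (r - η) := mem_closedBall_self (by linarith)
  have hzc : z ∈ closedBall c (r - η) := by rw [mem_closedBall_iff_norm, hcz]; linarith
  have h5 := size (E := τ / (6 * (x1 + 1)) * L) (by linarith) (by positivity)
    (fun w hw => h.an w (hball w (hsub hw)).1) (fun w hw => hz w (hball w (hsub hw)).1 (hball w (hsub hw)).2)
    hlog hcc hzc
  have h6 : ‖g c‖ ≤ B := (hmid c (mem_ball_self (by norm_num))).2
  have h7 : 3 * (τ / (6 * (x1 + 1)) * L) * ‖z - c‖ ≤ τ / 2 * L := by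
    rw [hcz]
    calc 3 * (τ / (6 * (x1 + 1)) * L) * (z.re + (x1 + 1)) ≤ 3 * (τ / (6 * (x1 + 1)) * L) * (x1 + 1) :=
          mul_le_mul_of_nonneg_left (by linarith) (by positivity)
      _ = τ / 2 * L := by field_simp; norm_num
  calc ‖g z‖ ≤ ‖g c‖ * Real.exp (3 * (τ / (6 * (x1 + 1)) * L) * ‖z - c‖) := h5
    _ ≤ Real.exp (τ / 2 * L) * Real.exp (τ / 2 * L) := by
        gcongr
        exact h6.trans hBe
    _ = Real.exp (τ * L) := by rw [← Real.exp_add]; congr 1; ring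

/-- The growth between the zeros. -/
theorem growth {X A x1 τ Y0 : ℝ} (hA : 0 < A) (hx1 : 1 ≤ x1) (hX : 2 * (x1 + 1) ≤ X) (hτ : 0 < τ)
    (hY0 : 0 ≤ Y0) : ∃ η Y1 : ℝ, 0 < η ∧ η ≤ 1 / 8 ∧ η ≤ τ ∧ Y0 ≤ Y1 ∧ ∀ B : ℝ, 1 ≤ B → ∃ L0 : ℝ, 1 ≤ L0 ∧ ∀ L : ℝ, L0 ≤ L →
    ∀ (Y : ℝ) (g : ℂ → ℂ), Y1 ≤ Y → Loc X Y A B x1 L g → Refl X Y B L g →
    ∀ δ : ℝ, 0 ≤ δ → δ ≤ 1 / 2 → (∀ z ∈ Wi X Y, z.re < -δ - η → g z ≠ 0) →
    ∀ z ∈ Wi X Y0, z.re ≤ δ → ‖g z‖ ≤ Real.exp (L * (τ + max 0 ((z.re + δ) / 2))) := by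
  obtain ⟨η, hη⟩ : ∃ η : ℝ, η = min (1 / 8) (τ / 4) := ⟨_, rfl⟩
  have hηp : 0 < η := by rw [hη]; exact lt_min (by norm_num) (by positivity)
  have hη1 : η ≤ 1 / 8 := by rw [hη]; exact min_le_left _ _
  have hη2 : η ≤ τ / 4 := by rw [hη]; exact min_le_right _ _
  obtain ⟨κ, hκ⟩ : ∃ κ : ℝ, κ = τ / (4 * Real.cosh Y0) := ⟨_, rfl⟩
  have hcY : 0 < Real.cosh Y0 := Real.cosh_pos _
  have hκp : 0 < κ := by rw [hκ]; positivity
  obtain ⟨Y2, hY2⟩ : ∃ Y2 : ℝ, Y2 = Y0 + 4 * A / κ + 1 := ⟨_, rfl⟩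
  have hAκ : 0 < 4 * A / κ := by positivity
  refine ⟨η, Y2 + (x1 + 3), hηp, hη1, by linarith, by linarith, fun B hB => ?_⟩
  have hBp : 0 < B := by linarith
  have hlB : 0 ≤ Real.log B := Real.log_nonneg hB
  obtain ⟨L0, hL0, hls⟩ := left_small (τ := τ / 4) (η := η) hA hx1 hX hηp hη1 (by positivity) B hB
  refine ⟨max L0 (8 * Real.log B / τ), hL0.trans (le_max_left _ _), ?_⟩
  intro L hL Y g hY h hrefl δ hδ hδ1 hz z hzW hzr
  have hL1 : L0 ≤ L := (le_max_left _ _).trans hL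
  have hLp : 0 < L := by linarith
  have hL2 : 2 * Real.log B ≤ τ / 4 * L := by
    have h1 := (le_max_right _ _).trans hL
    rw [div_le_iff₀ hτ] at h1
    linarith
  have hBe : B ^ 2 ≤ Real.exp (τ / 4 * L) := by
    rw [← Real.exp_log (show 0 < B ^ 2 by positivity), Real.log_pow]
    apply Real.exp_le_exp.2
    push_cast
    exact hL2
  have hB2 : B ≤ B ^ 2 := by nlinarith
  have hsm := hls L hL1 Y g h δ hδ hδ1 hz
  obtain ⟨a, ha⟩ : ∃ a : ℝ, a = δ + 2 * η := ⟨_, rfl⟩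
  have ha1 : a ≤ 1 := by linarith
  have ha0 : 0 < a := by linarith
  rcases le_or_gt z.re (-a) with h1 | h1
  · refine (hsm z ⟨hzW.1, hzW.2.trans_le (by linarith)⟩ (by linarith)).trans (Real.exp_le_exp.2 ?_)
    have h2 : 0 ≤ max 0 ((z.re + δ) / 2) := le_max_left _ _
    nlinarith
  -- the maximum principle
  obtain ⟨q, hq⟩ : ∃ q : ℂ → ℂ, q = fun w => g w * cexp (-(((L : ℝ) : ℂ) * (w + (a : ℝ)) / 2 + ((κ * L : ℝ) : ℂ) * Complex.cos w)) :=
    ⟨_, rfl⟩
  have hcosre : ∀ w : ℂ, (Complex.cos w).re = Real.cos w.re * Real.cosh w.im := by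
    intro w
    have h2 := Complex.cos_eq w
    rw [h2, Complex.sub_re, ← Complex.ofReal_cos, ← Complex.ofReal_cosh, ← Complex.ofReal_mul, Complex.ofReal_re,
      ← Complex.ofReal_sin, ← Complex.ofReal_sinh, ← Complex.ofReal_mul]
    simp
  have hqn : ∀ w : ℂ, ‖q w‖ = ‖g w‖ * Real.exp (-(L * (w.re + a) / 2 + κ * L * (Real.cos w.re * Real.cosh w.im))) := by
    intro w
    rw [hq]
    simp only
    rw [norm_mul, Complex.norm_exp, Complex.neg_re, Complex.add_re, Complex.re_ofReal_mul, hcosre]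
    congr 4
    have e : (L : ℂ) * (w + (a : ℝ)) / 2 = ((L / 2 : ℝ) : ℂ) * (w + (a : ℝ)) := by push_cast; ring
    rw [e, Complex.re_ofReal_mul, Complex.add_re, Complex.ofReal_re]
    ring
  have hcos : ∀ x : ℝ, -a ≤ x → x ≤ a → 1 / 2 ≤ Real.cos x := by
    intro x h2 h3
    have h4 := Real.one_sub_sq_div_two_le_cos (x := x)
    have h5 : x ^ 2 ≤ 1 := by nlinarith
    linarith
  have hin : ∀ w : ℂ, -a ≤ w.re → w.re ≤ a → |w.im| ≤ Y2 → w ∈ Wi X Y := by
    intro w h2 h3 h4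
    exact ⟨abs_lt.2 ⟨by linarith, by linarith⟩, by linarith⟩
  have hbase : ∀ w : ℂ, w.re = -a → |w.im| ≤ Y2 → ‖g w‖ ≤ Real.exp (τ / 4 * L) := by
    intro w h2 h3
    exact hsm w ⟨by rw [h2]; exact abs_lt.2 ⟨by linarith, by linarith⟩, by linarith⟩ (by linarith)
  have hpos : ∀ w : ℂ, -a ≤ w.re → w.re ≤ a → 0 ≤ κ * L * (Real.cos w.re * Real.cosh w.im) := by
    intro w h2 h3
    have h4 := hcos w.re h2 h3
    have h5 := Real.cosh_pos w.im
    positivity
  have hM : 1 ≤ B ^ 2 * Real.exp (τ / 4 * L) := by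
    have h2 : 1 ≤ B ^ 2 := by nlinarith
    have h3 : 1 ≤ Real.exp (τ / 4 * L) := Real.one_le_exp (by positivity)
    nlinarith
  have htop : ∀ w : ℂ, |w.im| = Y2 → -a ≤ w.re → w.re ≤ a → ‖q w‖ ≤ B ^ 2 * Real.exp (τ / 4 * L) := by
    intro w h2 h3 h4
    rw [hqn]
    have h5 := h.up w (hin w h3 h4 h2.le)
    have h6 : A * L ≤ κ * L * (Real.cos w.re * Real.cosh w.im) := by
      have h7 := hcos w.re h3 h4
      have h8 : (1 + Y2) / 2 ≤ Real.cosh w.im := by rw [← h2]; exact cosh_ge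
      have h9 : 2 * A / κ ≤ (1 + Y2) / 2 := by
        have : 4 * A / κ = 2 * (2 * A / κ) := by ring
        linarith
      have h10 : 1 / 2 * (2 * A / κ) ≤ Real.cos w.re * Real.cosh w.im := by
        have : 0 ≤ 2 * A / κ := by positivity
        gcongr
        exact h9.trans h8
      calc A * L = κ * L * (1 / 2 * (2 * A / κ)) := by field_simp
        _ ≤ _ := by gcongr
    have h11 : 0 ≤ L * (w.re + a) / 2 := by
      have : 0 ≤ w.re + a := by linarith
      positivity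
    refine le_trans ?_ hM
    calc _ ≤ Real.exp (A * L) * Real.exp (-(A * L)) := by
          gcongr
          linarith
      _ = 1 := by rw [← Real.exp_add, add_neg_cancel, Real.exp_zero]
  have hzi : |z.im| < Y0 := hzW.2
  have hzre : z.re ≤ a := by linarith
  have hmax : ‖q z‖ ≤ B ^ 2 * Real.exp (τ / 4 * L) := by
    refine rect_max (a := -a) (b := a) (c := -Y2) (d := Y2) (by linarith) (by linarith) ?_ ?_ ?_ ?_ ?_ h1.le hzre
      (by linarith [(abs_lt.1 hzi).1]) (by linarith [(abs_lt.1 hzi).2])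
    · intro w h2 h3 h4 h5
      rw [hq]
      have h6 := h.an w (hin w h2 h3 (abs_le.2 ⟨h4, h5⟩))
      have h7 : DifferentiableAt ℂ (fun w : ℂ => cexp (-((L : ℂ) * (w + (a : ℝ)) / 2 + ((κ * L : ℝ) : ℂ) * Complex.cos w))) w := by
        fun_prop
      exact h6.mul h7
    · intro w h2 h3 h4
      have h5 := hpos w h2.ge (by linarith)
      rw [hqn]
      have h6 := hbase w h2 (abs_le.2 ⟨h3, h4⟩)
      calc _ ≤ Real.exp (τ / 4 * L) * 1 := by
            gcongr
            rw [Real.exp_le_one_iff, h2]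
            rw [h2] at h5
            have : L * (-a + a) / 2 = 0 := by ring
            linarith
        _ ≤ _ := by
            rw [mul_one]
            have : 1 ≤ B ^ 2 := by nlinarith
            exact le_mul_of_one_le_left (Real.exp_pos _).le this
    · intro w h2 h3 h4
      have h5 := hpos w (by linarith) h2.le
      have h8 : |w.im| ≤ Y2 := abs_le.2 ⟨h3, h4⟩
      rw [hqn]
      have h6 := hrefl w (hin w (by linarith) h2.le h8)
      have h7 := hbase (-conj w) (by simp [h2]) (by simpa using h8)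
      rw [h2] at h6 h5 ⊢
      calc _ ≤ (B * Real.exp (L * a) * Real.exp (τ / 4 * L)) * Real.exp (-(L * a)) := by
            have h9 : ‖g w‖ ≤ B * Real.exp (L * a) * Real.exp (τ / 4 * L) := h6.trans (by gcongr)
            refine mul_le_mul h9 (Real.exp_le_exp.2 ?_) (Real.exp_pos _).le (by positivity)
            have : L * (a + a) / 2 = L * a := by ring
            linarith
        _ = B * Real.exp (τ / 4 * L) * (Real.exp (L * a) * Real.exp (-(L * a))) := by ring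
        _ = B * Real.exp (τ / 4 * L) := by rw [← Real.exp_add, add_neg_cancel, Real.exp_zero, mul_one]
        _ ≤ _ := by gcongr
    · intro w h2 h3 h4
      exact htop w (by rw [h2, abs_neg, abs_of_pos (by linarith)]) h3 h4
    · intro w h2 h3 h4
      exact htop w (by rw [h2, abs_of_pos (by linarith)]) h3 h4
  rw [hqn, Real.exp_neg, ← div_eq_mul_inv, div_le_iff₀ (Real.exp_pos _)] at hmax
  refine hmax.trans ?_
  calc B ^ 2 * Real.exp (τ / 4 * L) * Real.exp (L * (z.re + a) / 2 + κ * L * (Real.cos z.re * Real.cosh z.im))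
      ≤ Real.exp (τ / 4 * L) * Real.exp (τ / 4 * L) *
        Real.exp (L * (z.re + a) / 2 + κ * L * (Real.cos z.re * Real.cosh z.im)) := by gcongr
    _ = Real.exp (τ / 4 * L + τ / 4 * L + (L * (z.re + a) / 2 + κ * L * (Real.cos z.re * Real.cosh z.im))) := by
        rw [← Real.exp_add, ← Real.exp_add]
    _ ≤ _ := by
        apply Real.exp_le_exp.2
        have h2 : Real.cos z.re * Real.cosh z.im ≤ 1 * Real.cosh Y0 := by
          have h3 := Real.cos_le_one z.re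
          have h4 : Real.cosh z.im ≤ Real.cosh Y0 := by
            rw [Real.cosh_le_cosh, abs_of_nonneg hY0]
            exact hzi.le
          have h5 := Real.cosh_pos z.im
          have h6 := hcos z.re h1.le hzre
          gcongr
        have h3 : κ * L * (Real.cos z.re * Real.cosh z.im) ≤ τ / 4 * L := by
          calc _ ≤ κ * L * (1 * Real.cosh Y0) := by gcongr
            _ = τ / 4 * L := by rw [hκ]; field_simp
        have h4 : (z.re + δ) / 2 ≤ max 0 ((z.re + δ) / 2) := le_max_right _ _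
        have h5 : L * (z.re + a) / 2 ≤ L * (max 0 ((z.re + δ) / 2) + τ / 4) := by
          have h6 : (z.re + a) / 2 ≤ max 0 ((z.re + δ) / 2) + τ / 4 := by linarith
          calc L * (z.re + a) / 2 = L * ((z.re + a) / 2) := by ring
            _ ≤ _ := by gcongr
        nlinarith

end

end Pool.Agent.N831.SD
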