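import Pool.Agent.N831.SD.E

set_option autoImplicit false

/-!
# One step to the left
-/

namespace Pool.Agent.N831.SD

open Complex Filter Topology Set Metric
open scoped ComplexConjugate

noncomputable section

variable {X Y A B x1 L : ℝ} {g : ℂ → ℂ}

/-- growth to the left of the line `Re z = x2` -/
def Gr (X Y δ L τ x2 : ℝ) (F : ℂ → ℂ) : Prop :=
  ∀ z ∈ Wi X Y, z.re ≤ x2 → ‖F z‖ ≤ Real.exp (L * (τ + max 0 ((z.re + δ) / 2)))

lemma max_shift {a r : ℝ} (hr : 0 ≤ r) : max 0 (a + r) ≤ max 0 a + r := by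
  apply max_le
  · have := le_max_left 0 a
    linarith
  · have := le_max_right 0 a
    linarith

/-- Cauchy's estimate with the growth bound -/
lemma Gr.deriv {X Y δ L τ x2 r : ℝ} {F : ℂ → ℂ} (h : Gr X Y δ L τ x2 F) (hd : ∀ z ∈ Wi X Y, DifferentiableAt ℂ F z)
    (hr : 0 < r) (hL : 0 < L) {z : ℂ} (hz : z ∈ Wi (X - r) (Y - r)) (hx : z.re ≤ x2 - r) :
    ‖_root_.deriv F z‖ ≤ Real.exp (L * (τ + r / 2 + max 0 ((z.re + δ) / 2))) / r := by
  have hsub := ball_sub_Wi hz
  refine Complex.norm_deriv_le_of_forall_mem_sphere_norm_le hr ?_ ?_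
  · apply DifferentiableOn.diffContOnCl
    rw [closure_ball _ hr.ne']
    exact fun w hw => (hd w (hsub hw)).differentiableWithinAt
  · intro w hw
    have hw' := sphere_subset_closedBall hw
    rw [mem_sphere_iff_norm] at hw
    have h1 := (abs_le.1 ((Complex.abs_re_le_norm (w - z)).trans hw.le)).2
    rw [Complex.sub_re] at h1
    refine (h w (hsub hw') (by linarith)).trans (Real.exp_le_exp.2 ?_)
    apply mul_le_mul_of_nonneg_left _ hL.le
    have h2 : max 0 ((w.re + δ) / 2) ≤ max 0 ((z.re + δ) / 2 + r / 2) := max_le_max le_rfl (by linarith)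
    have h3 := max_shift (a := (z.re + δ) / 2) (r := r / 2) (by linarith)
    linarith

lemma Gr.step {X Y δ L τ x2 r : ℝ} {F : ℂ → ℂ} (h : Gr X Y δ L τ x2 F) (hd : ∀ z ∈ Wi X Y, DifferentiableAt ℂ F z)
    (hr : 0 < r) (hL : 2 / r ≤ L) : Gr (X - r) (Y - r) δ L (τ + r) (x2 - r) (fun z => F z - _root_.deriv F z / L) := by
  have hLp : 0 < L := lt_of_lt_of_le (by positivity) hL
  have hLr : 2 ≤ L * r := by rwa [div_le_iff₀ hr] at hL
  intro z hz hx
  have h1 := h z (Wi_mono (by linarith) (by linarith) hz) (by linarith)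
  have h2 := h.deriv hd hr hLp hz hx
  have h3 : ‖_root_.deriv F z / L‖ ≤ Real.exp (L * (τ + r / 2 + max 0 ((z.re + δ) / 2))) := by
    rw [norm_div, Complex.norm_real, Real.norm_of_nonneg hLp.le, div_le_iff₀ hLp]
    refine h2.trans ?_
    rw [div_le_iff₀ hr, mul_assoc]
    apply le_mul_of_one_le_right (Real.exp_pos _).le
    linarith
  have h4 : Real.exp (L * (τ + max 0 ((z.re + δ) / 2))) ≤ Real.exp (L * (τ + r / 2 + max 0 ((z.re + δ) / 2))) := by
    apply Real.exp_le_exp.2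
    apply mul_le_mul_of_nonneg_left _ hLp.le
    linarith
  calc ‖F z - _root_.deriv F z / L‖ ≤ ‖F z‖ + ‖_root_.deriv F z / L‖ := norm_sub_le _ _
    _ ≤ 2 * Real.exp (L * (τ + r / 2 + max 0 ((z.re + δ) / 2))) := by linarith
    _ ≤ Real.exp (L * r / 2) * Real.exp (L * (τ + r / 2 + max 0 ((z.re + δ) / 2))) := by
        gcongr
        have := Real.add_one_le_exp (L * r / 2)
        linarith
    _ = _ := by
        rw [← Real.exp_add]
        congr 1
        ring

lemma Gr.iter {X Y δ L τ x2 r : ℝ} (h : Gr X Y δ L τ x2 g) (hd : ∀ z ∈ Wi X Y, DifferentiableAt ℂ g z)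
    (hr : 0 < r) (hL : 2 / r ≤ L) (n : ℕ) : Gr (X - n * r) (Y - n * r) δ L (τ + n * r) (x2 - n * r) (GG L g n) := by
  induction n with
  | zero => simpa [GG] using h
  | succ n ih =>
    have hn : 0 ≤ n * r := by positivity
    have h1 := ih.step (fun z hz => (GG_an (isOpen_Wi X Y) (fun z hz => (hd z hz).differentiableWithinAt) L n z
      (Wi_mono (by linarith) (by linarith) hz)).differentiableAt) hr hL
    have e1 : ∀ x : ℝ, x - n * r - r = x - ((n + 1 : ℕ) : ℝ) * r := fun x => by push_cast; ring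
    have e2 : τ + n * r + r = τ + ((n + 1 : ℕ) : ℝ) * r := by push_cast; ring
    rw [e1, e1, e1, e2] at h1
    exact h1

/-- one step to the left -/
theorem down {A x0 e : ℝ} (hA : 0 < A) (hx0 : 2 ≤ x0) (he : 0 < e) (he1 : e ≤ 1) : ∀ B : ℝ, 1 ≤ B → ∃ L0 : ℝ, 1 ≤ L0 ∧
    ∀ L : ℝ, L0 ≤ L → ∀ (F : ℂ → ℂ) (δ : ℝ), 0 ≤ δ → δ ≤ 1 / 2 →
    (∀ z ∈ ball (-(x0 : ℂ)) (x0 - δ + e), AnalyticAt ℂ F z) →
    (∀ z ∈ ball (-(x0 : ℂ)) (x0 - δ + e), F z - deriv F z / L ≠ 0) →
    (∀ z ∈ ball (-(x0 : ℂ)) (x0 - δ + e), ‖F z - deriv F z / L‖ ≤ Real.exp (A * L)) →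
    (∀ z ∈ ball (-(x0 : ℂ)) (1 / 2), B⁻¹ ≤ ‖F z - deriv F z / L‖ ∧ ‖F z - deriv F z / L‖ ≤ B) →
    (∀ z ∈ ball (-(x0 : ℂ)) (x0 - δ + e), ‖F z‖ ≤ Real.exp (L * (e / 32 + max 0 ((z.re + δ) / 2)))) →
    ∀ z ∈ ball (-(x0 : ℂ)) (x0 - δ + e / 4), F z ≠ 0 := by
  intro B hB
  have hBp : 0 < B := by linarith
  obtain ⟨θ, hθ⟩ : ∃ θ : ℝ, θ = min (e / (192 * (x0 + 1))) (1 / 12) := ⟨_, rfl⟩
  have hθp : 0 < θ := by rw [hθ]; exact lt_min (by positivity) (by norm_num)
  have hθ1 : θ ≤ e / (192 * (x0 + 1)) := by rw [hθ]; exact min_le_left _ _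
  have hθ2 : θ ≤ 1 / 12 := by rw [hθ]; exact min_le_right _ _
  obtain ⟨L0, hL0, ht⟩ := tame (A := A) (B := B) (ρ0 := 1 / 2) (η := e / 8) (Rm := x0 + 1) (θ := θ) hA hB
    (by norm_num) (by positivity) (by linarith) hθp
  have hlog : 0 ≤ Real.log (B * (32 / e)) := Real.log_nonneg (by
    have : 1 ≤ 32 / e := by rw [le_div_iff₀ he]; linarith
    nlinarith)
  refine ⟨max L0 (64 * Real.log (B * (32 / e)) / e), hL0.trans (le_max_left _ _), ?_⟩
  intro L hL F δ hδ hδ1 han hne hup hmid hgr z hz hFz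
  have hL1 : L0 ≤ L := (le_max_left _ _).trans hL
  have hL1' : 1 ≤ L := hL0.trans hL1
  have hLp : 0 < L := by linarith
  have hL2 : Real.log (B * (32 / e)) ≤ e * L / 64 := by
    have h1 := (le_max_right _ _).trans hL
    rw [div_le_iff₀ he] at h1
    linarith
  obtain ⟨N, hN⟩ : ∃ N : ℂ → ℂ, N = fun z => F z - deriv F z / L := ⟨_, rfl⟩
  have hNan : ∀ w ∈ ball (-(x0 : ℂ)) (x0 - δ + e), AnalyticAt ℂ N w := by
    intro w hw
    rw [hN]
    exact (han w hw).sub ((han w hw).deriv.div_const)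
  have hNne : ∀ w ∈ ball (-(x0 : ℂ)) (x0 - δ + e), N w ≠ 0 := by rw [hN]; exact hne
  have hlogN := ht L hL1 (-(x0 : ℂ)) (x0 - δ + e) N (by linarith) (by linarith) (by linarith)
    (fun w hw => (hNan w hw).differentiableAt.differentiableWithinAt) hNne (by rw [hN]; exact hup) (by rw [hN]; exact hmid)
  have hsub : closedBall (-(x0 : ℂ)) (x0 - δ + e - e / 8) ⊆ ball (-(x0 : ℂ)) (x0 - δ + e) :=
    closedBall_subset_ball (by linarith)
  have hz' : ‖z - -(x0 : ℂ)‖ < x0 - δ + e / 4 := by rwa [← mem_ball_iff_norm]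
  have hz1 : z ∈ closedBall (-(x0 : ℂ)) (x0 - δ + e - e / 8) := by
    rw [mem_closedBall_iff_norm]; linarith
  have hc1 : (-(x0 : ℂ)) ∈ closedBall (-(x0 : ℂ)) (x0 - δ + e - e / 8) := mem_closedBall_self (by linarith)
  have hseg : ∀ u : ℝ, 0 ≤ u → u ≤ e / 2 → z + u ∈ closedBall (-(x0 : ℂ)) (x0 - δ + e - e / 8) := by
    intro u hu hu1
    rw [mem_closedBall_iff_norm]
    have e1 : z + u - -(x0 : ℂ) = (z - -(x0 : ℂ)) + u := by ring
    rw [e1]
    refine (norm_add_le _ _).trans ?_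
    rw [Complex.norm_real, Real.norm_of_nonneg hu]
    linarith
  have hsize : ∀ {a b : ℂ}, a ∈ closedBall (-(x0 : ℂ)) (x0 - δ + e - e / 8) →
      b ∈ closedBall (-(x0 : ℂ)) (x0 - δ + e - e / 8) → ‖N b‖ ≤ ‖N a‖ * Real.exp (3 * (θ * L) * ‖b - a‖) :=
    fun ha hb => size (by linarith) (by positivity) (fun w hw => (hNan w (hsub hw)).differentiableAt)
      (fun w hw => hNne w (hsub hw)) hlogN ha hb
  -- the lower bound for `N z`
  have hNz : (Real.exp (e * L / 64))⁻¹ * B⁻¹ ≤ ‖N z‖ := by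
    have h1 := hsize hz1 hc1
    have h2 : B⁻¹ ≤ ‖N (-(x0 : ℂ))‖ := by
      have := (hmid _ (mem_ball_self (by norm_num))).1
      rw [hN]
      exact this
    have h3 : 3 * (θ * L) * ‖-(x0 : ℂ) - z‖ ≤ e * L / 64 := by
      have h4 : ‖-(x0 : ℂ) - z‖ ≤ x0 + 1 := by
        rw [norm_sub_rev]
        linarith
      calc 3 * (θ * L) * ‖-(x0 : ℂ) - z‖ ≤ 3 * (e / (192 * (x0 + 1)) * L) * (x0 + 1) := by gcongr
        _ = e * L / 64 := by field_simp; norm_num
    rw [inv_mul_le_iff₀ (Real.exp_pos _), mul_comm]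
    exact h2.trans (h1.trans (by gcongr))
  have hLc : (L : ℂ) ≠ 0 := by exact_mod_cast hLp.ne'
  -- the auxiliary function
  obtain ⟨φ, hφ⟩ : ∃ φ : ℝ → ℂ, φ = fun u : ℝ => cexp (-(L * (z + (u : ℂ)))) * (F (z + (u : ℂ)) - N (z + (u : ℂ))) := ⟨_, rfl⟩
  have hφd : ∀ u : ℝ, 0 ≤ u → u ≤ e / 2 → HasDerivAt φ (-(cexp (-(L * (z + u))) * deriv N (z + u))) u := by
    intro u hu hu1
    have hw := hsub (hseg u hu hu1)
    have h1 : HasDerivAt (fun u : ℝ => z + (u : ℂ)) 1 u := by
      have := (Complex.ofRealCLM.hasDerivAt (x := u)).const_add z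
      simpa using this
    have h2 : HasDerivAt (fun u : ℝ => F (z + u)) (deriv F (z + u) * 1) u :=
      HasDerivAt.comp_of_eq (x := u) (h₂ := F) (h := fun u : ℝ => z + (u : ℂ)) (y := z + u)
        (han _ hw).differentiableAt.hasDerivAt h1 rfl
    have h3 : HasDerivAt (fun u : ℝ => N (z + u)) (deriv N (z + u) * 1) u :=
      HasDerivAt.comp_of_eq (x := u) (h₂ := N) (h := fun u : ℝ => z + (u : ℂ)) (y := z + u)
        (hNan _ hw).differentiableAt.hasDerivAt h1 rfl
    have h4 : HasDerivAt (fun u : ℝ => -((L : ℂ) * (z + u))) (-(L * 1)) u := (h1.const_mul (L : ℂ)).neg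
    have h5 : HasDerivAt φ (cexp (-(L * (z + u))) * (-(L * 1)) * (F (z + u) - N (z + u)) +
        cexp (-(L * (z + u))) * (deriv F (z + u) * 1 - deriv N (z + u) * 1)) u := by
      rw [hφ]
      exact h4.cexp.mul (h2.sub h3)
    refine h5.congr_deriv ?_
    have h6 : F (z + u) - N (z + u) = deriv F (z + u) / L := by rw [hN]; ring
    rw [h6]
    field_simp
    ring
  have hφ0 : φ 0 = -(cexp (-(L * z)) * N z) := by
    rw [hφ]
    simp only [Complex.ofReal_zero, add_zero, hFz]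
    ring
  have hexpn : ∀ w : ℂ, ‖cexp (-(L * w))‖ = Real.exp (-(L * w.re)) := by
    intro w
    rw [Complex.norm_exp, Complex.neg_re, Complex.re_ofReal_mul]
  have h3θ : 0 < 1 - 3 * θ := by linarith
  obtain ⟨K, hK⟩ : ∃ K : ℝ, K = θ / (1 - 3 * θ) * ‖N z‖ * Real.exp (-(L * z.re)) := ⟨_, rfl⟩
  have hmv := image_norm_le_of_norm_deriv_right_le_deriv_boundary (f := fun u => φ u - φ 0)
    (f' := fun u => -(cexp (-(L * (z + u))) * deriv N (z + u))) (a := 0) (b := e / 2)
    (B := fun u => K * (1 - Real.exp (-((1 - 3 * θ) * L * u))))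
    (B' := fun u => K * ((1 - 3 * θ) * L * Real.exp (-((1 - 3 * θ) * L * u))))
    (fun u hu => ((hφd u hu.1 hu.2).continuousAt.sub continuousAt_const).continuousWithinAt)
    (fun u hu => ((hφd u hu.1 hu.2.le).sub_const _).hasDerivWithinAt) (by simp)
    (fun u => by
      have h1 : HasDerivAt (fun u : ℝ => -((1 - 3 * θ) * L * u)) (-((1 - 3 * θ) * L * 1)) u :=
        ((hasDerivAt_id u).const_mul _).neg
      refine ((h1.exp.const_sub 1).const_mul K).congr_deriv ?_
      ring)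
    (fun u hu => by
      have h1 := hseg u hu.1 hu.2.le
      have h2 := hlogN _ h1
      rw [logDeriv_apply, norm_div, div_le_iff₀ (norm_pos_iff.2 (hNne _ (hsub h1)))] at h2
      have h3 := hsize hz1 h1
      have e1 : z + (u : ℂ) - z = u := by ring
      rw [e1, Complex.norm_real, Real.norm_of_nonneg hu.1] at h3
      rw [norm_neg, norm_mul, hexpn, Complex.add_re, Complex.ofReal_re, hK]
      have h4 : θ / (1 - 3 * θ) * ‖N z‖ * Real.exp (-(L * z.re)) *
          ((1 - 3 * θ) * L * Real.exp (-((1 - 3 * θ) * L * u))) =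
          Real.exp (-(L * (z.re + u))) * (θ * L * (‖N z‖ * Real.exp (3 * (θ * L) * u))) := by
        have e2 : Real.exp (-((1 - 3 * θ) * L * u)) = Real.exp (-(L * u)) * Real.exp (3 * (θ * L) * u) := by
          rw [← Real.exp_add]; congr 1; ring
        have e3 : Real.exp (-(L * (z.re + u))) = Real.exp (-(L * z.re)) * Real.exp (-(L * u)) := by
          rw [← Real.exp_add]; congr 1; ring
        have e4 : θ / (1 - 3 * θ) * (1 - 3 * θ) = θ := div_mul_cancel₀ _ h3θ.ne'
        rw [e2, e3]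
        calc _ = (θ / (1 - 3 * θ) * (1 - 3 * θ)) * (L * ‖N z‖ * Real.exp (-(L * z.re)) * Real.exp (-(L * u)) *
              Real.exp (3 * (θ * L) * u)) := by ring
          _ = _ := by rw [e4]; ring
      rw [h4]
      gcongr
      exact h2.trans (by gcongr))
  have hend := hmv (right_mem_Icc.2 (show (0 : ℝ) ≤ e / 2 by positivity))
  have hKn : 0 ≤ K := by rw [hK]; positivity
  have hK2 : K ≤ ‖N z‖ * Real.exp (-(L * z.re)) / 2 := by
    rw [hK]
    have h1 : θ / (1 - 3 * θ) ≤ 1 / 2 := by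
      rw [div_le_iff₀ h3θ]
      linarith
    calc θ / (1 - 3 * θ) * ‖N z‖ * Real.exp (-(L * z.re)) ≤ 1 / 2 * ‖N z‖ * Real.exp (-(L * z.re)) := by gcongr
      _ = _ := by ring
  have h1 : ‖N z‖ * Real.exp (-(L * z.re)) / 2 ≤ ‖φ (e / 2)‖ := by
    have h2 : K * (1 - Real.exp (-((1 - 3 * θ) * L * (e / 2)))) ≤ K := by
      have := Real.exp_pos (-((1 - 3 * θ) * L * (e / 2)))
      nlinarith
    have h3 : ‖φ 0‖ = ‖N z‖ * Real.exp (-(L * z.re)) := by
      rw [hφ0, norm_neg, norm_mul, hexpn, mul_comm]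
    have h4 := norm_sub_norm_le (φ 0) (φ (e / 2))
    rw [norm_sub_rev] at h4
    linarith
  -- the upper bound at the right end
  have hzb : z.re + δ ≤ e / 4 := by
    have h2 := (Complex.abs_re_le_norm (z - -(x0 : ℂ))).trans hz'.le
    have h3 := (abs_le.1 h2).2
    simp only [Complex.sub_re, Complex.neg_re, Complex.ofReal_re] at h3
    linarith
  have hcau : ‖deriv F (z + (e / 2 : ℝ))‖ ≤ Real.exp (L * (14 * e / 32)) / (e / 16) := by
    have hs : closedBall (z + (e / 2 : ℝ)) (e / 16) ⊆ ball (-(x0 : ℂ)) (x0 - δ + e) := by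
      intro w hw
      rw [mem_closedBall_iff_norm] at hw
      rw [mem_ball_iff_norm]
      have e1 : w - -(x0 : ℂ) = (w - (z + (e / 2 : ℝ))) + (z - -(x0 : ℂ)) + (e / 2 : ℝ) := by ring
      rw [e1]
      refine (norm_add_le _ _).trans_lt ?_
      have h2 := norm_add_le (w - (z + (e / 2 : ℝ))) (z - -(x0 : ℂ))
      rw [Complex.norm_real, Real.norm_of_nonneg (show (0 : ℝ) ≤ e / 2 by positivity)]
      linarith
    refine Complex.norm_deriv_le_of_forall_mem_sphere_norm_le (by positivity) ?_ ?_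
    · apply DifferentiableOn.diffContOnCl
      rw [closure_ball _ (by positivity)]
      exact fun w hw => (han w (hs hw)).differentiableAt.differentiableWithinAt
    · intro w hw
      have hw' := sphere_subset_closedBall hw
      rw [mem_sphere_iff_norm] at hw
      have h2 := (abs_le.1 ((Complex.abs_re_le_norm (w - (z + (e / 2 : ℝ)))).trans hw.le)).2
      simp only [Complex.sub_re, Complex.add_re, Complex.ofReal_re] at h2
      refine (hgr w (hs hw')).trans (Real.exp_le_exp.2 ?_)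
      apply mul_le_mul_of_nonneg_left _ hLp.le
      have h3 : max 0 ((w.re + δ) / 2) ≤ 13 * e / 32 := max_le (by positivity) (by linarith)
      linarith
  have hφe : ‖φ (e / 2)‖ ≤ Real.exp (-(L * (z.re + e / 2))) * (Real.exp (L * (14 * e / 32)) * (16 / e)) := by
    have h2 : φ (e / 2) = cexp (-(L * (z + (e / 2 : ℝ)))) * (deriv F (z + (e / 2 : ℝ)) / L) := by
      rw [hφ, hN]
      simp only
      ring_nf
    rw [h2, norm_mul, hexpn, Complex.add_re, Complex.ofReal_re, norm_div, Complex.norm_real, Real.norm_of_nonneg hLp.le]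
    gcongr
    refine (div_le_self (norm_nonneg _) hL1').trans (hcau.trans (le_of_eq ?_))
    field_simp
  have h2 := h1.trans hφe
  have h3 : ‖N z‖ ≤ 32 / e * Real.exp (-(e * L / 16)) := by
    have h4 : ‖N z‖ * Real.exp (-(L * z.re)) ≤ 32 / e * Real.exp (-(e * L / 16)) * Real.exp (-(L * z.re)) := by
      have e1 : Real.exp (-(L * (z.re + e / 2))) * (Real.exp (L * (14 * e / 32)) * (16 / e)) =
          16 / e * Real.exp (-(e * L / 16)) * Real.exp (-(L * z.re)) := by
        have e2 : Real.exp (-(L * (z.re + e / 2))) * Real.exp (L * (14 * e / 32)) =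
            Real.exp (-(e * L / 16)) * Real.exp (-(L * z.re)) := by
          rw [← Real.exp_add, ← Real.exp_add]; congr 1; ring
        calc _ = 16 / e * (Real.exp (-(L * (z.re + e / 2))) * Real.exp (L * (14 * e / 32))) := by ring
          _ = _ := by rw [e2]; ring
      rw [e1] at h2
      have e3 : 32 / e = 2 * (16 / e) := by ring
      rw [e3]
      linarith
    exact le_of_mul_le_mul_right h4 (Real.exp_pos _)
  have h5 := hNz.trans h3
  have h6 : Real.exp (3 * (e * L / 64)) ≤ B * (32 / e) := by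
    rw [inv_mul_le_iff₀ (Real.exp_pos _), inv_le_iff_one_le_mul₀ hBp] at h5
    have e1 : Real.exp (e * L / 64) * (32 / e * Real.exp (-(e * L / 16))) * B =
        B * (32 / e) * Real.exp (-(3 * (e * L / 64))) := by
      have e2 : Real.exp (e * L / 64) * Real.exp (-(e * L / 16)) = Real.exp (-(3 * (e * L / 64))) := by
        rw [← Real.exp_add]; congr 1; ring
      rw [← e2]
      ring
    rw [e1, Real.exp_neg, ← div_eq_mul_inv, le_div_iff₀ (Real.exp_pos _), one_mul] at h5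
    exact h5
  have h7 : B * (32 / e) ≤ Real.exp (e * L / 64) := by
    rw [← Real.exp_log (show 0 < B * (32 / e) by positivity)]
    exact Real.exp_le_exp.2 hL2
  have h8 := Real.exp_le_exp.1 (h6.trans h7)
  have h9 : 0 < e * L / 64 := by positivity
  linarith

end

end Pool.Agent.N831.SD
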