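import Pool.Agent.N831.SD.F

set_option autoImplicit false

/-!
# A zero far from the line gives zeros of all derivatives
-/

namespace Pool.Agent.N831.SD

open Complex Filter Topology Set Metric
open scoped ComplexConjugate

noncomputable section

theorem bloc {x1 A X ε : ℝ} (k : ℕ) (hA : 0 < A) (hx1 : 1 ≤ x1) (hX : 2 * (x1 + k + 2) + 2 + k ≤ X) (hε : 0 < ε)
    (hε1 : ε ≤ 1 / 2) : ∃ η Y1 : ℝ, 0 < η ∧ 0 < Y1 ∧ ∀ B : ℝ, 1 ≤ B → ∃ L0 : ℝ, 1 ≤ L0 ∧ ∀ L : ℝ, L0 ≤ L →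
    ∀ (Y : ℝ) (g : ℂ → ℂ), Y1 ≤ Y → Loc X Y A B x1 L g → Refl X Y B L g → ∀ δ : ℝ, ε ≤ δ → δ ≤ 1 / 2 →
    (∀ z ∈ Wi X Y, z.re < -δ - η → g z ≠ 0) → g (-(δ : ℂ)) = 0 →
    ∃ z ∈ ball (-((x1 + k + 2 : ℝ) : ℂ)) (x1 + k + 2 - δ + ε), GG L g k z = 0 := by
  obtain ⟨x0, hx0⟩ : ∃ x0 : ℝ, x0 = x1 + k + 2 := ⟨_, rfl⟩
  rw [← hx0]
  have hk0 : (0 : ℝ) ≤ k := Nat.cast_nonneg k
  have h4k : (1 : ℝ) ≤ 4 ^ k := one_le_pow₀ (by norm_num)
  obtain ⟨τ, hτ⟩ : ∃ τ : ℝ, τ = ε / (64 * 4 ^ k) := ⟨_, rfl⟩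
  have hτp : 0 < τ := by rw [hτ]; positivity
  have hτε : τ ≤ ε := by
    rw [hτ]
    apply div_le_self hε.le
    nlinarith
  obtain ⟨r, hr⟩ : ∃ r : ℝ, r = τ / (k + 1) := ⟨_, rfl⟩
  have hrp : 0 < r := by rw [hr]; positivity
  have hkr : ∀ n : ℕ, n ≤ k → n * r ≤ τ := by
    intro n hn
    have h1 : (n : ℝ) ≤ k + 1 := by
      have : (n : ℝ) ≤ k := by exact_mod_cast hn
      linarith
    calc n * r ≤ (k + 1) * r := by gcongr
      _ = τ := by rw [hr]; field_simp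
  obtain ⟨η, Y1, hη, -, -, hY01, hgrow⟩ := growth (x1 := x1) (A := A) (X := X) (τ := τ) (Y0 := x0 + 3) hA hx1
    (by linarith) hτp (by linarith)
  refine ⟨η, Y1 + k, hη, by linarith, fun B hB => ?_⟩
  have hBp : 0 < B := by linarith
  have hB' : 1 ≤ 4 ^ k * B := by nlinarith
  obtain ⟨Lg, hLg, hgr⟩ := hgrow B hB
  have hdown : ∀ i : ℕ, ∃ L0 : ℝ, 1 ≤ L0 ∧ ∀ L : ℝ, L0 ≤ L → ∀ (F : ℂ → ℂ) (δ : ℝ), 0 ≤ δ → δ ≤ 1 / 2 →
    (∀ z ∈ ball (-(x0 : ℂ)) (x0 - δ + ε / 4 ^ i), AnalyticAt ℂ F z) →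
    (∀ z ∈ ball (-(x0 : ℂ)) (x0 - δ + ε / 4 ^ i), F z - deriv F z / L ≠ 0) →
    (∀ z ∈ ball (-(x0 : ℂ)) (x0 - δ + ε / 4 ^ i), ‖F z - deriv F z / L‖ ≤ Real.exp ((A + k) * L)) →
    (∀ z ∈ ball (-(x0 : ℂ)) (1 / 2), (4 ^ k * B)⁻¹ ≤ ‖F z - deriv F z / L‖ ∧ ‖F z - deriv F z / L‖ ≤ 4 ^ k * B) →
    (∀ z ∈ ball (-(x0 : ℂ)) (x0 - δ + ε / 4 ^ i), ‖F z‖ ≤ Real.exp (L * (ε / 4 ^ i / 32 + max 0 ((z.re + δ) / 2)))) →
    ∀ z ∈ ball (-(x0 : ℂ)) (x0 - δ + ε / 4 ^ i / 4), F z ≠ 0 := by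
    intro i
    have h4i : (1 : ℝ) ≤ 4 ^ i := one_le_pow₀ (by norm_num)
    have he1 : ε / 4 ^ i ≤ ε := div_le_self hε.le h4i
    exact down (A := A + k) (x0 := x0) (e := ε / 4 ^ i) (by positivity) (by linarith) (by positivity) (by linarith)
      (4 ^ k * B) hB'
  choose Ld hLd1 hLd using hdown
  have hsum : 0 ≤ ∑ i ∈ Finset.range k, Ld i := Finset.sum_nonneg fun i _ => by linarith [hLd1 i]
  refine ⟨Lg + ∑ i ∈ Finset.range k, Ld i + 2 * (4 ^ k * B) ^ 2 + 2 / r, by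
    have : 0 ≤ 2 / r := by positivity
    have : 0 ≤ 2 * (4 ^ k * B) ^ 2 := by positivity
    linarith, ?_⟩
  intro L hL Y g hY h hrefl δ hδε hδ hz hgδ
  by_contra hcon
  push Not at hcon
  have h2r : 0 ≤ 2 / r := by positivity
  have hBB : 0 ≤ 2 * (4 ^ k * B) ^ 2 := by positivity
  have hL1 : Lg ≤ L := by linarith
  have hL2 : 2 * (4 ^ k * B) ^ 2 ≤ L := by linarith
  have hL3 : 2 / r ≤ L := by linarith
  have hLp : 0 < L := by linarith
  have hL4 : ∀ i ∈ Finset.range k, Ld i ≤ L := by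
    intro i hi
    have := Finset.single_le_sum (f := Ld) (fun j _ => by linarith [hLd1 j]) hi
    linarith
  have hYY : x0 + 3 ≤ Y := by linarith
  have hGr : Gr X (x0 + 3) δ L τ δ g := fun z hzW hzr =>
    hgr L hL1 Y g (by linarith) h hrefl δ (by linarith) hδ hz z hzW hzr
  have hdg : ∀ z ∈ Wi X (x0 + 3), DifferentiableAt ℂ g z := fun z hzW => h.an z (Wi_mono le_rfl hYY hzW)
  -- the ball
  have hball : ∀ e : ℝ, e ≤ ε → ∀ z ∈ ball (-(x0 : ℂ)) (x0 - δ + e), |z.re| < 2 * x0 + 1 ∧ |z.im| < x0 + 1 ∧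
      z.re < -δ + e := by
    intro e he z hz
    rw [mem_ball_iff_norm] at hz
    have h1 := abs_lt.1 ((Complex.abs_re_le_norm (z - -(x0 : ℂ))).trans_lt hz)
    have h2 := abs_lt.1 ((Complex.abs_im_le_norm (z - -(x0 : ℂ))).trans_lt hz)
    simp only [Complex.sub_re, Complex.neg_re, Complex.ofReal_re] at h1
    simp only [Complex.sub_im, Complex.neg_im, Complex.ofReal_im] at h2
    exact ⟨abs_lt.2 ⟨by linarith, by linarith⟩, abs_lt.2 ⟨by linarith, by linarith⟩, by linarith⟩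
  have key : ∀ i : ℕ, i ≤ k → ∀ z ∈ ball (-(x0 : ℂ)) (x0 - δ + ε / 4 ^ i), GG L g (k - i) z ≠ 0 := by
    intro i
    induction i with
    | zero =>
      intro _ z hz
      rw [pow_zero, div_one] at hz
      exact hcon z hz
    | succ i ih =>
      intro hi
      have hi' : i ≤ k := by omega
      have ih' := ih hi'
      obtain ⟨j, hj⟩ : ∃ j : ℕ, j = k - (i + 1) := ⟨_, rfl⟩
      have hj1 : k - i = j + 1 := by omega
      have hjk : j + 1 ≤ k := by omega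
      rw [hj1] at ih'
      rw [← hj]
      have h4i : (1 : ℝ) ≤ 4 ^ i := one_le_pow₀ (by norm_num)
      have hei : ε / 4 ^ i ≤ ε := div_le_self hε.le h4i
      have hei0 : 0 < ε / 4 ^ i := by positivity
      have hjc : ((j + 1 : ℕ) : ℝ) ≤ k := by exact_mod_cast hjk
      have hjc' : (j : ℝ) + 1 ≤ k := by exact_mod_cast hjk
      have h4j : (4 : ℝ) ^ (j + 1) * B ≤ 4 ^ k * B := by
        have : (4 : ℝ) ^ (j + 1) ≤ 4 ^ k := pow_le_pow_right₀ (by norm_num) hjk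
        gcongr
      have hloc := h.iter hB (j + 1) (le_trans (by gcongr) hL2)
      have hbl := hball (ε / 4 ^ i) hei
      have hWi : ∀ z : ℂ, |z.re| < 2 * x0 + 1 → |z.im| < x0 + 1 →
          z ∈ Wi (X - ((j + 1 : ℕ) : ℝ)) (Y - ((j + 1 : ℕ) : ℝ)) := by
        intro z h1 h2
        exact ⟨by linarith, by linarith⟩
      have hd := hLd i L (hL4 i (Finset.mem_range.2 (by omega))) (GG L g j) δ (by linarith) hδ
        (fun z hz => GG_an (isOpen_Wi X Y) h.diffOn L j z (Wi_mono (by linarith) (by linarith)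
          (hWi z (hbl z hz).1 (hbl z hz).2.1)))
        (fun z hz => ih' z hz)
        (fun z hz => by
          have h1 := hloc.up z (hWi z (hbl z hz).1 (hbl z hz).2.1)
          refine h1.trans (Real.exp_le_exp.2 ?_)
          gcongr)
        (fun z hz => by
          have hz' : z ∈ ball (-(x0 : ℂ)) (x0 - δ + ε / 4 ^ i) := ball_subset_ball (by linarith) hz
          rw [mem_ball_iff_norm] at hz
          have h3 := abs_lt.1 ((Complex.abs_re_le_norm (z - -(x0 : ℂ))).trans_lt hz)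
          simp only [Complex.sub_re, Complex.neg_re, Complex.ofReal_re] at h3
          have h1 := hloc.far z (hWi z (hbl z hz').1 (hbl z hz').2.1) (by linarith)
          refine ⟨le_trans ?_ h1.1, h1.2.trans h4j⟩
          gcongr)
        (fun z hz => by
          have hjr := hkr j (by omega)
          have h1 := (hGr.iter hdg hrp hL3 j) z ⟨by linarith [(hbl z hz).1], by linarith [(hbl z hz).2.1]⟩
            (by linarith [(hbl z hz).2.2])
          refine h1.trans (Real.exp_le_exp.2 ?_)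
          apply mul_le_mul_of_nonneg_left _ hLp.le
          have h2 : 2 * τ ≤ ε / 4 ^ i / 32 := by
            have h3 : (4 : ℝ) ^ i ≤ 4 ^ k := pow_le_pow_right₀ (by norm_num) hi'
            have h4 : ε / 4 ^ k ≤ ε / 4 ^ i := by gcongr
            have h5 : 2 * τ = ε / 4 ^ k / 32 := by rw [hτ]; field_simp; norm_num
            rw [h5]
            linarith
          linarith)
      intro z hz
      apply hd
      have e1 : ε / 4 ^ (i + 1) = ε / 4 ^ i / 4 := by rw [pow_succ]; field_simp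
      rwa [e1] at hz
  have h1 := key k le_rfl (-(δ : ℂ)) (by
    rw [mem_ball_iff_norm]
    have e1 : -(δ : ℂ) - -(x0 : ℂ) = ((x0 - δ : ℝ) : ℂ) := by push_cast; ring
    rw [e1, Complex.norm_real, Real.norm_of_nonneg (by linarith)]
    have : 0 < ε / 4 ^ k := by positivity
    linarith)
  rw [Nat.sub_self] at h1
  exact h1 hgδ

end

end Pool.Agent.N831.SD
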