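import Pool.Agent.N831.SD.D
import Pool.Agent.N831.SD.G
import Pool.Agent.N831.SX.C

set_option autoImplicit false

/-!
# L-functions on windows
-/

namespace Pool.Agent.N831.SD

open Complex Filter Topology Set Metric
open scoped ComplexConjugate

noncomputable section

/-- A function with a functional equation, of polynomial size, bounded above and below on the right. -/
structure FE (κ : ℝ) (H X Z : ℂ → ℂ) : Prop where
  κ_pos : 0 < κ
  symm : ∀ z : ℂ, X (-(conj z)) = conj (X z)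
  eq : ∀ w : ℂ, 0 < w.im → X w = H w * Z (1 / 2 + w)
  dZ : ∀ s : ℂ, 0 < s.im → DifferentiableAt ℂ Z s
  gam : ∀ R : ℝ, 1 ≤ R → ∃ K T0 : ℝ, 0 < K ∧ 2 ≤ T0 ∧ ∀ (t : ℝ) (u : ℂ), T0 ≤ t → ‖u‖ ≤ R →
    H (I * t + u) ≠ 0 ∧
    Real.exp (κ * Real.log t * u.re - K) * ‖H (I * t)‖ ≤ ‖H (I * t + u)‖ ∧
    ‖H (I * t + u)‖ ≤ Real.exp (κ * Real.log t * u.re + K) * ‖H (I * t)‖
  gro : ∀ R : ℝ, 1 ≤ R → ∃ K T0 : ℝ, 0 < K ∧ 2 ≤ T0 ∧ ∀ (t : ℝ) (u : ℂ), T0 ≤ t → ‖u‖ ≤ R →
    ‖Z (1 / 2 + (I * t + u))‖ ≤ t ^ K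
  bd : ∃ c C A : ℝ, 0 < c ∧ 0 < C ∧ 1 ≤ A ∧ ∀ s : ℂ, A ≤ s.re → c ≤ ‖Z s‖ ∧ ‖Z s‖ ≤ C

theorem FE.of_sd {κ B : ℝ} {H X Z : ℂ → ℂ} (h : SX.SD κ B H X Z) {C A : ℝ} (hb : ∀ s : ℂ, A ≤ s.re → ‖Z s‖ ≤ C) :
    FE κ H X Z where
  κ_pos := h.κ_pos
  symm := h.sy.symm
  eq := h.eq
  dZ := h.dZ
  gam := fun R hR => by
    obtain ⟨K, T0, hK, hT0, h1⟩ := h.gam R hR
    exact ⟨K, T0, hK, hT0, fun t u ht hu => ⟨(h1 t u ht hu).2.1, (h1 t u ht hu).2.2.2⟩⟩
  gro := h.gro
  bd := by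
    obtain ⟨c, A', hc, hA', h1⟩ := h.rgt
    exact ⟨c, |C| + 1, max A' A, hc, by positivity, hA'.trans (le_max_left _ _), fun s hs =>
      ⟨h1 s ((le_max_left _ _).trans hs), (hb s ((le_max_right _ _).trans hs)).trans
        ((le_abs_self C).trans (by linarith))⟩⟩

/-- the function in the window of height `t` -/
def gt (κ : ℝ) (Z : ℂ → ℂ) (t : ℝ) : ℂ → ℂ := fun z => cexp ((2 * κ * Real.log t : ℝ) * z) * Z (1 / 2 + (I * t + z))

variable {κ : ℝ} {H X Z : ℂ → ℂ}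

lemma gt_norm (t : ℝ) (z : ℂ) : ‖gt κ Z t z‖ = Real.exp (2 * κ * Real.log t * z.re) * ‖Z (1 / 2 + (I * t + z))‖ := by
  unfold gt
  rw [norm_mul, Complex.norm_exp, Complex.re_ofReal_mul]

theorem FE.loc (h : FE κ H X Z) : ∃ x1 : ℝ, 1 ≤ x1 ∧ ∀ Xw : ℝ, 0 < Xw → ∃ A : ℝ, 0 < A ∧ ∀ Yw : ℝ, 0 < Yw →
    ∃ B T0 : ℝ, 1 ≤ B ∧ 2 ≤ T0 ∧ Yw < T0 ∧ ∀ t : ℝ, T0 ≤ t →
      Loc Xw Yw A B x1 (2 * κ * Real.log t) (gt κ Z t) ∧ Refl Xw Yw B (2 * κ * Real.log t) (gt κ Z t) := by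
  have hκ := h.κ_pos
  obtain ⟨c, C, A1, hc, hC, hA1, hbd⟩ := h.bd
  refine ⟨A1, hA1, fun Xw hXw => ?_⟩
  obtain ⟨K, T1, hK, hT1, hgro⟩ := h.gro (Xw + 1) (by linarith)
  refine ⟨Xw + K / κ, by positivity, fun Yw hYw => ?_⟩
  obtain ⟨K2, T2, hK2, hT2, hgam⟩ := h.gam (Xw + Yw + 1) (by linarith)
  obtain ⟨B, hB⟩ : ∃ B : ℝ, B = Real.exp (2 * K2) * (C + c⁻¹ + 1) := ⟨_, rfl⟩
  have hE : 1 ≤ Real.exp (2 * K2) := Real.one_le_exp (by positivity)
  have hci : 0 < c⁻¹ := by positivity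
  have hB1 : 1 ≤ B := by rw [hB]; nlinarith
  have hBC : C ≤ B := by rw [hB]; nlinarith
  have hBE : Real.exp (2 * K2) ≤ B := by rw [hB]; nlinarith
  have hBC2 : Real.exp (2 * K2) * C ≤ B := by rw [hB]; nlinarith [Real.exp_pos (2 * K2)]
  have hBc : B⁻¹ ≤ Real.exp (-(2 * K2)) * c := by
    have h1 : Real.exp (2 * K2) * c⁻¹ ≤ B := by rw [hB]; nlinarith [Real.exp_pos (2 * K2)]
    have h2 := inv_anti₀ (by positivity) h1
    rw [mul_inv, inv_inv, ← Real.exp_neg] at h2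
    exact h2
  refine ⟨B, T1 + T2 + 2 * Yw + 2, hB1, by linarith, by linarith, ?_⟩
  intro t ht
  have ht2 : T2 ≤ t := by linarith
  have htp : 0 < t := by linarith
  have ht1 : 1 ≤ t := by linarith
  obtain ⟨L, hL⟩ : ∃ L : ℝ, L = 2 * κ * Real.log t := ⟨_, rfl⟩
  rw [← hL]
  have hlog : 0 < Real.log t := Real.log_pos (by linarith)
  have hLp : 0 < L := by rw [hL]; positivity
  have hn : ∀ z : ℂ, ‖gt κ Z t z‖ = Real.exp (L * z.re) * ‖Z (1 / 2 + (I * t + z))‖ := by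
    intro z; rw [gt_norm, hL]
  have him : ∀ z ∈ Wi Xw Yw, 0 < (I * t + z : ℂ).im := by
    intro z hz
    have h1 := (abs_lt.1 hz.2).1
    rw [Complex.add_im]
    have h5 : (I * (t : ℂ)).im = t := by simp
    rw [h5]
    linarith
  have hnorm : ∀ z ∈ Wi Xw Yw, ‖z‖ ≤ Xw + Yw + 1 := by
    intro z hz
    have := Complex.norm_le_abs_re_add_abs_im z
    linarith [hz.1, hz.2]
  have hconj : ∀ z ∈ Wi Xw Yw, -conj z ∈ Wi Xw Yw := by
    intro z hz
    exact ⟨by simpa using hz.1, by simpa using hz.2⟩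
  -- the functional equation
  have hfe : ∀ z ∈ Wi Xw Yw, ‖Z (1 / 2 + (I * t + z))‖ ≤ Real.exp (-(L * z.re) + 2 * K2) * ‖Z (1 / 2 + (I * t + -conj z))‖ := by
    intro z hz
    have hz' := hconj z hz
    obtain ⟨g1, g2, -⟩ := hgam t z ht2 (hnorm z hz)
    obtain ⟨g3, -, g4⟩ := hgam t (-conj z) ht2 (hnorm _ hz')
    have e1 : -(conj (I * t + z)) = (I * t + -conj z : ℂ) := by
      simp only [map_add, map_mul, Complex.conj_I, Complex.conj_ofReal]
      ring
    have h1 := h.symm (I * t + z)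
    rw [e1] at h1
    have h2 : ‖H (I * t + -conj z)‖ * ‖Z (1 / 2 + (I * t + -conj z))‖ = ‖H (I * t + z)‖ * ‖Z (1 / 2 + (I * t + z))‖ := by
      rw [← norm_mul, ← norm_mul, ← h.eq _ (him z hz), ← h.eq _ (him _ hz'), h1, Complex.norm_conj]
    have hH : 0 < ‖H (I * t)‖ := by
      have := (hgam t 0 ht2 (by simp; linarith)).1
      rw [add_zero] at this
      exact norm_pos_iff.2 this
    have h3 : (Real.exp (κ * Real.log t * z.re - K2) * ‖H (I * t)‖) * ‖Z (1 / 2 + (I * t + z))‖ ≤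
        (Real.exp (κ * Real.log t * (-conj z : ℂ).re + K2) * ‖H (I * t)‖) * ‖Z (1 / 2 + (I * t + -conj z))‖ := by
      calc _ ≤ ‖H (I * t + z)‖ * ‖Z (1 / 2 + (I * t + z))‖ := by gcongr
        _ = ‖H (I * t + -conj z)‖ * ‖Z (1 / 2 + (I * t + -conj z))‖ := h2.symm
        _ ≤ _ := by gcongr
    have e2 : (-conj z : ℂ).re = -z.re := by simp
    rw [e2] at h3
    have h4 : Real.exp (κ * Real.log t * z.re - K2) * ‖Z (1 / 2 + (I * t + z))‖ ≤
        Real.exp (κ * Real.log t * -z.re + K2) * ‖Z (1 / 2 + (I * t + -conj z))‖ := by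
      refine le_of_mul_le_mul_right ?_ hH
      linarith
    have h5 : ‖Z (1 / 2 + (I * t + z))‖ = Real.exp (-(κ * Real.log t * z.re - K2)) *
        (Real.exp (κ * Real.log t * z.re - K2) * ‖Z (1 / 2 + (I * t + z))‖) := by
      rw [← mul_assoc, ← Real.exp_add, neg_add_cancel, Real.exp_zero, one_mul]
    rw [h5]
    calc _ ≤ Real.exp (-(κ * Real.log t * z.re - K2)) *
        (Real.exp (κ * Real.log t * -z.re + K2) * ‖Z (1 / 2 + (I * t + -conj z))‖) := by gcongr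
      _ = _ := by
        rw [← mul_assoc, ← Real.exp_add, hL]
        congr 2
        ring
  have hrefl : Refl Xw Yw B L (gt κ Z t) := by
    intro z hz
    have h1 := hfe z hz
    rw [hn, hn]
    have e2 : (-conj z : ℂ).re = -z.re := by simp
    rw [e2]
    calc Real.exp (L * z.re) * ‖Z (1 / 2 + (I * t + z))‖ ≤
        Real.exp (L * z.re) * (Real.exp (-(L * z.re) + 2 * K2) * ‖Z (1 / 2 + (I * t + -conj z))‖) := by gcongr
      _ = Real.exp (2 * K2) * (Real.exp (L * z.re) * Real.exp (L * -z.re)) * ‖Z (1 / 2 + (I * t + -conj z))‖ := by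
          rw [Real.exp_add]
          have : Real.exp (L * -z.re) = Real.exp (-(L * z.re)) := by congr 1; ring
          rw [this]
          ring
      _ ≤ B * (Real.exp (L * z.re) * Real.exp (L * -z.re)) * ‖Z (1 / 2 + (I * t + -conj z))‖ := by gcongr
      _ = _ := by ring
  refine ⟨⟨?_, ?_, ?_, ?_⟩, hrefl⟩
  · intro z hz
    have h1 : DifferentiableAt ℂ Z (1 / 2 + (I * t + z)) := h.dZ _ (by
      have := him z hz
      rw [Complex.add_im]
      have e : (1 / 2 : ℂ).im = 0 := by simp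
      rw [e, zero_add]
      exact this)
    have h2 : DifferentiableAt ℂ (fun z : ℂ => (1 / 2 + (I * t + z) : ℂ)) z := by fun_prop
    have h3 : DifferentiableAt ℂ (fun z : ℂ => cexp ((2 * κ * Real.log t : ℝ) * z)) z := by fun_prop
    exact h3.mul (DifferentiableAt.comp z h1 h2)
  · intro z hz
    rw [hn]
    -- growth at the height `t + Im z`
    have h1 := hgro (t + z.im) (z.re : ℂ) (by have := (abs_lt.1 hz.2).1; linarith) (by
      rw [Complex.norm_real, Real.norm_eq_abs]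
      linarith [hz.1])
    have e1 : (1 / 2 + (I * ((t + z.im : ℝ) : ℂ) + (z.re : ℂ)) : ℂ) = 1 / 2 + (I * t + z) := by
      nth_rewrite 3 [← Complex.re_add_im z]
      push_cast
      ring
    rw [e1] at h1
    have h2 : t + z.im ≤ t ^ (2 : ℝ) := by
      have := (abs_lt.1 hz.2).2
      rw [Real.rpow_two]
      nlinarith
    have h3 : 0 ≤ t + z.im := by
      have := (abs_lt.1 hz.2).1
      linarith
    have h4 : (t + z.im) ^ K ≤ Real.exp (K / κ * L) := by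
      calc (t + z.im) ^ K ≤ (t ^ (2 : ℝ)) ^ K := Real.rpow_le_rpow h3 h2 hK.le
        _ = Real.exp (K / κ * L) := by
          rw [← Real.rpow_mul htp.le, Real.rpow_def_of_pos htp, hL]
          congr 1
          field_simp
    have h5 : L * z.re ≤ L * Xw := by
      gcongr
      exact (le_abs_self _).trans hz.1.le
    calc Real.exp (L * z.re) * ‖Z (1 / 2 + (I * t + z))‖ ≤ Real.exp (L * Xw) * Real.exp (K / κ * L) := by
          gcongr
          exact h1.trans h4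
      _ = _ := by rw [← Real.exp_add]; congr 1; ring
  · intro z hz hre
    rw [hn]
    have hz' := hconj z hz
    have e2 : (-conj z : ℂ).re = -z.re := by simp
    have h1 := hbd (1 / 2 + (I * t + -conj z)) (by
      have e3 : (1 / 2 + (I * t + -conj z) : ℂ).re = 1 / 2 - z.re := by simp; ring
      rw [e3]
      linarith)
    have h2 := hfe z hz
    have h3 := hfe (-conj z) hz'
    have e4 : -conj (-conj z) = z := by simp
    rw [e4, e2] at h3
    constructor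
    · calc B⁻¹ ≤ Real.exp (-(2 * K2)) * c := hBc
        _ ≤ Real.exp (-(2 * K2)) * ‖Z (1 / 2 + (I * t + -conj z))‖ := by gcongr; exact h1.1
        _ ≤ Real.exp (-(2 * K2)) * (Real.exp (-(L * -z.re) + 2 * K2) * ‖Z (1 / 2 + (I * t + z))‖) := by gcongr
        _ = Real.exp (L * z.re) * ‖Z (1 / 2 + (I * t + z))‖ := by
          rw [← mul_assoc, ← Real.exp_add]
          congr 2
          ring
    · calc Real.exp (L * z.re) * ‖Z (1 / 2 + (I * t + z))‖ ≤
          Real.exp (L * z.re) * (Real.exp (-(L * z.re) + 2 * K2) * C) := by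
            gcongr
            exact h2.trans (by gcongr; exact h1.2)
        _ = Real.exp (2 * K2) * C := by
          rw [← mul_assoc, ← Real.exp_add]
          congr 2
          ring
        _ ≤ B := hBC2
  · intro z hz hre
    rw [hn]
    have h1 := (hbd (1 / 2 + (I * t + z)) (by
      have e3 : (1 / 2 + (I * t + z) : ℂ).re = 1 / 2 + z.re := by simp
      rw [e3]
      linarith)).2
    rw [mul_comm B]
    gcongr
    exact h1.trans hBC

end

end Pool.Agent.N831.SD
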