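import Pool.Agent.N831.SD.H

set_option autoImplicit false

/-!
# Localisation of the zeros of an L-function and of its derivatives to the left of the critical line
-/

namespace Pool.Agent.N831.SD

open Complex Filter Topology Set Metric
open scoped ComplexConjugate

noncomputable section

variable {κ : ℝ} {H X Z : ℂ → ℂ}

lemma FE.zero_iff (h : FE κ H X Z) {Xw Yw t : ℝ} (ht : Yw ≤ t) (ht1 : 1 < t) (k : ℕ) {z : ℂ} (hz : z ∈ Wi Xw Yw) :
    iteratedDeriv k Z (1 / 2 + (I * t + z)) = 0 ↔ GG (2 * κ * Real.log t) (gt κ Z t) k z = 0 := by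
  have hκ := h.κ_pos
  have hlog : 0 < Real.log t := Real.log_pos ht1
  have hL : 2 * κ * Real.log t ≠ 0 := by positivity
  have hd : DifferentiableOn ℂ (fun z => Z (1 / 2 + I * t + z)) (Wi Xw Yw) := by
    intro w hw
    have h1 : DifferentiableAt ℂ Z (1 / 2 + I * t + w) := h.dZ _ (by
      have := (abs_lt.1 hw.2).1
      have e : (1 / 2 + I * t + w : ℂ).im = t + w.im := by simp
      rw [e]
      linarith)
    have h2 : DifferentiableAt ℂ (fun z : ℂ => (1 / 2 + I * t + z : ℂ)) w := by fun_prop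
    exact (DifferentiableAt.comp w h1 h2).differentiableWithinAt
  have h1 := iter_eq (isOpen_Wi Xw Yw) hd hL k z hz
  rw [iteratedDeriv_comp_const_add] at h1
  simp only at h1
  have e1 : (1 / 2 + I * t + z : ℂ) = 1 / 2 + (I * t + z) := by ring
  have e2 : (fun z => cexp (((2 * κ * Real.log t : ℝ) : ℂ) * z) * Z (1 / 2 + I * t + z)) = gt κ Z t := by
    funext w
    unfold gt
    congr 2
    ring
  rw [e1, e2] at h1
  rw [h1]
  have h3 : (-(((2 * κ * Real.log t : ℝ)) : ℂ)) ^ k ≠ 0 := pow_ne_zero _ (neg_ne_zero.2 (by exact_mod_cast hL))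
  constructor
  · intro h4
    exact (mul_eq_zero.1 h4).resolve_left (mul_ne_zero h3 (Complex.exp_ne_zero _))
  · intro h4
    rw [h4, mul_zero]

/-- **No loss to the left.** -/
theorem FE.left (h : FE κ H X Z) (k : ℕ) : ∀ M : ℝ, ∃ Y T0 : ℝ, 0 < Y ∧ 2 ≤ T0 ∧ Y < T0 ∧ ∀ s : ℂ, T0 ≤ s.im → -M ≤ s.re →
    s.re ≤ 1 / 2 → iteratedDeriv k Z s = 0 → ∃ ρ : ℂ, Z ρ = 0 ∧ |ρ.im - s.im| ≤ Y ∧ (ρ.re < s.re ∨ ρ = s) := by
  have hκ := h.κ_pos
  obtain ⟨x1, hx1, hloc⟩ := h.loc
  induction k with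
  | zero =>
    intro M
    refine ⟨1, 2, one_pos, le_rfl, by norm_num, fun s _ _ _ hs => ⟨s, by rwa [iteratedDeriv_zero] at hs, by simp, Or.inr rfl⟩⟩
  | succ k ih =>
    intro M
    have hk0 : (0 : ℝ) ≤ k := Nat.cast_nonneg k
    obtain ⟨D, hD⟩ : ∃ D : ℝ, D = |M| + 1 / 2 := ⟨_, rfl⟩
    have hD0 : 0 ≤ D := by rw [hD]; positivity
    obtain ⟨Y', T', hY', hT', hYT', ih'⟩ := ih (|M| + (x1 + k))
    obtain ⟨A, hA, hA'⟩ := hloc (2 * (x1 + k + D + 3) + k + 1) (by positivity)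
    obtain ⟨Yn, hYn, hnext⟩ := next (X := 2 * (x1 + k + D + 3) + k + 1 - k) (A := A + k) (x1 := x1 + k) (D := D)
      (by positivity) (by linarith) hD0 (by linarith)
    obtain ⟨Yw, hYw⟩ : ∃ Yw : ℝ, Yw = Yn + k + 1 := ⟨_, rfl⟩
    have hYwp : 0 < Yw := by rw [hYw]; positivity
    obtain ⟨B, TB, hB, hTB, hTBY, hL⟩ := hA' Yw hYwp
    have h4k : (1 : ℝ) ≤ 4 ^ k := one_le_pow₀ (by norm_num)
    obtain ⟨L0, hL0, hn⟩ := hnext (4 ^ k * B) (by nlinarith)
    refine ⟨Yw + Y', TB + T' + Yw + Real.exp ((L0 + 2 * (4 ^ k * B) ^ 2) / (2 * κ)), by positivity,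
      by linarith [Real.exp_pos ((L0 + 2 * (4 ^ k * B) ^ 2) / (2 * κ))],
      by linarith [Real.exp_pos ((L0 + 2 * (4 ^ k * B) ^ 2) / (2 * κ))], ?_⟩
    intro s hs hsM hsr hsz
    obtain ⟨t, ht⟩ : ∃ t : ℝ, t = s.im := ⟨_, rfl⟩
    rw [← ht] at hs
    have hexp := Real.exp_pos ((L0 + 2 * (4 ^ k * B) ^ 2) / (2 * κ))
    have htB : TB ≤ t := by linarith
    have ht1 : 1 < t := by linarith
    have hlog : 0 < Real.log t := Real.log_pos ht1
    have hLt : L0 + 2 * (4 ^ k * B) ^ 2 ≤ 2 * κ * Real.log t := by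
      have h1 : Real.exp ((L0 + 2 * (4 ^ k * B) ^ 2) / (2 * κ)) ≤ t := by linarith
      have h2 := (Real.le_log_iff_exp_le (by linarith)).2 h1
      rw [div_le_iff₀ (by positivity)] at h2
      linarith
    have hBB : 0 ≤ 2 * (4 ^ k * B) ^ 2 := by positivity
    obtain ⟨hLoc, -⟩ := hL t htB
    have hLk := hLoc.iter hB k (by linarith)
    obtain ⟨d, hd⟩ : ∃ d : ℝ, d = 1 / 2 - s.re := ⟨_, rfl⟩
    have hd0 : 0 ≤ d := by linarith
    have hdD : d ≤ D := by rw [hD]; linarith [le_abs_self M]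
    have hsd : s = 1 / 2 + (I * t + -(d : ℂ)) := by
      rw [ht, hd]
      apply Complex.ext <;> simp
    have hmem : (-(d : ℂ)) ∈ Wi (2 * (x1 + k + D + 3) + k + 1) Yw := by
      refine ⟨?_, ?_⟩
      · rw [Complex.neg_re, Complex.ofReal_re, abs_neg, abs_of_nonneg hd0]
        linarith
      · rw [Complex.neg_im, Complex.ofReal_im, neg_zero, abs_zero]
        linarith
    have hz0 : GG (2 * κ * Real.log t) (gt κ Z t) (k + 1) (-(d : ℂ)) = 0 := by
      rw [← h.zero_iff (Xw := 2 * (x1 + k + D + 3) + k + 1) (Yw := Yw) (by linarith) ht1 (k + 1) hmem, ← hsd]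
      exact hsz
    by_cases hgk : GG (2 * κ * Real.log t) (gt κ Z t) k (-(d : ℂ)) = 0
    · rw [← h.zero_iff (Xw := 2 * (x1 + k + D + 3) + k + 1) (Yw := Yw) (by linarith) ht1 k hmem, ← hsd] at hgk
      obtain ⟨ρ, h1, h2, h3⟩ := ih' s (by rw [← ht]; linarith) (by linarith [le_abs_self M]) hsr hgk
      exact ⟨ρ, h1, by linarith, h3⟩
    · by_contra hcon
      push Not at hcon
      refine hn (2 * κ * Real.log t) (by linarith) (Yw - k) (by rw [hYw]; linarith) _ hLk d hd0 hdD ?_ hgk ?_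
      · intro z hz hzr hgz
        have hzW : z ∈ Wi (2 * (x1 + k + D + 3) + k + 1) Yw := Wi_mono (by linarith) (by linarith) hz
        have hfar : -(x1 + k) < z.re := by
          by_contra hc
          push Not at hc
          have h1 := (hLk.far z hz hc).1
          rw [hgz, norm_zero] at h1
          have : 0 < (4 ^ k * B)⁻¹ := by positivity
          linarith
        rw [← h.zero_iff (Xw := 2 * (x1 + k + D + 3) + k + 1) (Yw := Yw) (by linarith) ht1 k hzW] at hgz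
        have hzi := abs_lt.1 hzW.2
        have e1 : (1 / 2 + (I * t + z) : ℂ).re = 1 / 2 + z.re := by simp
        have e2 : (1 / 2 + (I * t + z) : ℂ).im = t + z.im := by simp
        obtain ⟨ρ, h1, h2, h3⟩ := ih' _ (by rw [e2]; linarith [hzi.1]) (by rw [e1]; linarith [abs_nonneg M])
          (by rw [e1]; linarith) hgz
        rw [e2] at h2
        have h4 : |ρ.im - s.im| ≤ Yw + Y' := by
          rw [← ht]
          have h5 := abs_le.1 h2
          rw [abs_le]
          constructor <;> linarith [hzi.1, hzi.2]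
        have h6 := hcon ρ h1 h4
        rcases h3 with h3 | h3
        · rw [e1] at h3
          linarith [h6.1]
        · have := h6.1
          rw [h3, e1] at this
          linarith
      · exact hz0

/-- **Zeros of the derivatives near a zero far from the line.** -/
theorem FE.right (h : FE κ H X Z) (hst : ∀ s : ℂ, 0 < s.im → Z s = 0 → 0 ≤ s.re) (k : ℕ) :
    ∀ ε : ℝ, 0 < ε → ∃ R T0 : ℝ, 0 < R ∧ 2 ≤ T0 ∧ R < T0 ∧ ∀ ρ : ℂ, T0 ≤ ρ.im → ρ.re ≤ 1 / 2 - ε → Z ρ = 0 →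
    ∃ s : ℂ, iteratedDeriv k Z s = 0 ∧ s.re < ρ.re + ε ∧ |s.im - ρ.im| ≤ R := by
  intro ε0 hε0
  have hκ := h.κ_pos
  obtain ⟨ε, hε⟩ : ∃ ε : ℝ, ε = min ε0 (1 / 2) := ⟨_, rfl⟩
  have hεp : 0 < ε := by rw [hε]; exact lt_min hε0 (by norm_num)
  have hε1 : ε ≤ 1 / 2 := by rw [hε]; exact min_le_right _ _
  have hεε : ε ≤ ε0 := by rw [hε]; exact min_le_left _ _
  obtain ⟨x1, hx1, hloc⟩ := h.loc
  have hk0 : (0 : ℝ) ≤ k := Nat.cast_nonneg k
  obtain ⟨Xw, hXw⟩ : ∃ Xw : ℝ, Xw = 2 * (x1 + k + 2) + 2 + k := ⟨_, rfl⟩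
  obtain ⟨A, hA, hA'⟩ := hloc Xw (by rw [hXw]; positivity)
  obtain ⟨η, Y1, hη, hY1, hbl⟩ := bloc (x1 := x1) (A := A) (X := Xw) (ε := ε) k hA hx1 hXw.ge hεp hε1
  obtain ⟨Yw, hYw⟩ : ∃ Yw : ℝ, Yw = Y1 + (x1 + k + 4) := ⟨_, rfl⟩
  have hYwp : 0 < Yw := by rw [hYw]; positivity
  obtain ⟨B, TB, hB, hTB, hTBY, hL⟩ := hA' Yw hYwp
  obtain ⟨L0, hL0, hn⟩ := hbl B hB
  obtain ⟨Tb, hTb⟩ : ∃ Tb : ℝ, Tb = TB + Yw + Real.exp (L0 / (2 * κ)) := ⟨_, rfl⟩
  have hexp := Real.exp_pos (L0 / (2 * κ))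
  have key : ∀ n : ℕ, ∀ ρ : ℂ, Tb + n * Yw ≤ ρ.im → ρ.re ≤ 1 / 2 - ε → ρ.re ≤ n * η → Z ρ = 0 →
      ∃ s : ℂ, iteratedDeriv k Z s = 0 ∧ s.re < ρ.re + ε ∧ |s.im - ρ.im| ≤ (n + 1) * Yw := by
    intro n
    induction n with
    | zero =>
      intro ρ hρ hρr hρη hρz
      rw [Nat.cast_zero, zero_mul] at hρη
      rw [Nat.cast_zero, zero_mul, add_zero] at hρ
      obtain ⟨t, ht⟩ : ∃ t : ℝ, t = ρ.im := ⟨_, rfl⟩
      rw [← ht] at hρ
      have ht1 : 1 < t := by linarith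
      have hρ0 : ρ.re = 0 := le_antisymm hρη (hst ρ (by linarith) hρz)
      have hL1 : L0 ≤ 2 * κ * Real.log t := by
        have h1 : Real.exp (L0 / (2 * κ)) ≤ t := by linarith
        have h2 := (Real.le_log_iff_exp_le (by linarith)).2 h1
        rw [div_le_iff₀ (by positivity)] at h2
        linarith
      obtain ⟨hLoc, hR⟩ := hL t (by linarith)
      have hρd : ρ = 1 / 2 + (I * t + -((1 / 2 : ℝ) : ℂ)) := by
        rw [ht]
        apply Complex.ext <;> simp [hρ0]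
      have hmem : (-((1 / 2 : ℝ) : ℂ)) ∈ Wi Xw Yw := by
        refine ⟨?_, ?_⟩
        · rw [Complex.neg_re, Complex.ofReal_re, abs_neg, abs_of_nonneg (by norm_num), hXw]
          linarith
        · rw [Complex.neg_im, Complex.ofReal_im, neg_zero, abs_zero]
          linarith
      obtain ⟨z, hzb, hz0⟩ := hn _ hL1 Yw (gt κ Z t) (by rw [hYw]; linarith) hLoc hR (1 / 2) hε1 le_rfl
        (fun z hz hzr hgz => by
          have h1 := (h.zero_iff (Xw := Xw) (Yw := Yw) (by linarith) ht1 0 hz).2 hgz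
          rw [iteratedDeriv_zero] at h1
          have hzi := abs_lt.1 hz.2
          have e1 : (1 / 2 + (I * t + z) : ℂ).re = 1 / 2 + z.re := by simp
          have e2 : (1 / 2 + (I * t + z) : ℂ).im = t + z.im := by simp
          have h2 := hst _ (by rw [e2]; linarith [hzi.1]) h1
          rw [e1] at h2
          linarith)
        (by
          have h1 := (h.zero_iff (Xw := Xw) (Yw := Yw) (by linarith) ht1 0 hmem).1 (by
            rw [iteratedDeriv_zero, ← hρd]
            exact hρz)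
          exact h1)
      rw [mem_ball_iff_norm] at hzb
      have h1 := abs_lt.1 ((Complex.abs_re_le_norm _).trans_lt hzb)
      have h2 := abs_lt.1 ((Complex.abs_im_le_norm _).trans_lt hzb)
      simp only [Complex.sub_re, Complex.neg_re, Complex.ofReal_re] at h1
      simp only [Complex.sub_im, Complex.neg_im, Complex.ofReal_im] at h2
      have hzW : z ∈ Wi Xw Yw := ⟨abs_lt.2 ⟨by linarith, by linarith⟩, abs_lt.2 ⟨by linarith, by linarith⟩⟩
      refine ⟨1 / 2 + (I * t + z), (h.zero_iff (Xw := Xw) (Yw := Yw) (by linarith) ht1 k hzW).2 hz0, ?_, ?_⟩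
      · have e1 : (1 / 2 + (I * t + z) : ℂ).re = 1 / 2 + z.re := by simp
        rw [e1, hρ0]
        linarith [h1.2]
      · have e2 : (1 / 2 + (I * t + z) : ℂ).im = t + z.im := by simp
        rw [e2, ← ht, add_sub_cancel_left]
        have := hzW.2.le
        simpa using this
    | succ n ih =>
      intro ρ hρ hρr hρη hρz
      have hnc : ((n + 1 : ℕ) : ℝ) = n + 1 := by push_cast; ring
      rw [hnc] at hρ hρη ⊢
      have hn0 : (0 : ℝ) ≤ n := Nat.cast_nonneg n
      have hnY : 0 ≤ n * Yw := by positivity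
      obtain ⟨t, ht⟩ : ∃ t : ℝ, t = ρ.im := ⟨_, rfl⟩
      rw [← ht] at hρ
      have ht1 : 1 < t := by nlinarith
      have htY : Yw ≤ t := by nlinarith
      have htB : TB ≤ t := by nlinarith
      have hL1 : L0 ≤ 2 * κ * Real.log t := by
        have h1 : Real.exp (L0 / (2 * κ)) ≤ t := by nlinarith
        have h2 := (Real.le_log_iff_exp_le (by linarith)).2 h1
        rw [div_le_iff₀ (by positivity)] at h2
        linarith
      obtain ⟨hLoc, hR⟩ := hL t htB
      obtain ⟨δ, hδ⟩ : ∃ δ : ℝ, δ = 1 / 2 - ρ.re := ⟨_, rfl⟩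
      have hρ0 : 0 ≤ ρ.re := hst ρ (by linarith) hρz
      have hρd : ρ = 1 / 2 + (I * t + -(δ : ℂ)) := by
        rw [ht, hδ]
        apply Complex.ext <;> simp
      have hmem : (-(δ : ℂ)) ∈ Wi Xw Yw := by
        refine ⟨?_, ?_⟩
        · rw [Complex.neg_re, Complex.ofReal_re, abs_neg, abs_of_nonneg (by linarith), hXw]
          linarith
        · rw [Complex.neg_im, Complex.ofReal_im, neg_zero, abs_zero]
          linarith
      by_cases hall : ∀ z ∈ Wi Xw Yw, z.re < -δ - η → gt κ Z t z ≠ 0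
      · obtain ⟨z, hzb, hz0⟩ := hn _ hL1 Yw (gt κ Z t) (by rw [hYw]; linarith) hLoc hR δ (by linarith) (by linarith)
          hall ((h.zero_iff (Xw := Xw) (Yw := Yw) (by linarith) ht1 0 hmem).1 (by
            rw [iteratedDeriv_zero, ← hρd]
            exact hρz))
        rw [mem_ball_iff_norm] at hzb
        have h1 := abs_lt.1 ((Complex.abs_re_le_norm _).trans_lt hzb)
        have h2 := abs_lt.1 ((Complex.abs_im_le_norm _).trans_lt hzb)
        simp only [Complex.sub_re, Complex.neg_re, Complex.ofReal_re] at h1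
        simp only [Complex.sub_im, Complex.neg_im, Complex.ofReal_im] at h2
        have hzW : z ∈ Wi Xw Yw := ⟨abs_lt.2 ⟨by linarith, by linarith⟩, abs_lt.2 ⟨by linarith, by linarith⟩⟩
        refine ⟨1 / 2 + (I * t + z), (h.zero_iff (Xw := Xw) (Yw := Yw) (by linarith) ht1 k hzW).2 hz0, ?_, ?_⟩
        · have e1 : (1 / 2 + (I * t + z) : ℂ).re = 1 / 2 + z.re := by simp
          rw [e1]
          linarith [h1.2]
        · have e2 : (1 / 2 + (I * t + z) : ℂ).im = t + z.im := by simp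
          rw [e2, ← ht, add_sub_cancel_left]
          nlinarith [hzW.2.le]
      · push Not at hall
        obtain ⟨z, hzW, hzr, hz0⟩ := hall
        have h1 := (h.zero_iff (Xw := Xw) (Yw := Yw) (by linarith) ht1 0 hzW).2 hz0
        rw [iteratedDeriv_zero] at h1
        have hzi := abs_lt.1 hzW.2
        have e1 : (1 / 2 + (I * t + z) : ℂ).re = 1 / 2 + z.re := by simp
        have e2 : (1 / 2 + (I * t + z) : ℂ).im = t + z.im := by simp
        obtain ⟨s, h2, h3, h4⟩ := ih (1 / 2 + (I * t + z)) (by rw [e2]; nlinarith [hzi.1]) (by rw [e1]; linarith)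
          (by rw [e1]; nlinarith) h1
        rw [e1] at h3
        rw [e2] at h4
        refine ⟨s, h2, by linarith, ?_⟩
        rw [← ht]
        have h5 := abs_le.1 h4
        rw [abs_le]
        constructor <;> nlinarith [hzi.1, hzi.2]
  obtain ⟨N, hN⟩ : ∃ N : ℕ, 1 / (2 * η) ≤ N := exists_nat_ge _
  have hNη : 1 / 2 ≤ N * η := by
    rw [div_le_iff₀ (by positivity)] at hN
    linarith
  have hN0 : (0 : ℝ) ≤ N := Nat.cast_nonneg N
  refine ⟨(N + 1) * Yw, Tb + (N + 2) * Yw, by positivity, by nlinarith, by nlinarith, ?_⟩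
  intro ρ hρ hρr hρz
  obtain ⟨s, h1, h2, h3⟩ := key N ρ (by nlinarith) (by linarith) (by linarith) hρz
  exact ⟨s, h1, by linarith, h3⟩

end

end Pool.Agent.N831.SD
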