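import Mathlib

set_option autoImplicit false

/-!
# Functions whose logarithmic derivative has a very negative real part
-/

namespace Pool.Agent.N831.SD

open Complex Filter Topology Set Metric
open scoped ComplexConjugate

noncomputable section

/-- derivative of a function with positive real part -/
theorem pos_re_deriv {F : ℂ → ℂ} {s : ℂ} {ρ : ℝ} (hρ : 0 < ρ) (hF : DifferentiableOn ℂ F (ball s ρ))
    (hpos : ∀ z ∈ ball s ρ, 0 < (F z).re) : ‖deriv F s‖ ≤ 2 * (F s).re / ρ := by
  obtain ⟨a, ha⟩ : ∃ a : ℂ, a = F s := ⟨_, rfl⟩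
  have hs : s ∈ ball s ρ := mem_ball_self hρ
  have ha0 : 0 < a.re := by rw [ha]; exact hpos s hs
  have hden : ∀ z ∈ ball s ρ, F z + conj a ≠ 0 := by
    intro z hz h0
    have h1 := congrArg Complex.re h0
    rw [Complex.add_re, Complex.conj_re, Complex.zero_re] at h1
    linarith [hpos z hz]
  obtain ⟨w, hw⟩ : ∃ w : ℂ → ℂ, w = fun z => (F z - a) / (F z + conj a) := ⟨_, rfl⟩
  have hws : w s = 0 := by rw [hw, ha]; simp
  have hwd : DifferentiableOn ℂ w (ball s ρ) := by
    rw [hw]
    exact (hF.sub (differentiableOn_const _)).div (hF.add (differentiableOn_const _)) hden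
  have hmaps : MapsTo w (ball s ρ) (ball (w s) 1) := by
    intro z hz
    rw [hws, mem_ball_zero_iff, hw]
    simp only
    rw [norm_div, div_lt_one (norm_pos_iff.2 (hden z hz))]
    have h1 := hpos z hz
    have h2 : ‖F z - a‖ ^ 2 < ‖F z + conj a‖ ^ 2 := by
      rw [← Complex.normSq_eq_norm_sq, ← Complex.normSq_eq_norm_sq, Complex.normSq_apply, Complex.normSq_apply]
      simp only [Complex.sub_re, Complex.sub_im, Complex.add_re, Complex.add_im, Complex.conj_re, Complex.conj_im]
      nlinarith [mul_pos h1 ha0]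
    exact lt_of_pow_lt_pow_left₀ 2 (norm_nonneg _) h2
  have h3 := Complex.norm_deriv_le_div_of_mapsTo_ball hwd (hmaps.mono_right ball_subset_closedBall) hρ
  have hFs : HasDerivAt F (deriv F s) s := (hF.differentiableAt (ball_mem_nhds s hρ)).hasDerivAt
  have h4 : HasDerivAt w ((deriv F s * (F s + conj a) - (F s - a) * deriv F s) / (F s + conj a) ^ 2) s := by
    rw [hw]
    exact (hFs.sub_const a).div (hFs.add_const (conj a)) (hden s hs)
  have h5 : F s + conj a = ((2 * a.re : ℝ) : ℂ) := by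
    rw [← ha, Complex.add_conj]
  rw [h4.deriv, ← ha, sub_self, zero_mul, sub_zero] at h3
  rw [← ha] at h5
  rw [h5] at h3
  have h6 : deriv F s * ((2 * a.re : ℝ) : ℂ) / ((2 * a.re : ℝ) : ℂ) ^ 2 = deriv F s / ((2 * a.re : ℝ) : ℂ) := by
    have : ((2 * a.re : ℝ) : ℂ) ≠ 0 := by
      have h7 : (2 * a.re : ℝ) ≠ 0 := by positivity
      exact_mod_cast h7
    field_simp
  rw [h6, norm_div, Complex.norm_real, Real.norm_of_nonneg (by positivity), div_le_iff₀ (by positivity)] at h3
  rw [← ha]
  calc ‖deriv F s‖ ≤ 1 / ρ * (2 * a.re) := h3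
    _ = 2 * a.re / ρ := by ring

/-- **The derivatives of a function with `Re f'/f ≤ -m` on a disc.** -/
theorem iter_pos {f : ℂ → ℂ} {s0 : ℂ} {R m : ℝ} (k : ℕ) (hR : 0 < R) (hf : ∀ s ∈ ball s0 R, AnalyticAt ℂ f s)
    (hne : ∀ s ∈ ball s0 R, f s ≠ 0) (h : ∀ s ∈ ball s0 R, (deriv f s / f s).re ≤ -m)
    (hm : 2 * k * (k + 1) / R < m) : ∀ j : ℕ, j ≤ k → ∀ s ∈ ball s0 (R * (1 - j / (k + 1))),
    iteratedDeriv j f s ≠ 0 ∧ (iteratedDeriv (j + 1) f s / iteratedDeriv j f s).re ≤ -(m - 2 * j * (k + 1) / R) := by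
  have hk1 : (0 : ℝ) < k + 1 := by positivity
  have hsub : ∀ j : ℕ, ball s0 (R * (1 - j / (k + 1))) ⊆ ball s0 R := by
    intro j
    apply ball_subset_ball
    have : 0 ≤ (j : ℝ) / (k + 1) := by positivity
    nlinarith
  have han : ∀ j : ℕ, ∀ s ∈ ball s0 R, AnalyticAt ℂ (iteratedDeriv j f) s := by
    intro j
    induction j with
    | zero => simpa only [iteratedDeriv_zero] using hf
    | succ j ih => intro s hs; rw [iteratedDeriv_succ]; exact (ih s hs).deriv
  intro j
  induction j with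
  | zero =>
    intro _ s hs
    have hs' := hsub 0 hs
    simp only [iteratedDeriv_zero, zero_add, iteratedDeriv_one, Nat.cast_zero, mul_zero, zero_mul, zero_div, sub_zero]
    exact ⟨hne s hs', h s hs'⟩
  | succ j ih =>
    intro hj s hs
    have hjk : (j : ℝ) + 1 ≤ k := by exact_mod_cast hj
    obtain ⟨ρ, hρ⟩ : ∃ ρ : ℝ, ρ = R / (k + 1) := ⟨_, rfl⟩
    have hρ0 : 0 < ρ := by rw [hρ]; positivity
    have hball : ∀ z ∈ ball s ρ, z ∈ ball s0 (R * (1 - j / (k + 1))) := by
      intro z hz
      rw [mem_ball] at hz hs ⊢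
      have h1 := dist_triangle z s s0
      have h2 : R * (1 - ((j + 1 : ℕ) : ℝ) / (k + 1)) + ρ = R * (1 - j / (k + 1)) := by
        rw [hρ]; push_cast; field_simp; ring
      linarith
    have ih' := ih (by omega)
    obtain ⟨G, hG⟩ : ∃ G : ℂ → ℂ, G = iteratedDeriv j f := ⟨_, rfl⟩
    have hGs : iteratedDeriv (j + 1) f = deriv G := by rw [hG, iteratedDeriv_succ]
    have hGs2 : iteratedDeriv (j + 1 + 1) f = deriv (deriv G) := by rw [iteratedDeriv_succ, hGs]
    rw [hGs, ← hG] at ih'
    rw [hGs2, hGs]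
    have hpos : 0 < m - 2 * j * (k + 1) / R := by
      have : 2 * j * (k + 1) / R ≤ 2 * k * (k + 1) / R := by
        gcongr
        linarith
      linarith
    have hGan : ∀ z ∈ ball s ρ, AnalyticAt ℂ G z := fun z hz => by
      rw [hG]; exact han j z (hsub j (hball z hz))
    obtain ⟨F, hF⟩ : ∃ F : ℂ → ℂ, F = fun z => -(deriv G z / G z) := ⟨_, rfl⟩
    have hFpos : ∀ z ∈ ball s ρ, m - 2 * j * (k + 1) / R ≤ (F z).re := by
      intro z hz
      rw [hF]
      simp only
      rw [Complex.neg_re]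
      linarith [(ih' z (hball z hz)).2]
    have hFd : DifferentiableOn ℂ F (ball s ρ) := by
      intro z hz
      rw [hF]
      exact ((hGan z hz).deriv.div (hGan z hz) (ih' z (hball z hz)).1).neg.differentiableAt.differentiableWithinAt
    have hd := pos_re_deriv hρ0 hFd (fun z hz => hpos.trans_le (hFpos z hz))
    have hss : s ∈ ball s ρ := mem_ball_self hρ0
    have hFs := hFpos s hss
    have hFsp : 0 < (F s).re := hpos.trans_le hFs
    have hGs0 : G s ≠ 0 := (ih' s (hball s hss)).1
    have hFs0 : F s ≠ 0 := by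
      intro h0
      rw [h0, Complex.zero_re] at hFsp
      exact lt_irrefl _ hFsp
    have hdG : deriv G s ≠ 0 := by
      intro h0
      apply hFs0
      rw [hF]
      simp only
      rw [h0, zero_div, neg_zero]
    refine ⟨hdG, ?_⟩
    -- the next logarithmic derivative
    have hGd : HasDerivAt G (deriv G s) s := (hGan s hss).differentiableAt.hasDerivAt
    have hGdd : HasDerivAt (deriv G) (deriv (deriv G) s) s := (hGan s hss).deriv.differentiableAt.hasDerivAt
    have hFd' : deriv F s = -((deriv (deriv G) s * G s - deriv G s * deriv G s) / G s ^ 2) := by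
      have h1 : HasDerivAt F (-((deriv (deriv G) s * G s - deriv G s * deriv G s) / G s ^ 2)) s := by
        rw [hF]
        exact (hGdd.div hGd hGs0).neg
      exact h1.deriv
    have heq : deriv (deriv G) s / deriv G s = deriv F s / F s - F s := by
      rw [hFd', hF]
      simp only
      field_simp
      ring
    rw [heq, Complex.sub_re]
    have h1 : (deriv F s / F s).re ≤ 2 / ρ := by
      refine (Complex.re_le_norm _).trans ?_
      rw [norm_div, div_le_iff₀ (norm_pos_iff.2 hFs0)]
      refine hd.trans ?_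
      have h2 : (F s).re ≤ ‖F s‖ := Complex.re_le_norm _
      calc 2 * (F s).re / ρ ≤ 2 * ‖F s‖ / ρ := by gcongr
        _ = 2 / ρ * ‖F s‖ := by ring
    have h3 : 2 * ((j + 1 : ℕ) : ℝ) * (k + 1) / R = 2 * j * (k + 1) / R + 2 / ρ := by
      rw [hρ]; push_cast; field_simp
    rw [h3]
    linarith

/-- size of the derivatives -/
theorem iter_size {f : ℂ → ℂ} {s0 : ℂ} {R m : ℝ} (k : ℕ) (hR : 0 < R) (hf : ∀ s ∈ ball s0 R, AnalyticAt ℂ f s)
    (hne : ∀ s ∈ ball s0 R, f s ≠ 0) (h : ∀ s ∈ ball s0 R, (deriv f s / f s).re ≤ -m)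
    (hm : 4 * k * (k + 1) / R < m) : ∀ j : ℕ, j ≤ k → (m / 2) ^ j * ‖f s0‖ ≤ ‖iteratedDeriv j f s0‖ := by
  have hk1 : (0 : ℝ) < k + 1 := by positivity
  have hmp : 0 < m := lt_of_le_of_lt (by positivity) hm
  have hm' : 2 * k * (k + 1) / R < m := by
    refine lt_of_le_of_lt ?_ hm
    gcongr
    linarith
  have key := iter_pos k hR hf hne h hm'
  intro j
  induction j with
  | zero => intro _; simp
  | succ j ih =>
    intro hj
    have hjk : (j : ℝ) + 1 ≤ k := by exact_mod_cast hj
    obtain ⟨h1, h2⟩ := key j (by omega) s0 (mem_ball_self (by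
      have : (j : ℝ) / (k + 1) < 1 := by rw [div_lt_one hk1]; linarith
      apply mul_pos hR
      linarith))
    have h3 : m / 2 ≤ ‖iteratedDeriv (j + 1) f s0 / iteratedDeriv j f s0‖ := by
      have h4 := Complex.abs_re_le_norm (iteratedDeriv (j + 1) f s0 / iteratedDeriv j f s0)
      have h5 : 2 * j * (k + 1) / R ≤ m / 2 := by
        have h6 : 2 * j * (k + 1) / R ≤ 2 * k * (k + 1) / R := by
          gcongr
          linarith
        have h7 : 4 * k * (k + 1) / R = 2 * (2 * k * (k + 1) / R) := by ring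
        linarith
      rw [abs_of_nonpos (by linarith)] at h4
      linarith
    rw [norm_div, le_div_iff₀ (norm_pos_iff.2 h1)] at h3
    calc (m / 2) ^ (j + 1) * ‖f s0‖ = m / 2 * ((m / 2) ^ j * ‖f s0‖) := by ring
      _ ≤ m / 2 * ‖iteratedDeriv j f s0‖ := by
          gcongr
          exact ih (by omega)
      _ ≤ _ := h3

end

end Pool.Agent.N831.SD
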