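import Pool.Agent.N831.SD.I
import Pool.Agent.N831.SD.J
import Pool.Agent.N831.SX.I

set_option autoImplicit false

/-!
# Jensen discs for all derivatives
-/

namespace Pool.Agent.N831.SD

open Complex Filter Topology Set Metric
open scoped ComplexConjugate
open Pool.Agent.H24R2.DZ (NN)
open Pool.Agent.N831.SP (re_le_of_left)

noncomputable section

variable {κ B : ℝ} {H X Z : ℂ → ℂ}

/-- outside of the Jensen discs -/
theorem out (h : SX.SD κ B H X Z) {s : ℂ} (hre : s.re < 1 / 2) (him : B ≤ s.im)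
    (hcon : ∀ b : ℂ, X b = 0 → b.re ^ 2 < (1 / 2 - s.re) ^ 2 + (s.im - b.im) ^ 2) :
    Z s ≠ 0 ∧ (deriv Z s / Z s).re ≤ -(deriv H (s - 1 / 2) / H (s - 1 / 2)).re := by
  have hB1 := h.B_one
  obtain ⟨w, hw⟩ : ∃ w : ℂ, w = s - 1 / 2 := ⟨_, rfl⟩
  rw [← hw]
  have hwr : w.re = s.re - 1 / 2 := by rw [hw]; simp
  have hwi : w.im = s.im := by rw [hw]; simp
  have hsw : s = 1 / 2 + w := by rw [hw]; ring
  have hwe : w = w.re + s.im * I := by
    apply Complex.ext <;> simp [hwi]
  have hsy : ∀ x : ℝ, ‖X (x + s.im * I : ℂ)‖ = ‖X (((-x : ℝ) : ℂ) + s.im * I : ℂ)‖ := by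
    intro x
    have e : (((-x : ℝ) : ℂ) + s.im * I : ℂ) = -(conj (x + s.im * I : ℂ)) := by
      apply Complex.ext <;> simp
    rw [e, h.sy.symm, Complex.norm_conj]
  have hX0 : X w ≠ 0 := by
    intro h0
    have := hcon w h0
    rw [hwi, sub_self, hwr] at this
    nlinarith
  have hX1 : (deriv X w / X w).re ≤ 0 := by
    have h2 := re_le_of_left (f := X) (σ := w.re) (t := s.im) (c := 0) (h.sy.diff _) (by rw [← hwe]; exact hX0) (by
      filter_upwards [self_mem_nhdsWithin] with x hx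
      rw [Set.mem_Iio] at hx
      rw [zero_mul, Real.exp_zero, mul_one]
      have h1 := SX.sy_jen h.sy (t := s.im) (h1 := -w.re) (h2 := -x) (by rw [hwr]; linarith) (by linarith)
        (fun b hb => by
          have := hcon b hb
          rw [hwr]
          nlinarith)
      rw [hsy (-w.re), hsy (-x), neg_neg, neg_neg] at h1
      exact h1)
    rw [← hwe] at h2
    simpa using h2
  have h8 := congrArg Complex.re (h.split (w := w) (by rw [hwi]; exact him) (by rw [hwr]; linarith) hX0)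
  rw [← hsw, Complex.add_re] at h8
  refine ⟨?_, by linarith⟩
  have h9 := h.z_ne (w := w) (by rw [hwi]; linarith) hX0
  rwa [← hsw] at h9

/-- the gamma factor in a bounded region -/
lemma gam_low (h : SX.SD κ B H X Z) {R0 : ℝ} (hR0 : 1 ≤ R0) : ∃ T0 : ℝ, 2 ≤ T0 ∧ ∀ (t : ℝ) (u : ℂ), T0 ≤ t → ‖u‖ ≤ R0 →
    κ / 2 * Real.log t ≤ (deriv H (I * t + u) / H (I * t + u)).re := by
  have hκ := h.κ_pos
  obtain ⟨K, T1, hK, hT1, hg⟩ := h.gam R0 hR0
  refine ⟨T1 + Real.exp (2 * K / κ), by linarith [Real.exp_pos (2 * K / κ)], fun t u ht hu => ?_⟩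
  have hexp := Real.exp_pos (2 * K / κ)
  have h1 := (hg t u (by linarith) hu).2.2.1
  have h2 : 2 * K / κ ≤ Real.log t := by
    rw [Real.le_log_iff_exp_le (by linarith)]
    linarith
  rw [div_le_iff₀ hκ] at h2
  have h3 := (Complex.abs_re_le_norm _).trans h1
  rw [Complex.sub_re, Complex.ofReal_re, logDeriv_apply] at h3
  have := (abs_le.1 h3).1
  linarith

/-- **Jensen discs for all derivatives.** -/
theorem jk (h : SX.SD κ B H X Z) (k : ℕ) (M : ℝ) : ∃ C T0 : ℝ, 0 < C ∧ 2 ≤ T0 ∧ ∀ s : ℂ, T0 ≤ s.im →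
    -M ≤ s.re → s.re ≤ 1 / 2 - C / Real.log s.im → iteratedDeriv k Z s = 0 →
    ∃ b : ℂ, X b = 0 ∧ 0 < b.re ∧ 0 < b.im ∧ ‖s - ⟨1 / 2, b.im⟩‖ < b.re + C / Real.log s.im := by
  have hκ := h.κ_pos
  obtain ⟨T1, hT1, hgam⟩ := gam_low h (R0 := |M| + 3) (by linarith [abs_nonneg M])
  obtain ⟨C, hC⟩ : ∃ C : ℝ, C = 4 * k * (k + 1) / κ + 1 := ⟨_, rfl⟩
  have hCp : 0 < C := by rw [hC]; positivity
  have hexp := Real.exp_pos C
  refine ⟨C, T1 + |B| + 2 + Real.exp C, hCp, by linarith [abs_nonneg B], ?_⟩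
  intro s hs hsM hsr hsz
  obtain ⟨t, ht⟩ : ∃ t : ℝ, t = s.im := ⟨_, rfl⟩
  rw [← ht] at hs hsr ⊢
  have hB := le_abs_self B
  have hB0 := abs_nonneg B
  have hlC : C ≤ Real.log t := by
    rw [Real.le_log_iff_exp_le (by linarith)]
    linarith
  have hlog : 0 < Real.log t := by linarith
  obtain ⟨η, hη⟩ : ∃ η : ℝ, η = C / Real.log t := ⟨_, rfl⟩
  have hηp : 0 < η := by rw [hη]; positivity
  have hη1 : η ≤ 1 := by rw [hη, div_le_one hlog]; exact hlC
  rw [← hη] at hsr ⊢
  by_contra hcon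
  push Not at hcon
  have hreg : ∀ z ∈ ball s η, z.re < 1 / 2 ∧ t - 1 < z.im ∧ Z z ≠ 0 ∧ (deriv Z z / Z z).re ≤ -(κ / 2 * Real.log t) := by
    intro z hz
    rw [mem_ball_iff_norm] at hz
    have h1 := abs_lt.1 ((Complex.abs_re_le_norm (z - s)).trans_lt hz)
    have h2 := abs_lt.1 ((Complex.abs_im_le_norm (z - s)).trans_lt hz)
    rw [Complex.sub_re] at h1
    rw [Complex.sub_im, ← ht] at h2
    have hzr : z.re < 1 / 2 := by linarith
    have hzi : t - 1 < z.im := by linarith
    have hout := out h hzr (by linarith) (fun b hb => by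
      have hbs := abs_le.1 (h.strip b hb)
      rcases eq_or_ne b.re 0 with hb0 | hb0
      · rw [hb0]
        have : 0 < (1 / 2 - z.re) ^ 2 := by
          have : 0 < 1 / 2 - z.re := by linarith
          positivity
        nlinarith [sq_nonneg (z.im - b.im)]
      rcases le_or_gt b.im 0 with hbi | hbi
      · nlinarith [sq_nonneg (1 / 2 - z.re)]
      have hexb : |b.re| + η ≤ ‖s - ⟨1 / 2, b.im⟩‖ := by
        rcases lt_or_gt_of_ne hb0 with h3 | h3
        · have h4 := hcon (-(conj b)) (by rw [h.sy.symm, hb, map_zero]) (by simpa using h3) (by simpa using hbi)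
          simp only [Complex.neg_re, Complex.conj_re, Complex.neg_im, Complex.conj_im, neg_neg] at h4
          rw [abs_of_neg h3]
          exact h4
        · rw [abs_of_pos h3]
          exact hcon b hb h3 hbi
      have h5 : |b.re| < ‖z - ⟨1 / 2, b.im⟩‖ := by
        have h6 := norm_sub_le_norm_sub_add_norm_sub s z (⟨1 / 2, b.im⟩ : ℂ)
        rw [norm_sub_rev s z] at h6
        linarith
      have h7 : ‖z - ⟨1 / 2, b.im⟩‖ ^ 2 = (1 / 2 - z.re) ^ 2 + (z.im - b.im) ^ 2 := by
        rw [← Complex.normSq_eq_norm_sq, Complex.normSq_apply]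
        simp only [Complex.sub_re, Complex.sub_im]
        ring
      rw [← h7, ← sq_abs b.re]
      gcongr)
    refine ⟨hzr, hzi, hout.1, hout.2.trans ?_⟩
    have h3 := hgam t (z - 1 / 2 - I * t) (by linarith) (by
      refine (Complex.norm_le_abs_re_add_abs_im _).trans ?_
      have e1 : (z - 1 / 2 - I * t : ℂ).re = z.re - 1 / 2 := by simp
      have e2 : (z - 1 / 2 - I * t : ℂ).im = z.im - t := by simp
      rw [e1, e2]
      have h4 : |z.re - 1 / 2| ≤ |M| + 2 := by
        rw [abs_le]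
        have := le_abs_self M
        constructor <;> linarith
      have h5 : |z.im - t| ≤ 1 := by
        rw [abs_le]
        constructor <;> linarith
      linarith)
    have e3 : (I * t + (z - 1 / 2 - I * t) : ℂ) = z - 1 / 2 := by ring
    rw [e3] at h3
    linarith
  have hk1 : (0 : ℝ) < k + 1 := by positivity
  have key := iter_pos (f := Z) (s0 := s) (R := η) (m := κ / 2 * Real.log t) k hηp
    (fun z hz => SX.an_upper h.dZ (by linarith [(hreg z hz).2.1])) (fun z hz => (hreg z hz).2.2.1)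
    (fun z hz => (hreg z hz).2.2.2) (by
      rw [hη, div_div_eq_mul_div, div_lt_iff₀ hCp, hC]
      have e : κ / 2 * Real.log t * (4 * k * (k + 1) / κ + 1) = 2 * k * (k + 1) * Real.log t + κ / 2 * Real.log t := by
        field_simp
        ring
      rw [e]
      have : 0 < κ / 2 * Real.log t := by positivity
      linarith) k le_rfl s (mem_ball_self (by
        have : (k : ℝ) / (k + 1) < 1 := by rw [div_lt_one hk1]; linarith
        apply mul_pos hηp
        linarith))
  exact key.1 hsz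

end

end Pool.Agent.N831.SD
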