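import Pool.Agent.N831.SD.K

set_option autoImplicit false

/-!
# Counting the zeros of the derivatives at good heights
-/

namespace Pool.Agent.N831.SD

open Complex Filter Topology Set Metric MeasureTheory
open scoped ComplexConjugate ENNReal
open Pool.Agent.H24R2.DZ (NN)

noncomputable section

variable {κ B : ℝ} {H X Z : ℂ → ℂ}

lemma an_iter {F : ℂ → ℂ} (h : ∀ s : ℂ, 0 < s.im → AnalyticAt ℂ F s) (k : ℕ) :
    ∀ s : ℂ, 0 < s.im → AnalyticAt ℂ (iteratedDeriv k F) s := by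
  induction k with
  | zero => simpa only [iteratedDeriv_zero] using h
  | succ k ih => intro s hs; rw [iteratedDeriv_succ]; exact (ih s hs).deriv

/-- Jensen's bound -/
theorem count_gen {W : ℂ → ℂ} {c : ℂ} {ρ Λ : ℝ} (hρ : 0 < ρ) (hΛ : 0 ≤ Λ) (hW : ∀ z ∈ closedBall c (4 * ρ), AnalyticAt ℂ W z)
    (hc : W c ≠ 0) (hb : ∀ z ∈ closedBall c (4 * ρ), ‖W z‖ ≤ Real.exp Λ * ‖W c‖) (S : Finset ℂ)
    (hS : ∀ s ∈ S, s ∈ closedBall c (3 * ρ)) : ∑ s ∈ S, (analyticOrderNatAt W s : ℝ) ≤ 4 * Λ := by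
  have hfc : 0 < ‖W c‖ := norm_pos_iff.2 hc
  obtain ⟨F, hF⟩ : ∃ F : ℂ → ℂ, F = fun z => (W c)⁻¹ * W z := ⟨_, rfl⟩
  have hFc : F c = 1 := by rw [hF]; exact inv_mul_cancel₀ hc
  have hFan : AnalyticOnNhd ℂ F (closedBall c (4 * ρ)) := by
    rw [hF]; exact fun z hz => analyticAt_const.mul (hW z hz)
  have hFb : ∀ z ∈ closedBall c (4 * ρ), ‖F z‖ ≤ Real.exp Λ := by
    intro z hz
    rw [hF]
    simp only
    rw [norm_mul, norm_inv, inv_mul_eq_div, div_le_iff₀ hfc]
    exact hb z hz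
  have key := H370.Loc.jensen_mult (f := F) (c := c) (r := 3 * ρ) (R := 4 * ρ) (M := Real.exp Λ)
    (by positivity) (by linarith) (Real.one_le_exp hΛ) hFan (by rw [hFc]; exact one_ne_zero) hFb S hS
  rw [hFc, norm_one, div_one, Real.log_exp] at key
  have e1 : 4 * ρ / (3 * ρ) = 4 / 3 := by field_simp
  rw [e1] at key
  have h10 : (1 : ℝ) / 4 ≤ Real.log (4 / 3) := by
    have := Real.one_sub_inv_le_log_of_pos (show (0 : ℝ) < 4 / 3 by norm_num)
    norm_num at this ⊢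
    linarith
  have e2 : ∀ s ∈ S, (H370.mult F s : ℝ) = (analyticOrderNatAt W s : ℝ) := by
    intro s hs
    have hs4 : s ∈ closedBall c (4 * ρ) := closedBall_subset_closedBall (by linarith) (hS s hs)
    have h5 : analyticOrderAt F s = analyticOrderAt W s := by
      have e3 : F = (fun _ => (W c)⁻¹) * W := by
        rw [hF]
        rfl
      rw [e3, analyticOrderAt_mul analyticAt_const (hW s hs4),
        (analyticAt_const (𝕜 := ℂ) (v := (W c)⁻¹) (x := s)).analyticOrderAt_eq_zero.2 (inv_ne_zero hc), zero_add]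
    unfold H370.mult analyticOrderNatAt
    rw [h5]
  rw [Finset.sum_congr rfl e2] at key
  refine key.trans ?_
  rw [div_le_iff₀ (by linarith)]
  nlinarith

/-- the derivatives near a centre with a bound -/
theorem count_bd {T ρ Λ M m : ℝ} (k : ℕ) (h : SX.Bd5 Z T ρ Λ M) (hZ : ∀ s : ℂ, 0 < s.im → AnalyticAt ℂ Z s)
    (hm : 1 ≤ m * ρ) (hlow : m ^ k * ‖Z ⟨1 / 2 - ρ, T⟩‖ ≤ ‖iteratedDeriv k Z ⟨1 / 2 - ρ, T⟩‖) (S : Finset ℂ)
    (hS : ∀ s ∈ S, s ∈ closedBall (⟨1 / 2 - ρ, T⟩ : ℂ) (3 * ρ)) :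
    ∑ s ∈ S, (analyticOrderNatAt (iteratedDeriv k Z) s : ℝ) ≤ 4 * (Λ + Real.log (k.factorial : ℝ)) := by
  have hρ := h.pos
  have hmp : 0 < m := by
    by_contra hc
    push Not at hc
    nlinarith
  obtain ⟨c, hc⟩ : ∃ c : ℂ, c = ⟨1 / 2 - ρ, T⟩ := ⟨_, rfl⟩
  have him : ∀ z ∈ closedBall c (5 * ρ), 0 < z.im := fun z hz => h.im_pos (by rwa [hc] at hz)
  have hb := h.hb
  have hc0 := h.zc
  rw [← hc] at hb hlow hS hc0
  have hfac : (1 : ℝ) ≤ k.factorial := by exact_mod_cast Nat.one_le_iff_ne_zero.2 (Nat.factorial_ne_zero k)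
  have hZc : 0 < ‖Z c‖ := norm_pos_iff.2 hc0
  have hWc : 0 < ‖iteratedDeriv k Z c‖ := lt_of_lt_of_le (by positivity) hlow
  refine count_gen hρ (add_nonneg h.Λ_nn (Real.log_nonneg hfac)) (fun z hz => an_iter hZ k z (him z
    (closedBall_subset_closedBall (by linarith) hz))) (norm_pos_iff.1 hWc) ?_ S hS
  intro z hz
  have h3 : ‖iteratedDeriv k Z z‖ ≤ k.factorial * (Real.exp Λ * ‖Z c‖) / ρ ^ k := by
    refine Complex.norm_iteratedDeriv_le_of_forall_mem_sphere_norm_le k hρ ?_ ?_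
    · have : DifferentiableOn ℂ Z (closedBall z ρ) := by
        intro w hw
        have hw5 : w ∈ closedBall c (5 * ρ) := by
          rw [mem_closedBall] at hw hz ⊢
          have := dist_triangle w z c
          linarith
        exact (hZ w (him w hw5)).differentiableAt.differentiableWithinAt
      exact this.diffContOnCl_ball subset_rfl
    · intro w hw
      apply hb
      rw [mem_sphere] at hw
      rw [mem_closedBall] at hz ⊢
      have := dist_triangle w z c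
      linarith
  have h4 : 1 ≤ (m * ρ) ^ k := one_le_pow₀ hm
  rw [Real.exp_add, Real.exp_log (by linarith)]
  calc ‖iteratedDeriv k Z z‖ ≤ k.factorial * (Real.exp Λ * ‖Z c‖) / ρ ^ k := h3
    _ ≤ k.factorial * (Real.exp Λ * ‖Z c‖) / ρ ^ k * (m * ρ) ^ k := le_mul_of_one_le_right (by positivity) h4
    _ = Real.exp Λ * k.factorial * (m ^ k * ‖Z c‖) := by rw [mul_pow]; field_simp
    _ ≤ _ := by gcongr

/-- zeros of the `k`-th derivative to the left -/
def Zk (k : ℕ) (M T0 : ℝ) (Z : ℂ → ℂ) (s : ℂ) : Prop :=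
  iteratedDeriv k Z s = 0 ∧ s.re < 1 / 2 ∧ -M ≤ s.re ∧ T0 < s.im

/-- the number of zeros in unit windows -/
theorem unit_k (h : SX.SD κ B H X Z) (k : ℕ) : ∃ C T0 : ℝ, 0 < C ∧ 2 ≤ T0 ∧ ∀ t : ℝ, T0 ≤ t → ∀ S : Finset ℂ,
    (∀ s ∈ S, s.re < 1 / 2 ∧ -1 ≤ s.re ∧ |t - s.im| ≤ 1) →
    ∑ s ∈ S, (analyticOrderNatAt (iteratedDeriv k Z) s : ℝ) ≤ C * Real.log t := by
  have hκ := h.κ_pos
  obtain ⟨A, C, T1, hA, hC, hT1, hBT1, hbd⟩ := h.bd_far
  obtain ⟨T2, hT2, hgam⟩ := gam_low h (R0 := A + 2) (by linarith)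
  obtain ⟨m0, hm0⟩ : ∃ m0 : ℝ, m0 = 8 * k * (k + 1) + 3 := ⟨_, rfl⟩
  have hm0p : 0 < m0 := by rw [hm0]; positivity
  have hfac : (1 : ℝ) ≤ k.factorial := by exact_mod_cast Nat.one_le_iff_ne_zero.2 (Nat.factorial_ne_zero k)
  have hlf := Real.log_nonneg hfac
  have hexp := Real.exp_pos (2 * m0 / κ)
  refine ⟨4 * (C + 2 * Real.log (k.factorial : ℝ)), T1 + T2 + |B| + 2 + Real.exp (2 * m0 / κ), by positivity,
    by linarith [abs_nonneg B], ?_⟩
  intro t ht S hS
  have hB := le_abs_self B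
  have hB0 := abs_nonneg B
  have hl := SX.log_ge_half (T := t) (by linarith)
  have hm : m0 ≤ κ / 2 * Real.log t := by
    have h1 : 2 * m0 / κ ≤ Real.log t := by
      rw [Real.le_log_iff_exp_le (by linarith)]
      linarith
    rw [div_le_iff₀ hκ] at h1
    linarith
  have hb5 := hbd t (by linarith)
  obtain ⟨c, hc⟩ : ∃ c : ℂ, c = ⟨1 / 2 - A, t⟩ := ⟨_, rfl⟩
  have hreg : ∀ z ∈ ball c (1 / 2), 0 < z.im ∧ Z z ≠ 0 ∧ (deriv Z z / Z z).re ≤ -(κ / 2 * Real.log t) := by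
    intro z hz
    rw [mem_ball_iff_norm] at hz
    have h1 := abs_lt.1 ((Complex.abs_re_le_norm (z - c)).trans_lt hz)
    have h2 := abs_lt.1 ((Complex.abs_im_le_norm (z - c)).trans_lt hz)
    rw [Complex.sub_re, hc] at h1
    rw [Complex.sub_im, hc] at h2
    simp only at h1 h2
    have h3 := h.left_of_mono (w := z - 1 / 2) (t := z.im) (by linarith) (by norm_num) (h.mono_half z.im)
      (by simp) (by simp; linarith)
    have e : (1 / 2 + (z - 1 / 2) : ℂ) = z := by ring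
    rw [e] at h3
    refine ⟨by linarith, h3.2.2.1, h3.2.2.2.trans ?_⟩
    have h4 := hgam t (z - 1 / 2 - I * t) (by linarith) (by
      refine (Complex.norm_le_abs_re_add_abs_im _).trans ?_
      have e1 : (z - 1 / 2 - I * t : ℂ).re = z.re - 1 / 2 := by simp
      have e2 : (z - 1 / 2 - I * t : ℂ).im = z.im - t := by simp
      rw [e1, e2]
      have h4 : |z.re - 1 / 2| ≤ A + 1 := by
        rw [abs_le]
        constructor <;> linarith
      have h5 : |z.im - t| ≤ 1 := by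
        rw [abs_le]
        constructor <;> linarith
      linarith)
    have e3 : (I * t + (z - 1 / 2 - I * t) : ℂ) = z - 1 / 2 := by ring
    rw [e3] at h4
    linarith
  have hsize := iter_size (f := Z) (s0 := c) (R := 1 / 2) (m := κ / 2 * Real.log t) k (by norm_num)
    (fun z hz => SX.an_upper h.dZ (hreg z hz).1) (fun z hz => (hreg z hz).2.1)
    (fun z hz => (hreg z hz).2.2) (by
      have e1 : 4 * k * (k + 1) / (1 / 2 : ℝ) = 8 * k * (k + 1) := by ring
      rw [e1]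
      linarith) k le_rfl
  rw [hc] at hsize
  have h1 := count_bd k hb5 (fun s hs => SX.an_upper h.dZ hs) (m := κ / 2 * Real.log t / 2) (by
    have : 3 ≤ κ / 2 * Real.log t := by
      have : 0 ≤ 8 * (k : ℝ) * (k + 1) := by positivity
      linarith
    nlinarith) hsize S (by
    intro s hs
    obtain ⟨h2, h3, h4⟩ := hS s hs
    rw [mem_closedBall, dist_eq_norm]
    refine (Complex.norm_le_abs_re_add_abs_im _).trans ?_
    rw [Complex.sub_re, Complex.sub_im]
    have e1 : |s.re - (1 / 2 - A)| ≤ A + 1 / 2 := by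
      rw [abs_le]
      constructor <;> linarith
    have e2 : |s.im - t| ≤ 1 := by rw [abs_sub_comm]; exact h4
    linarith)
  refine h1.trans ?_
  have : Real.log (k.factorial : ℝ) ≤ 2 * Real.log (k.factorial : ℝ) * Real.log t := by nlinarith
  nlinarith

/-- good heights -/
theorem good_k (h : SX.SD κ B H X Z) (k : ℕ) : ∃ C a0 T0 : ℝ, 0 < C ∧ 1 ≤ a0 ∧ 2 ≤ T0 ∧ B ≤ T0 ∧ ∀ T a ρ : ℝ, T0 ≤ T →
    a0 ≤ a → 0 < ρ → ρ ≤ 1 / 100 → |κ * ρ * Real.log T - a| ≤ κ → NN a (1 / 10) (fun z => X (I * T + ρ * z)) →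
    (∀ S : Finset ℂ, (∀ s ∈ S, s ∈ closedBall (⟨1 / 2 - ρ, T⟩ : ℂ) (3 * ρ)) →
      ∑ s ∈ S, (analyticOrderNatAt (iteratedDeriv k Z) s : ℝ) ≤ C * a) ∧
    (∀ s : ℂ, ρ ≤ 1 / 2 - s.re → 1 / 2 - s.re ≤ 2 * ρ → |s.im - T| ≤ ρ → iteratedDeriv k Z s ≠ 0) := by
  have hκ := h.κ_pos
  have hB1 := h.B_one
  obtain ⟨C, a1, T1, hC, ha1, hT1, hBT1, hbd⟩ := h.bd_good
  obtain ⟨T2, hT2, hgam⟩ := gam_low h (R0 := 20) (by norm_num)
  have hfac : (1 : ℝ) ≤ k.factorial := by exact_mod_cast Nat.one_le_iff_ne_zero.2 (Nat.factorial_ne_zero k)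
  have hlf := Real.log_nonneg hfac
  refine ⟨4 * (C + Real.log (k.factorial : ℝ)), a1 + κ + 32 * k * (k + 1) + 5, T1 + T2 + B + 1, by positivity, by
    have : 0 ≤ 32 * (k : ℝ) * (k + 1) := by positivity
    linarith, by linarith, by linarith, ?_⟩
  intro T a ρ hT ha hρ hρ1 hab hN
  have hkk : 0 ≤ 32 * (k : ℝ) * (k + 1) := by positivity
  have hap : 0 < a := by linarith
  have hab' := abs_le.1 hab
  have hb5 := hbd T a ρ (by linarith) (by linarith) hρ hρ1 hab hN
  have hm : 32 * k * (k + 1) + 4 < κ * ρ * Real.log T := by linarith [hab'.1]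
  have hreg : ∀ s0 : ℂ, ρ ≤ 1 / 2 - s0.re → 1 / 2 - s0.re ≤ 2 * ρ → |s0.im - T| ≤ ρ → ∀ z ∈ ball s0 (ρ / 4),
      0 < z.im ∧ Z z ≠ 0 ∧ (deriv Z z / Z z).re ≤ -(κ / 2 * Real.log T) := by
    intro s0 g1 g2 g3 z hz
    rw [mem_ball_iff_norm] at hz
    have h1 := abs_lt.1 ((Complex.abs_re_le_norm (z - s0)).trans_lt hz)
    have h2 := abs_lt.1 ((Complex.abs_im_le_norm (z - s0)).trans_lt hz)
    rw [Complex.sub_re] at h1
    rw [Complex.sub_im] at h2
    have g4 := abs_le.1 g3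
    obtain ⟨u, hu⟩ : ∃ u : ℂ, u = -(conj ((z - 1 / 2 - I * T) / ρ)) := ⟨_, rfl⟩
    have hρc : (ρ : ℂ) ≠ 0 := by exact_mod_cast hρ.ne'
    have hzu : (1 / 2 + (I * T + ρ * (-(conj u))) : ℂ) = z := by
      rw [hu, map_neg, Complex.conj_conj, neg_neg, mul_div_cancel₀ _ hρc]
      ring
    have hzu' : (I * T + ρ * (-(conj u)) : ℂ) = z - 1 / 2 := by
      rw [← hzu]; ring
    have hure : u.re = (1 / 2 - z.re) / ρ := by
      rw [hu, Complex.neg_re, Complex.conj_re, Complex.div_ofReal_re]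
      simp
      ring
    have huim : u.im = (z.im - T) / ρ := by
      rw [hu, Complex.neg_im, Complex.conj_im, Complex.div_ofReal_im]
      simp
    have hu1 : 1 / 1000 ≤ u.re := by rw [hure, le_div_iff₀ hρ]; linarith
    have hu2 : u.re ≤ 3 := by rw [hure, div_le_iff₀ hρ]; linarith
    have hu3 : |u.im| ≤ 2 := by
      rw [huim, abs_div, abs_of_pos hρ, div_le_iff₀ hρ, abs_le]
      constructor <;> linarith
    have hun : ‖u‖ ≤ 20 := by
      refine (Complex.norm_le_abs_re_add_abs_im u).trans ?_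
      rw [abs_of_pos (by linarith)]
      linarith
    obtain ⟨-, q1, q2⟩ := h.nn_left (t := T) (a := a) hap hρ hρ1 hN (u := u) hu1 hun (by
      rw [hzu']
      have : (z - 1 / 2 : ℂ).im = z.im := by simp
      rw [this]
      linarith)
    rw [hzu, hzu'] at q2
    rw [hzu] at q1
    refine ⟨by linarith, q1, q2.trans ?_⟩
    have h4 := hgam T (z - 1 / 2 - I * T) (by linarith) (by
      refine (Complex.norm_le_abs_re_add_abs_im _).trans ?_
      have e1 : (z - 1 / 2 - I * T : ℂ).re = z.re - 1 / 2 := by simp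
      have e2 : (z - 1 / 2 - I * T : ℂ).im = z.im - T := by simp
      rw [e1, e2]
      have h4 : |z.re - 1 / 2| ≤ 1 := by
        rw [abs_le]
        constructor <;> linarith
      have h5 : |z.im - T| ≤ 1 := by
        rw [abs_le]
        constructor <;> linarith
      linarith)
    have e3 : (I * T + (z - 1 / 2 - I * T) : ℂ) = z - 1 / 2 := by ring
    rw [e3] at h4
    linarith
  have hiter : 4 * k * (k + 1) / (ρ / 4) < κ / 2 * Real.log T := by
    rw [div_lt_iff₀ (by positivity)]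
    linarith
  have hk1 : (0 : ℝ) < k + 1 := by positivity
  constructor
  · intro S hS
    have g := hreg ⟨1 / 2 - ρ, T⟩ (by simp only; linarith) (by simp only; linarith) (by simp; exact hρ.le)
    have hsize := iter_size (f := Z) (s0 := ⟨1 / 2 - ρ, T⟩) (R := ρ / 4) (m := κ / 2 * Real.log T) k (by positivity)
      (fun z hz => SX.an_upper h.dZ (g z hz).1) (fun z hz => (g z hz).2.1)
      (fun z hz => (g z hz).2.2) hiter k le_rfl
    have h1 := count_bd k hb5 (fun s hs => SX.an_upper h.dZ hs) (m := κ / 2 * Real.log T / 2) (by nlinarith) hsize S hS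
    refine h1.trans ?_
    have ha1' : 1 ≤ a := by linarith
    have : Real.log (k.factorial : ℝ) ≤ Real.log (k.factorial : ℝ) * a := le_mul_of_one_le_right hlf ha1'
    nlinarith
  · intro s g1 g2 g3
    have g := hreg s g1 g2 g3
    have hm' : 2 * k * (k + 1) / (ρ / 4) < κ / 2 * Real.log T := by
      refine lt_of_le_of_lt ?_ hiter
      gcongr
      linarith
    have key := iter_pos (f := Z) (s0 := s) (R := ρ / 4) (m := κ / 2 * Real.log T) k (by positivity)
      (fun z hz => SX.an_upper h.dZ (g z hz).1) (fun z hz => (g z hz).2.1)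
      (fun z hz => (g z hz).2.2) hm' k le_rfl s (mem_ball_self (by
        have : (k : ℝ) / (k + 1) < 1 := by rw [div_lt_one hk1]; linarith
        apply mul_pos (by positivity)
        linarith))
    exact key.1

end

end Pool.Agent.N831.SD
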