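import Pool.Agent.N831.SD.L

set_option autoImplicit false

/-!
# Zeros of the derivatives: one band, one block
-/

namespace Pool.Agent.N831.SD

open Complex Filter Topology Set Metric MeasureTheory
open scoped ComplexConjugate ENNReal
open Pool.Agent.H24R2.DZ (NN)
open Pool.Agent.N831.SX (int_count geo)

noncomputable section

variable {κ B : ℝ} {H X Z : ℂ → ℂ}

/-- zeros of the derivative at distance about `r` from the line -/
theorem band_k (h : SX.SD κ B H X Z) (kk : ℕ) : ∃ c C a0 T0 : ℝ, 0 < c ∧ 0 < C ∧ 1 ≤ a0 ∧ 2 ≤ T0 ∧ ∀ T r : ℝ, T0 ≤ T →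
    a0 ≤ κ * r * Real.log T → 0 < r → r ≤ 1 / 400 → κ * r ≤ 1 / 400 → ∀ S : Finset ℂ,
    (∀ s ∈ S, iteratedDeriv kk Z s = 0 ∧ r ≤ 1 / 2 - s.re ∧ 1 / 2 - s.re ≤ 2 * r ∧ T < s.im ∧ s.im ≤ 2 * T) →
    ∑ s ∈ S, (analyticOrderNatAt (iteratedDeriv kk Z) s : ℝ) ≤ C * T * Real.log T * Real.exp (-(c * (κ * r * Real.log T))) := by
  classical
  have hκ := h.κ_pos
  have hB1 := h.B_one
  obtain ⟨C0, T1, hC0, hT1, hunit⟩ := unit_k h kk
  obtain ⟨C2, a2, T2, hC2, ha2, hT2, hT2B, hgood⟩ := good_k h kk
  obtain ⟨cg, Cg, ag, Tg, hcg, hCg, hag, hTg, hG⟩ := h.good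
  obtain ⟨c3, hc3, hc3a, hc3b, hc3c⟩ : ∃ c3 : ℝ, 0 < c3 ∧ c3 ≤ κ / 200 ∧ c3 ≤ 1 / 200 ∧
      (κ / 200 ≤ c3 ∨ 1 / 200 ≤ c3) := by
    refine ⟨min (κ / 200) (1 / 200), by positivity, min_le_left _ _, min_le_right _ _, ?_⟩
    rcases min_choice (κ / 200) (1 / 200 : ℝ) with h | h
    · exact Or.inl h.ge
    · exact Or.inr h.ge
  obtain ⟨C4, hC4, hC4a, hC4b⟩ : ∃ C4 : ℝ, 0 < C4 ∧ 4 * (C2 + 1) ≤ C4 ∧ 3 * C0 ≤ C4 * c3 := by
    refine ⟨4 * (C2 + 1) + 3 * C0 / c3, by positivity, by
      have : 0 < 3 * C0 / c3 := by positivity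
      linarith, ?_⟩
    have e : (4 * (C2 + 1) + 3 * C0 / c3) * c3 = 4 * (C2 + 1) * c3 + 3 * C0 := by field_simp
    rw [e]
    have : 0 < 4 * (C2 + 1) * c3 := by positivity
    linarith
  obtain ⟨q, hq⟩ : ∃ q : ℝ, q = Real.exp (-(cg / (2 * C4))) := ⟨_, rfl⟩
  have hq0 : 0 < q := by rw [hq]; exact Real.exp_pos _
  have hq1 : q < 1 := by
    rw [hq, Real.exp_lt_one_iff]
    have : 0 < cg / (2 * C4) := by positivity
    linarith
  have hq1' : 0 < 1 - q := by linarith
  refine ⟨cg / 2, Cg * κ / (1 - q), a2 + ag, 2 * (T1 + T2 + Tg + B), by positivity, by positivity, by linarith,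
    by linarith, ?_⟩
  intro T r hT ha hr hr1 hκr S hS
  have hTp : 0 < T := by linarith
  have hL : 0 < Real.log T := Real.log_pos (by linarith)
  obtain ⟨a, hadef⟩ : ∃ a : ℝ, a = κ * r * Real.log T := ⟨_, rfl⟩
  rw [← hadef] at ha ⊢
  have ha1 : 1 ≤ a := by linarith
  have key := int_count S (fun s => analyticOrderNatAt (iteratedDeriv kk Z) s) hr
  -- the tail
  have hk : ∀ k : ℕ, volume {t : ℝ | k < ∑ s ∈ S.filter (fun s => |t - s.im| ≤ r), analyticOrderNatAt (iteratedDeriv kk Z) s} ≤
      ENNReal.ofReal (Cg * T * Real.exp (-(cg / 2 * a)) * q ^ k) := by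
    intro k
    obtain ⟨a', ha'⟩ : ∃ a' : ℝ, a' = max a (k / C4) := ⟨_, rfl⟩
    have ha'1 : a ≤ a' := by rw [ha']; exact le_max_left _ _
    have ha'2 : k / C4 ≤ a' := by rw [ha']; exact le_max_right _ _
    have ha'p : 0 < a' := by linarith
    -- heights in question
    have hloc : ∀ t : ℝ, k < ∑ s ∈ S.filter (fun s => |t - s.im| ≤ r), analyticOrderNatAt (iteratedDeriv kk Z) s →
        T / 2 ≤ t ∧ t ≤ 3 * T := by
      intro t ht
      have hne : (S.filter (fun s => |t - s.im| ≤ r)).Nonempty := by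
        rw [Finset.nonempty_iff_ne_empty]
        intro h0
        rw [h0, Finset.sum_empty] at ht
        exact absurd ht (Nat.not_lt_zero _)
      obtain ⟨s, hs⟩ := hne
      obtain ⟨h1, h2⟩ := Finset.mem_filter.1 hs
      obtain ⟨-, -, -, h5, h6⟩ := hS s h1
      have := abs_le.1 h2
      constructor <;> linarith
    have hfin : ENNReal.ofReal (Cg * T * Real.exp (-(cg * a'))) ≤
        ENNReal.ofReal (Cg * T * Real.exp (-(cg / 2 * a)) * q ^ k) := by
      apply ENNReal.ofReal_le_ofReal
      have e1 : Real.exp (-(cg * a')) ≤ Real.exp (-(cg / 2 * a)) * q ^ k := by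
        rw [hq, ← Real.exp_nat_mul, ← Real.exp_add]
        apply Real.exp_le_exp.2
        have e2 : cg / 2 * (k / C4) ≤ cg / 2 * a' := by gcongr
        have e3 : cg / 2 * a ≤ cg / 2 * a' := by gcongr
        have e4 : (k : ℝ) * -(cg / (2 * C4)) = -(cg / 2 * (k / C4)) := by field_simp
        rw [e4]
        linarith
      calc Cg * T * Real.exp (-(cg * a')) ≤ Cg * T * (Real.exp (-(cg / 2 * a)) * q ^ k) := by gcongr
        _ = _ := by ring
    by_cases hbig : c3 * Real.log T < a'
    · -- empty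
      have hemp : {t : ℝ | k < ∑ s ∈ S.filter (fun s => |t - s.im| ≤ r), analyticOrderNatAt (iteratedDeriv kk Z) s} = ∅ := by
        rw [Set.eq_empty_iff_forall_notMem]
        intro t ht
        rw [Set.mem_ofPred_eq] at ht
        obtain ⟨h1, h2⟩ := hloc t ht
        have h3 := hunit t (by linarith) (S.filter (fun s => |t - s.im| ≤ r)) (by
          intro s hs
          obtain ⟨h4, h5⟩ := Finset.mem_filter.1 hs
          obtain ⟨-, h6, h7, -, -⟩ := hS s h4
          exact ⟨by linarith, by linarith, by linarith⟩)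
        have h4 : Real.log t ≤ 3 * Real.log T := by
          have h5 : Real.log t ≤ Real.log (3 * T) := Real.log_le_log (by linarith) h2
          rw [Real.log_mul (by norm_num) hTp.ne'] at h5
          have h6 : Real.log 3 ≤ 2 * Real.log T := by
            have h7 : Real.log 3 ≤ Real.log (T ^ 2) := Real.log_le_log (by norm_num) (by nlinarith)
            rw [Real.log_pow] at h7
            exact_mod_cast h7
          linarith
        have h5 : (k : ℝ) < ∑ s ∈ S.filter (fun s => |t - s.im| ≤ r), (analyticOrderNatAt (iteratedDeriv kk Z) s : ℝ) := by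
          exact_mod_cast ht
        -- `a' = k / C4`
        have h6 : a < a' := by
          refine lt_of_le_of_lt ?_ hbig
          rw [hadef]
          have h8 : κ * r ≤ c3 := by
            rcases hc3c with h7 | h7
            · have : κ * r ≤ κ * (1 / 400) := by gcongr
              linarith
            · linarith
          gcongr
        have h7 : a' = k / C4 := by
          rcases max_choice a (k / C4) with h8 | h8
          · rw [ha', h8] at h6
            exact absurd h6 (lt_irrefl _)
          · rw [ha', h8]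
        have h8 : (k : ℝ) = C4 * a' := by rw [h7]; field_simp
        have h9 : C4 * (c3 * Real.log T) < k := by rw [h8]; gcongr
        have h10 : C0 * Real.log t ≤ C4 * (c3 * Real.log T) := by
          calc C0 * Real.log t ≤ C0 * (3 * Real.log T) := by gcongr
            _ = 3 * C0 * Real.log T := by ring
            _ ≤ C4 * c3 * Real.log T := by gcongr
            _ = _ := by ring
        linarith
      rw [hemp, measure_empty]
      exact bot_le
    · push Not at hbig
      obtain ⟨r', hr'⟩ : ∃ r' : ℝ, r' = a' / (κ * Real.log T) := ⟨_, rfl⟩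
      have hr'0 : 0 < r' := by rw [hr']; positivity
      have hra : κ * r' * Real.log T = a' := by rw [hr']; field_simp
      have hrr : r ≤ r' := by
        rw [hr', le_div_iff₀ (by positivity)]
        calc r * (κ * Real.log T) = a := by rw [hadef]; ring
          _ ≤ a' := ha'1
      have hr'1 : r' ≤ 1 / 200 := by
        rw [hr', div_le_iff₀ (by positivity)]
        calc a' ≤ c3 * Real.log T := hbig
          _ ≤ κ / 200 * Real.log T := by gcongr
          _ = _ := by ring
      have hκr' : κ * r' ≤ 1 / 200 := by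
        have e : κ * r' = a' / Real.log T := by rw [hr']; field_simp
        rw [e, div_le_iff₀ hL]
        calc a' ≤ c3 * Real.log T := hbig
          _ ≤ 1 / 200 * Real.log T := by gcongr
      refine le_trans ?_ ((hG T a' r' (by linarith) (by linarith) hr'0 hr'1 hκr' hra).trans hfin)
      refine measure_mono fun t ht => ?_
      rw [Set.mem_ofPred_eq] at ht
      obtain ⟨h1, h2⟩ := hloc t ht
      refine ⟨h1, h2, fun hN => ?_⟩
      have htp : 0 < t := by linarith
      have h5 : |κ * r' * Real.log t - a'| ≤ κ := by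
        have h6 : κ * r' * Real.log t - a' = κ * r' * (Real.log t - Real.log T) := by
          rw [← hra]; ring
        have h7 : |Real.log t - Real.log T| ≤ 2 := by
          have h9 : Real.log (T / 2) ≤ Real.log t := Real.log_le_log (by linarith) h1
          have h10 : Real.log t ≤ Real.log (3 * T) := Real.log_le_log htp h2
          rw [Real.log_div hTp.ne' (by norm_num)] at h9
          rw [Real.log_mul (by norm_num) hTp.ne'] at h10
          have h11 := Real.log_two_lt_d9
          have h12 : Real.log 3 ≤ 2 := by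
            have := Real.log_le_sub_one_of_pos (show (0 : ℝ) < 3 by norm_num)
            linarith
          rw [abs_le]
          constructor <;> linarith
        have h10 : 0 < κ * r' := by positivity
        rw [h6, abs_mul, abs_of_pos h10]
        nlinarith
      have hbd := hgood t a' r' (by linarith) (by linarith) hr'0 (by linarith) h5 hN
      rcases lt_or_ge (k / C4 : ℝ) a with h8 | h8
      · -- no zeros at all
        have h9 : a' = a := by rw [ha']; exact max_eq_left h8.le
        have h10 : r' = r := by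
          have h11 : κ * r' * Real.log T = κ * r * Real.log T := by rw [hra, h9, hadef]
          have h12 : (κ * Real.log T) * r' = (κ * Real.log T) * r := by linarith
          exact mul_left_cancel₀ (by positivity) h12
        have hemp : S.filter (fun s => |t - s.im| ≤ r) = ∅ := by
          rw [Finset.eq_empty_iff_forall_notMem]
          intro s hs
          obtain ⟨h11, h12⟩ := Finset.mem_filter.1 hs
          obtain ⟨h13, h14, h15, h16, h17⟩ := hS s h11
          exact hbd.2 s (by rw [h10]; exact h14) (by rw [h10]; exact h15) (by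
            rw [h10, abs_sub_comm]
            exact h12) h13
        rw [hemp, Finset.sum_empty] at ht
        exact absurd ht (Nat.not_lt_zero _)
      · have h9 : a' = k / C4 := by rw [ha']; exact max_eq_right h8
        have h10 := hbd.1 (S.filter (fun s => |t - s.im| ≤ r)) (by
          intro s hs
          obtain ⟨h11, h12⟩ := Finset.mem_filter.1 hs
          obtain ⟨h13, h14, h15, h16, h17⟩ := hS s h11
          rw [mem_closedBall, dist_eq_norm]
          refine (Complex.norm_le_abs_re_add_abs_im _).trans ?_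
          rw [Complex.sub_re, Complex.sub_im]
          have e1 : |s.re - (1 / 2 - r')| ≤ r' := by
            rw [abs_le]
            constructor <;> linarith
          have e2 : |s.im - t| ≤ r := by rw [abs_sub_comm]; exact h12
          linarith)
        have h11 : (k : ℝ) < ∑ s ∈ S.filter (fun s => |t - s.im| ≤ r), (analyticOrderNatAt (iteratedDeriv kk Z) s : ℝ) := by
          exact_mod_cast ht
        have h12 : (k : ℝ) = C4 * a' := by rw [h9]; field_simp
        have h13 : C2 * a' ≤ C4 * a' := by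
          have : C2 ≤ C4 := by linarith
          gcongr
        linarith
  have hsum := key.trans (ENNReal.tsum_le_tsum hk)
  rw [geo (by positivity) hq0.le hq1, ENNReal.ofReal_le_ofReal_iff (by positivity)] at hsum
  -- conclusion
  have h1 : κ * Real.log T * (2 * r * ∑ s ∈ S, (analyticOrderNatAt (iteratedDeriv kk Z) s : ℝ)) ≤
      κ * Real.log T * (Cg * T * Real.exp (-(cg / 2 * a)) / (1 - q)) := by
    gcongr
  have h2 : κ * Real.log T * (2 * r * ∑ s ∈ S, (analyticOrderNatAt (iteratedDeriv kk Z) s : ℝ)) =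
      2 * a * ∑ s ∈ S, (analyticOrderNatAt (iteratedDeriv kk Z) s : ℝ) := by rw [hadef]; ring
  have h3 : (0 : ℝ) ≤ ∑ s ∈ S, (analyticOrderNatAt (iteratedDeriv kk Z) s : ℝ) := Finset.sum_nonneg fun s _ => Nat.cast_nonneg _
  have h4 : ∑ s ∈ S, (analyticOrderNatAt (iteratedDeriv kk Z) s : ℝ) ≤ 2 * a * ∑ s ∈ S, (analyticOrderNatAt (iteratedDeriv kk Z) s : ℝ) := by
    nlinarith
  refine h4.trans ?_
  rw [← h2]
  refine h1.trans (le_of_eq ?_)
  field_simp


/-- all zeros in a block -/
theorem total_k (h : SX.SD κ B H X Z) (kk : ℕ) : ∃ C T0 : ℝ, 0 < C ∧ 2 ≤ T0 ∧ ∀ T : ℝ, T0 ≤ T → ∀ S : Finset ℂ,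
    (∀ s ∈ S, (s.re < 1 / 2 ∧ -1 ≤ s.re) ∧ T < s.im ∧ s.im ≤ 2 * T) →
    ∑ s ∈ S, (analyticOrderNatAt (iteratedDeriv kk Z) s : ℝ) ≤ C * T * Real.log T := by
  classical
  obtain ⟨C, T0, hC, hT0, hunit⟩ := unit_k h kk
  refine ⟨4 * C, T0 + 2, by positivity, by linarith, fun T hT S hS => ?_⟩
  have hTp : 0 < T := by linarith
  have hL := SX.log_ge_half (T := T) (by linarith)
  have hmaps : ∀ s ∈ S, ⌊s.im⌋ ∈ Finset.Icc ⌊T⌋ ⌊2 * T⌋ := by
    intro s hs
    rw [Finset.mem_Icc]
    exact ⟨Int.floor_le_floor (hS s hs).2.1.le, Int.floor_le_floor (hS s hs).2.2⟩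
  rw [← Finset.sum_fiberwise_of_maps_to hmaps]
  have h1 : ∀ j ∈ Finset.Icc ⌊T⌋ ⌊2 * T⌋, ∑ s ∈ S with ⌊s.im⌋ = j, (analyticOrderNatAt (iteratedDeriv kk Z) s : ℝ) ≤
      C * (2 * Real.log T) := by
    intro j hj
    rw [Finset.mem_Icc] at hj
    have hj1 : T - 1 ≤ j := by
      have h2 : (⌊T⌋ : ℝ) ≤ j := by exact_mod_cast hj.1
      have := Int.sub_one_lt_floor T
      linarith
    have hj2 : (j : ℝ) ≤ 2 * T := by
      have h2 : (j : ℝ) ≤ (⌊2 * T⌋ : ℝ) := by exact_mod_cast hj.2
      exact h2.trans (Int.floor_le _)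
    refine (hunit j (by linarith) _ ?_).trans ?_
    · intro s hs
      obtain ⟨h2, h3⟩ := Finset.mem_filter.1 hs
      refine ⟨(hS s h2).1.1, (hS s h2).1.2, ?_⟩
      rw [← h3, abs_le]
      have h4 := Int.floor_le s.im
      have h5 := Int.lt_floor_add_one s.im
      constructor <;> linarith
    · have h4 : Real.log j ≤ 2 * Real.log T := by
        have h5 : Real.log j ≤ Real.log (T ^ 2) := Real.log_le_log (by linarith) (by nlinarith)
        rw [Real.log_pow] at h5
        exact_mod_cast h5
      gcongr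
  refine (Finset.sum_le_sum h1).trans ?_
  rw [Finset.sum_const, nsmul_eq_mul, Int.card_Icc]
  have h2 : (((⌊2 * T⌋ + 1 - ⌊T⌋).toNat : ℕ) : ℝ) ≤ 2 * T := by
    have h3 : (0 : ℤ) ≤ ⌊2 * T⌋ + 1 - ⌊T⌋ := by
      have : ⌊T⌋ ≤ ⌊2 * T⌋ := Int.floor_le_floor (by linarith)
      linarith
    have h4 : (((⌊2 * T⌋ + 1 - ⌊T⌋).toNat : ℕ) : ℝ) = ((⌊2 * T⌋ + 1 - ⌊T⌋ : ℤ) : ℝ) := by
      have := Int.toNat_of_nonneg h3
      exact_mod_cast this
    rw [h4]
    push_cast
    have h5 := Int.floor_le (2 * T)
    have h6 := Int.sub_one_lt_floor T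
    linarith
  calc (((⌊2 * T⌋ + 1 - ⌊T⌋).toNat : ℕ) : ℝ) * (C * (2 * Real.log T)) ≤ (2 * T) * (C * (2 * Real.log T)) := by
        gcongr
    _ = 4 * C * T * Real.log T := by ring


end

end Pool.Agent.N831.SD
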