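import Pool.Agent.N831.SD.M

set_option autoImplicit false

/-!
# Transfer
-/

namespace Pool.Agent.N831.SD

open Complex Filter Topology Set Metric MeasureTheory
open scoped ComplexConjugate ENNReal

noncomputable section

variable {κ B : ℝ} {H X Z : ℂ → ℂ}

/-- windows of any length -/
theorem unit_Y (h : SX.SD κ B H X Z) (kk : ℕ) {Y : ℝ} (hY : 0 < Y) : ∃ C T0 : ℝ, 0 < C ∧ 2 ≤ T0 ∧ ∀ t : ℝ, T0 ≤ t →
    ∀ S : Finset ℂ, (∀ s ∈ S, s.re < 1 / 2 ∧ -1 ≤ s.re ∧ |t - s.im| ≤ Y) →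
    ∑ s ∈ S, (analyticOrderNatAt (iteratedDeriv kk Z) s : ℝ) ≤ C * Real.log t := by
  classical
  obtain ⟨C, T0, hC, hT0, hunit⟩ := unit_k h kk
  refine ⟨(2 * Y + 2) * (2 * C), T0 + 2 * Y + 2, by positivity, by linarith, fun t ht S hS => ?_⟩
  have hmaps : ∀ s ∈ S, ⌊s.im⌋ ∈ Finset.Icc ⌊t - Y⌋ ⌊t + Y⌋ := by
    intro s hs
    have h1 := abs_le.1 (hS s hs).2.2
    rw [Finset.mem_Icc]
    exact ⟨Int.floor_le_floor (by linarith), Int.floor_le_floor (by linarith)⟩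
  rw [← Finset.sum_fiberwise_of_maps_to hmaps]
  have hl := SX.log_ge_half (T := t) (by linarith)
  have h1 : ∀ j ∈ Finset.Icc ⌊t - Y⌋ ⌊t + Y⌋, ∑ s ∈ S with ⌊s.im⌋ = j,
      (analyticOrderNatAt (iteratedDeriv kk Z) s : ℝ) ≤ C * (2 * Real.log t) := by
    intro j hj
    rw [Finset.mem_Icc] at hj
    have hj1 : t - Y - 1 ≤ j := by
      have h2 : (⌊t - Y⌋ : ℝ) ≤ j := by exact_mod_cast hj.1
      have := Int.sub_one_lt_floor (t - Y)
      linarith
    have hj2 : (j : ℝ) ≤ t + Y := by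
      have h2 : (j : ℝ) ≤ (⌊t + Y⌋ : ℝ) := by exact_mod_cast hj.2
      exact h2.trans (Int.floor_le _)
    refine (hunit j (by linarith) _ ?_).trans ?_
    · intro s hs
      obtain ⟨h2, h3⟩ := Finset.mem_filter.1 hs
      refine ⟨(hS s h2).1, (hS s h2).2.1, ?_⟩
      rw [← h3, abs_le]
      have h4 := Int.floor_le s.im
      have h5 := Int.lt_floor_add_one s.im
      constructor <;> linarith
    · have h4 : Real.log j ≤ 2 * Real.log t := by
        have h5 : Real.log j ≤ Real.log (t ^ 2) := Real.log_le_log (by linarith) (by nlinarith)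
        rw [Real.log_pow] at h5
        exact_mod_cast h5
      gcongr
  refine (Finset.sum_le_sum h1).trans ?_
  rw [Finset.sum_const, nsmul_eq_mul, Int.card_Icc]
  have h2 : (((⌊t + Y⌋ + 1 - ⌊t - Y⌋).toNat : ℕ) : ℝ) ≤ 2 * Y + 2 := by
    have h3 : (0 : ℤ) ≤ ⌊t + Y⌋ + 1 - ⌊t - Y⌋ := by
      have : ⌊t - Y⌋ ≤ ⌊t + Y⌋ := Int.floor_le_floor (by linarith)
      linarith
    have h4 : (((⌊t + Y⌋ + 1 - ⌊t - Y⌋).toNat : ℕ) : ℝ) = ((⌊t + Y⌋ + 1 - ⌊t - Y⌋ : ℤ) : ℝ) := by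
      have := Int.toNat_of_nonneg h3
      exact_mod_cast this
    rw [h4]
    push_cast
    have h5 := Int.floor_le (t + Y)
    have h6 := Int.sub_one_lt_floor (t - Y)
    linarith
  calc (((⌊t + Y⌋ + 1 - ⌊t - Y⌋).toNat : ℕ) : ℝ) * (C * (2 * Real.log t)) ≤ (2 * Y + 2) * (C * (2 * Real.log t)) := by
        gcongr
    _ = (2 * Y + 2) * (2 * C) * Real.log t := by ring

/-- a zero of the completed function to the left of a zero of a derivative -/
theorem loc_k (h : SX.SD κ B H X Z) (hfe : FE κ H X Z) (kk : ℕ) (M : ℝ) : ∃ Y Tk : ℝ, 0 < Y ∧ 2 ≤ Tk ∧ B ≤ Tk ∧ Y < Tk ∧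
    ∀ s : ℂ, Zk kk M Tk Z s → 0 ≤ s.re ∧ ∃ b : ℂ, X b = 0 ∧ b.re < 0 ∧ 1 / 2 - s.re ≤ |b.re| ∧ 0 < b.im ∧ |b.im - s.im| ≤ Y := by
  obtain ⟨Y, T0, hY, hT0, hYT, hl⟩ := hfe.left kk M
  refine ⟨Y, T0 + |B|, hY, by linarith [abs_nonneg B], by linarith [le_abs_self B], by linarith [abs_nonneg B], ?_⟩
  rintro s ⟨h1, h2, h3, h4⟩
  obtain ⟨ρ, h5, h6, h7⟩ := hl s (by linarith [abs_nonneg B]) h3 h2.le h1
  have h8 := abs_le.1 h6
  have hi : 0 < ρ.im := by linarith [abs_nonneg B]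
  have hX : X (ρ - 1 / 2) = 0 := by
    have := h.eq (ρ - 1 / 2) (by simpa using hi)
    rw [this]
    have e : (1 / 2 + (ρ - 1 / 2) : ℂ) = ρ := by ring
    rw [e, h5, mul_zero]
  have hre : (ρ - 1 / 2 : ℂ).re = ρ.re - 1 / 2 := by simp
  have him : (ρ - 1 / 2 : ℂ).im = ρ.im := by simp
  have hst := abs_le.1 (h.strip _ hX)
  rw [hre] at hst
  have hle : ρ.re ≤ s.re := by
    rcases h7 with h7 | h7
    · exact h7.le
    · rw [h7]
  refine ⟨by linarith, ρ - 1 / 2, hX, by rw [hre]; linarith, ?_, by rw [him]; exact hi, by rw [him]; exact h6⟩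
  rw [hre, abs_of_nonpos (by linarith)]
  linarith

lemma Zk_finite (h : SX.SD κ B H X Z) (kk : ℕ) {M Tk : ℝ} (hTk : 2 ≤ Tk)
    (hne : ∃ s : ℂ, 0 < s.im ∧ iteratedDeriv kk Z s ≠ 0) (T : ℝ) : {s | Zk kk M Tk Z s ∧ s.im ≤ T}.Finite := by
  have hua : SX.UA (iteratedDeriv kk Z) := ⟨an_iter (fun s hs => SX.an_upper h.dZ hs) kk, hne⟩
  have hK : IsCompact (Icc (-M) (1 / 2) ×ℂ Icc Tk T) := (isCompact_Icc).reProdIm isCompact_Icc
  have h1 := hua.finite (K := Icc (-M) (1 / 2) ×ℂ Icc Tk T) (fun s hs => by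
    have : Tk ≤ s.im := hs.2.1
    linarith) hK
  refine h1.subset ?_
  rintro s ⟨⟨g1, g2, g3, g4⟩, g5⟩
  exact ⟨⟨⟨g3, g2.le⟩, g4.le, g5⟩, g1⟩

/-- **Transfer.** -/
theorem transfer_k (h : SX.SD κ B H X Z) (kk : ℕ) {M Y Tk : ℝ} (hY : 0 < Y) (hTk : 2 ≤ Tk)
    (hne : ∃ s : ℂ, 0 < s.im ∧ iteratedDeriv kk Z s ≠ 0)
    (hloc : ∀ s : ℂ, Zk kk M Tk Z s → 0 ≤ s.re ∧ ∃ b : ℂ, X b = 0 ∧ b.re < 0 ∧ 1 / 2 - s.re ≤ |b.re| ∧ 0 < b.im ∧
      |b.im - s.im| ≤ Y) : ∃ C : ℝ, 0 < C ∧ ∀ δ T : ℝ, 0 ≤ δ → 2 ≤ T → ∀ S : Finset ℂ,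
    (∀ s ∈ S, Zk kk M Tk Z s ∧ δ ≤ 1 / 2 - s.re ∧ s.im ≤ T) →
    ∑ s ∈ S, (analyticOrderNatAt (iteratedDeriv kk Z) s : ℝ) ≤
      C * Real.log T * ((Pool.Agent.Y22.RX.S X δ (T + Y) ∩ {b | b.re < 0}).ncard : ℝ) := by
  classical
  obtain ⟨C, T0, hC, hT0, hunit⟩ := unit_Y h kk hY
  obtain ⟨cd, Cd, hcd, hCd, hD⟩ := h.dens
  obtain ⟨T1, hT1⟩ : ∃ T1 : ℝ, T1 = T0 + Y := ⟨_, rfl⟩
  have hf := Zk_finite h kk (M := M) hTk hne T1
  obtain ⟨K0, hK0⟩ : ∃ K0 : ℝ, K0 = ∑ s ∈ hf.toFinset, (analyticOrderNatAt (iteratedDeriv kk Z) s : ℝ) := ⟨_, rfl⟩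
  have hK0n : 0 ≤ K0 := by rw [hK0]; exact Finset.sum_nonneg fun s _ => Nat.cast_nonneg _
  refine ⟨C * (2 + 2 * Real.log (1 + Y)) + 2 * K0, by
    have : 0 < Real.log (1 + Y) := Real.log_pos (by linarith)
    positivity, fun δ T hδ hT S hS => ?_⟩
  have hTp : 0 < T := by linarith
  have hL := SX.log_ge_half hT
  have hfin : (Pool.Agent.Y22.RX.S X δ (T + Y) ∩ {b | b.re < 0}).Finite :=
    (hD δ (T + Y) hδ (by linarith)).1.subset inter_subset_left
  -- the attached zeros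
  have hex : ∀ s : ℂ, ∃ b : ℂ, s ∈ S → (b ∈ Pool.Agent.Y22.RX.S X δ (T + Y) ∩ {b | b.re < 0} ∧ |b.im - s.im| ≤ Y) := by
    intro s
    by_cases hs : s ∈ S
    · obtain ⟨h1, h4, h5⟩ := hS s hs
      obtain ⟨-, b, g1, g6, g2, g3, g4⟩ := hloc s h1
      have g5 := abs_le.1 g4
      exact ⟨b, fun _ => ⟨⟨⟨g1, by linarith, g3, by linarith⟩, g6⟩, g4⟩⟩
    · exact ⟨0, fun h => absurd h hs⟩
  choose g hg using hex
  obtain ⟨N, hN⟩ : ∃ N : ℝ, N = ((Pool.Agent.Y22.RX.S X δ (T + Y) ∩ {b | b.re < 0}).ncard : ℝ) := ⟨_, rfl⟩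
  have hNn : 0 ≤ N := by rw [hN]; exact Nat.cast_nonneg _
  rw [← hN, ← Finset.sum_filter_add_sum_filter_not S (fun s => s.im ≤ T1)]
  have hlow : ∑ s ∈ S with s.im ≤ T1, (analyticOrderNatAt (iteratedDeriv kk Z) s : ℝ) ≤ K0 * N := by
    rcases (S.filter (fun s => s.im ≤ T1)).eq_empty_or_nonempty with h0 | ⟨s, hs⟩
    · rw [h0, Finset.sum_empty]
      positivity
    · have h1 : 1 ≤ N := by
        have h2 : 0 < (Pool.Agent.Y22.RX.S X δ (T + Y) ∩ {b | b.re < 0}).ncard := by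
          rw [Set.ncard_pos hfin]
          exact ⟨g s, (hg s (Finset.mem_filter.1 hs).1).1⟩
        have h3 : 1 ≤ (Pool.Agent.Y22.RX.S X δ (T + Y) ∩ {b | b.re < 0}).ncard := h2
        rw [hN]
        exact_mod_cast h3
      have h2 : ∑ s ∈ S with s.im ≤ T1, (analyticOrderNatAt (iteratedDeriv kk Z) s : ℝ) ≤ K0 := by
        rw [hK0]
        refine Finset.sum_le_sum_of_subset_of_nonneg ?_ fun s _ _ => Nat.cast_nonneg _
        intro s hs
        rw [Set.Finite.mem_toFinset]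
        exact ⟨(hS s (Finset.mem_filter.1 hs).1).1, (Finset.mem_filter.1 hs).2⟩
      refine h2.trans ?_
      nlinarith
  have hhigh : ∑ s ∈ S with ¬ s.im ≤ T1, (analyticOrderNatAt (iteratedDeriv kk Z) s : ℝ) ≤
      C * (2 + 2 * Real.log (1 + Y)) * Real.log T * N := by
    have hmaps : ∀ s ∈ S.filter (fun s => ¬ s.im ≤ T1), g s ∈ hfin.toFinset := by
      intro s hs
      rw [Set.Finite.mem_toFinset]
      exact (hg s (Finset.mem_filter.1 hs).1).1
    rw [← Finset.sum_fiberwise_of_maps_to hmaps]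
    have h1 : ∀ b ∈ hfin.toFinset, ∑ s ∈ S.filter (fun s => ¬ s.im ≤ T1) with g s = b,
        (analyticOrderNatAt (iteratedDeriv kk Z) s : ℝ) ≤ C * (2 + 2 * Real.log (1 + Y)) * Real.log T := by
      intro b hb
      rw [Set.Finite.mem_toFinset] at hb
      rcases ((S.filter (fun s => ¬ s.im ≤ T1)).filter (fun s => g s = b)).eq_empty_or_nonempty with h0 | ⟨s0, hs0⟩
      · rw [h0, Finset.sum_empty]
        have : 0 < Real.log (1 + Y) := Real.log_pos (by linarith)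
        positivity
      · have hb0 : T0 ≤ b.im := by
          obtain ⟨h2, h3⟩ := Finset.mem_filter.1 hs0
          obtain ⟨h4, h5⟩ := Finset.mem_filter.1 h2
          have h6 := abs_le.1 (hg s0 h4).2
          rw [h3] at h6
          push Not at h5
          linarith [h6.1]
        refine (hunit b.im hb0 _ ?_).trans ?_
        · intro s hs
          obtain ⟨h2, h3⟩ := Finset.mem_filter.1 hs
          obtain ⟨h4, h5⟩ := Finset.mem_filter.1 h2
          have h6 := (hloc s (hS s h4).1).1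
          refine ⟨(hS s h4).1.2.1, by linarith, ?_⟩
          rw [← h3]
          exact (hg s h4).2
        · have h4 : Real.log b.im ≤ (2 + 2 * Real.log (1 + Y)) * Real.log T := by
            have h6 : b.im ≤ T + Y := hb.1.2.2.2
            have h5 : Real.log b.im ≤ Real.log (T ^ 2 * (1 + Y)) := by
              refine Real.log_le_log (by linarith) ?_
              have h10 : T ≤ T ^ 2 := by nlinarith
              have h11 : Y ≤ T ^ 2 * Y := by
                have : 1 ≤ T ^ 2 := by nlinarith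
                nlinarith
              linarith
            rw [Real.log_mul (by positivity) (by positivity), Real.log_pow] at h5
            have h7 : 0 ≤ Real.log (1 + Y) := Real.log_nonneg (by linarith)
            push_cast at h5
            have h8 : Real.log (1 + Y) ≤ 2 * Real.log (1 + Y) * Real.log T := by nlinarith
            linarith
          calc C * Real.log b.im ≤ C * ((2 + 2 * Real.log (1 + Y)) * Real.log T) := by gcongr
            _ = _ := by ring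
    refine (Finset.sum_le_sum h1).trans (le_of_eq ?_)
    rw [Finset.sum_const, nsmul_eq_mul, hN, Set.ncard_eq_toFinset_card _ hfin]
    ring
  have h9 : K0 * N ≤ 2 * K0 * Real.log T * N := by
    have : K0 ≤ 2 * K0 * Real.log T := by nlinarith
    gcongr
  calc _ ≤ K0 * N + C * (2 + 2 * Real.log (1 + Y)) * Real.log T * N := add_le_add hlow hhigh
    _ ≤ 2 * K0 * Real.log T * N + C * (2 + 2 * Real.log (1 + Y)) * Real.log T * N := by linarith
    _ = _ := by ring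

end

end Pool.Agent.N831.SD
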