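import Pool.Agent.N831.SD.O
import Pool.Agent.N831.SX.O

set_option autoImplicit false

/-!
# All derivatives of a general L-function
-/

namespace Pool.Agent.N831.SD

open Complex Filter Topology Set Metric MeasureTheory
open scoped ComplexConjugate
open Pool.Agent.N831.SX (log_ge_half)

noncomputable section

/-- the logarithmic derivative of the gamma factor in a half plane -/
def LG (H : ℂ → ℂ) : Prop := ∃ a K B : ℝ, 0 < a ∧ 1 ≤ B ∧ ∀ w : ℂ, B ≤ w.im →
  DifferentiableAt ℂ H w ∧ H w ≠ 0 ∧ a * Real.log w.im - K ≤ (deriv H w / H w).re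

lemma LG.mul {H H' : ℂ → ℂ} (h : LG H) (h' : LG H') : LG (fun w => H w * H' w) := by
  obtain ⟨a, K, B, ha, hB, h1⟩ := h
  obtain ⟨a', K', B', ha', hB', h1'⟩ := h'
  refine ⟨a + a', K + K', max B B', by positivity, hB.trans (le_max_left _ _), fun w hw => ?_⟩
  obtain ⟨g1, g2, g3⟩ := h1 w ((le_max_left _ _).trans hw)
  obtain ⟨k1, k2, k3⟩ := h1' w ((le_max_right _ _).trans hw)
  refine ⟨g1.mul k1, mul_ne_zero g2 k2, ?_⟩
  rw [Pool.Agent.N831.SP.logderiv_mul_of (F := fun w => H w * H' w) (G := H) (H := H') (Filter.Eventually.of_forall fun _ => rfl)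
    g1 k1 g2 k2, Complex.add_re]
  linarith

variable {κ B : ℝ} {H X Z : ℂ → ℂ}

/-- far to the left the derivatives do not vanish -/
theorem far_gen (h : SX.SD κ B H X Z) (hL : LG H) (k : ℕ) : ∃ T1 : ℝ, 2 ≤ T1 ∧ ∀ s : ℂ, T1 ≤ s.im → s.re ≤ -(1 / 2) →
    iteratedDeriv k Z s ≠ 0 := by
  obtain ⟨a, K, B', ha, hB', hrate⟩ := hL
  obtain ⟨m, hm⟩ : ∃ m : ℝ, m = 4 * k * (k + 1) + 1 := ⟨_, rfl⟩
  have hmp : 0 < m := by rw [hm]; positivity
  have hexp := Real.exp_pos ((m + K) / a)
  refine ⟨|B| + B' + 2 + Real.exp ((m + K) / a), by linarith [abs_nonneg B], fun s hs hsr => ?_⟩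
  have hreg : ∀ z ∈ ball s (1 / 2), 0 < z.im ∧ Z z ≠ 0 ∧ (deriv Z z / Z z).re ≤ -m := by
    intro z hz
    rw [mem_ball_iff_norm] at hz
    have h1 := abs_lt.1 ((Complex.abs_re_le_norm (z - s)).trans_lt hz)
    have h2 := abs_lt.1 ((Complex.abs_im_le_norm (z - s)).trans_lt hz)
    rw [Complex.sub_re] at h1
    rw [Complex.sub_im] at h2
    have hBa := le_abs_self B
    have hBa0 := abs_nonneg B
    have hzi : 0 < z.im := by linarith
    have h3 := out h (s := z) (by linarith) (by linarith) (fun b hb => by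
      have h4 := h.strip b hb
      have h5 : b.re ^ 2 ≤ (1 / 2) ^ 2 := by
        rw [← sq_abs]
        exact pow_le_pow_left₀ (abs_nonneg _) h4 2
      have h6 : (1 / 2 : ℝ) < 1 / 2 - z.re := by linarith
      nlinarith [sq_nonneg (z.im - b.im)])
    refine ⟨hzi, h3.1, h3.2.trans ?_⟩
    have hwi : (z - 1 / 2 : ℂ).im = z.im := by simp
    have h4 := (hrate (z - 1 / 2) (by rw [hwi]; linarith)).2.2
    rw [hwi] at h4
    have h5 : (m + K) / a ≤ Real.log z.im := by
      rw [Real.le_log_iff_exp_le hzi]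
      linarith
    rw [div_le_iff₀ ha] at h5
    linarith
  have hk1 : (0 : ℝ) < k + 1 := by positivity
  have key := iter_pos (f := Z) (s0 := s) (R := 1 / 2) (m := m) k (by norm_num)
    (fun z hz => SX.an_upper h.dZ (hreg z hz).1)
    (fun z hz => (hreg z hz).2.1) (fun z hz => (hreg z hz).2.2) (by
      have e : 2 * k * (k + 1) / (1 / 2 : ℝ) = 4 * k * (k + 1) := by ring
      rw [e, hm]
      linarith) k le_rfl s (mem_ball_self (by
        have : (k : ℝ) / (k + 1) < 1 := by rw [div_lt_one hk1]; linarith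
        apply mul_pos (by norm_num)
        linarith))
  exact key.1

end

end Pool.Agent.N831.SD
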