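import Pool.Agent.N831.SD.Q

set_option autoImplicit false

/-!
# All derivatives of a general L-function: the theorem
-/

namespace Pool.Agent.N831.SD

open Complex Filter Topology Set Metric MeasureTheory
open scoped ComplexConjugate
open Pool.Agent.N831.SX (log_ge_half ZX NX ZDX NDX NRX PQ)

noncomputable section

variable {κ B : ℝ} {H X Z : ℂ → ℂ}

lemma zero_iff (h : SX.SD κ B H X Z) {b : ℂ} (hb : 0 < b.im) : X b = 0 ↔ Z (1 / 2 + b) = 0 := by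
  rw [h.eq b hb, mul_eq_zero]
  exact or_iff_right (h.Hne b hb)

lemma right_fin (h : SX.SD κ B H X Z) {δ T : ℝ} (hδ : 0 ≤ δ) (hT : 2 ≤ T) :
    {s : ℂ | Z s = 0 ∧ 1 / 2 < s.re ∧ 1 / 2 + δ ≤ s.re ∧ 0 < s.im ∧ s.im ≤ T}.Finite := by
  obtain ⟨c, C, hc, hC, hd⟩ := h.dens
  refine ((hd δ T hδ hT).1.image fun b : ℂ => 1 / 2 + b).subset ?_
  rintro s ⟨g1, g2, g3, g4, g5⟩
  have hi : 0 < (s - 1 / 2 : ℂ).im := by simpa using g4
  have e : (1 / 2 + (s - 1 / 2) : ℂ) = s := by ring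
  have hre : (s - 1 / 2 : ℂ).re = s.re - 1 / 2 := by simp
  refine ⟨s - 1 / 2, ⟨(zero_iff h hi).2 (by rw [e]; exact g1), ?_, hi, by simpa using g5⟩, e⟩
  rw [hre, abs_of_pos (by linarith)]
  linarith

lemma right_card_gen (h : SX.SD κ B H X Z) {δ T : ℝ} (hδ : 0 ≤ δ) (hT : 2 ≤ T) :
    (Pool.Agent.Y22.RX.S X δ T ∩ {b | b.re < 0}).ncard ≤
      {s : ℂ | Z s = 0 ∧ 1 / 2 < s.re ∧ 1 / 2 + δ ≤ s.re ∧ 0 < s.im ∧ s.im ≤ T}.ncard := by
  have hfin := right_fin h hδ hT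
  have hinj : Function.Injective fun b : ℂ => (1 / 2 - conj b : ℂ) := by
    intro a b hab
    have h1 : conj a = conj b := sub_right_injective hab
    exact (starRingEnd ℂ).injective h1
  rw [← Set.ncard_image_of_injective _ hinj]
  refine Set.ncard_le_ncard ?_ hfin
  rintro s ⟨b, ⟨⟨g1, g2, g3, g4⟩, g5⟩, rfl⟩
  rw [Set.mem_ofPred_eq] at g5
  rw [abs_of_neg g5] at g2
  have e1 : (1 / 2 - conj b : ℂ) = 1 / 2 + -(conj b) := by ring
  refine ⟨?_, ?_, ?_, ?_, ?_⟩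
  · simp only
    rw [e1]
    refine (zero_iff h ?_).1 (by rw [h.sy.symm, g1, map_zero])
    simpa using g3
  · simp; linarith
  · simp; linarith
  · simpa using g3
  · simpa using g4

/-- **All derivatives**, critical line `Re s = 1/2`. -/
theorem all_gen (h : SX.SD κ B H X Z) (hfe : FE κ H X Z) (hL : LG H) (k : ℕ) : ∃ c C T0 : ℝ, 0 < c ∧ 0 < C ∧ 2 ≤ T0 ∧
    (∀ s : ℂ, iteratedDeriv k Z s = 0 → s.re < 1 / 2 → T0 ≤ s.im →
      (∃ ρ : ℂ, Z ρ = 0 ∧ |ρ.im - s.im| ≤ C ∧ (ρ.re < s.re ∨ ρ = s)) ∧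
      (s.re ≤ 1 / 2 - C / Real.log s.im → ∃ ρ : ℂ, Z ρ = 0 ∧ 1 / 2 < ρ.re ∧
        ‖s - ⟨1 / 2, ρ.im⟩‖ < ρ.re - 1 / 2 + C / Real.log s.im)) ∧
    (∀ T : ℝ, (ZX (iteratedDeriv k Z) (1 / 2) T0 T).Finite) ∧
    (∀ δ T : ℝ, 0 ≤ δ → 2 ≤ T →
      (NDX (iteratedDeriv k Z) (1 / 2) T0 δ T : ℝ) ≤ C * T ^ (1 - c * δ) * Real.log T) ∧
    (∀ δ T : ℝ, 0 ≤ δ → 2 ≤ T →
      (NDX (iteratedDeriv k Z) (1 / 2) T0 δ T : ℝ) ≤ C * Real.log T * (NRX Z (1 / 2) δ (T + C) : ℝ)) := by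
  obtain ⟨T1, hT1, hfar⟩ := far_gen h hL k
  obtain ⟨Yl, Tl, hYl, hTl, hYTl, hleft⟩ := hfe.left k 1
  obtain ⟨Cj, Tj, hCj, hTj, hjk⟩ := jk h k 1
  obtain ⟨Y, Tk, hY, hTk, hBTk, hYTk, hloc⟩ := loc_k h hfe k 1
  have hne : ∃ s : ℂ, 0 < s.im ∧ iteratedDeriv k Z s ≠ 0 :=
    ⟨⟨-1, T1⟩, by simp only; linarith, hfar _ le_rfl (by simp only; norm_num)⟩
  have hHK : HK κ B H X Z k 1 Y Tk := ⟨h, hY, hTk, hne, hloc⟩
  obtain ⟨c, Cd, hc, hCd, hdens⟩ := hHK.dens_k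
  obtain ⟨Ct, hCt, htr⟩ := transfer_k h k hY hTk hne hloc
  obtain ⟨T0, hT0⟩ : ∃ T0 : ℝ, T0 = T1 + Tl + Tj + Tk := ⟨_, rfl⟩
  have hZk : ∀ T : ℝ, ∀ s ∈ ZX (iteratedDeriv k Z) (1 / 2) T0 T, Zk k 1 Tk Z s := by
    rintro T s ⟨g1, g2, g4, g5⟩
    refine ⟨g1, g2, ?_, by linarith⟩
    by_contra hcon
    push Not at hcon
    exact hfar s (by linarith) (by linarith) g1
  have hfin0 : ∀ T : ℝ, (ZX (iteratedDeriv k Z) (1 / 2) T0 T).Finite := by
    intro T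
    exact (Zk_finite h k (M := 1) hTk hne T).subset fun s hs => ⟨hZk T s hs, hs.2.2.2⟩
  have hsub : ∀ δ T : ℝ, ZDX (iteratedDeriv k Z) (1 / 2) T0 δ T ⊆ ZX (iteratedDeriv k Z) (1 / 2) T0 T := by
    rintro δ T s ⟨g1, g2, g3, g4, g5⟩
    exact ⟨g1, g2, g4, g5⟩
  have hfin : ∀ δ T : ℝ, (ZDX (iteratedDeriv k Z) (1 / 2) T0 δ T).Finite := fun δ T => (hfin0 T).subset (hsub δ T)
  have hsum : ∀ δ T : ℝ, (NDX (iteratedDeriv k Z) (1 / 2) T0 δ T : ℝ) =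
      ∑ s ∈ (hfin δ T).toFinset, (analyticOrderNatAt (iteratedDeriv k Z) s : ℝ) := by
    intro δ T
    unfold NDX
    rw [finsum_mem_eq_finite_toFinset_sum _ (hfin δ T)]
    push_cast
    rfl
  have hmem : ∀ δ T : ℝ, ∀ s ∈ (hfin δ T).toFinset, Zk k 1 Tk Z s ∧ δ ≤ 1 / 2 - s.re ∧ s.im ≤ T := by
    intro δ T s hs
    rw [Set.Finite.mem_toFinset] at hs
    exact ⟨hZk T s (hsub δ T hs), by linarith [hs.2.2.1], hs.2.2.2.2⟩
  refine ⟨c, Yl + Cj + Cd + Ct + Y, T0, hc, by positivity, by linarith, ?_, hfin0, ?_, ?_⟩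
  · intro s hs hsr hsi
    have hlog : 0 < Real.log s.im := Real.log_pos (by linarith)
    have hre : -1 ≤ s.re := by
      by_contra hcon
      push Not at hcon
      exact hfar s (by linarith) (by linarith) hs
    refine ⟨?_, fun hsC => ?_⟩
    · obtain ⟨ρ, h1, h2, h3⟩ := hleft s (by linarith) hre hsr.le hs
      exact ⟨ρ, h1, by linarith, h3⟩
    · have hle : Cj / Real.log s.im ≤ (Yl + Cj + Cd + Ct + Y) / Real.log s.im := by
        gcongr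
        linarith
      obtain ⟨b, h1, h2, h3, h4⟩ := hjk s (by linarith) hre (by linarith) hs
      have e1 : (1 / 2 + b : ℂ).im = b.im := by simp
      have e2 : (1 / 2 + b : ℂ).re = 1 / 2 + b.re := by simp
      refine ⟨1 / 2 + b, (zero_iff h h3).1 h1, by rw [e2]; linarith, ?_⟩
      rw [e1, e2]
      linarith
  · intro δ T hδ hT
    rw [hsum]
    refine (hdens δ T hδ hT _ (hmem δ T)).trans ?_
    have h1 : 0 < T ^ (1 - c * δ) := Real.rpow_pos_of_pos (by linarith) _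
    have h2 := log_ge_half hT
    gcongr
    linarith
  · intro δ T hδ hT
    rw [hsum]
    refine (htr δ T hδ hT _ (hmem δ T)).trans ?_
    have h2 := log_ge_half hT
    have h3 : (Pool.Agent.Y22.RX.S X δ (T + Y) ∩ {b | b.re < 0}).ncard ≤
        NRX Z (1 / 2) δ (T + (Yl + Cj + Cd + Ct + Y)) := by
      refine (right_card_gen h hδ (by linarith)).trans ?_
      unfold NRX
      refine Set.ncard_le_ncard ?_ (right_fin h hδ (by linarith))
      rintro s ⟨g1, g2, g3, g4, g5⟩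
      exact ⟨g1, g2, g3, g4, by linarith⟩
    have h4 : (((Pool.Agent.Y22.RX.S X δ (T + Y) ∩ {b | b.re < 0}).ncard : ℕ) : ℝ) ≤
        (NRX Z (1 / 2) δ (T + (Yl + Cj + Cd + Ct + Y)) : ℝ) := by exact_mod_cast h3
    gcongr
    linarith

/-- **The results for the `k`-th derivative** of an L-function with critical line `Re s = x`. -/
structure AllX (L : ℂ → ℂ) (x : ℝ) (k : ℕ) : Prop where
  left : ∃ c C T0 : ℝ, 0 < c ∧ 0 < C ∧ 2 ≤ T0 ∧
    (∀ s : ℂ, iteratedDeriv k L s = 0 → s.re < x → T0 ≤ s.im →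
      (∃ ρ : ℂ, L ρ = 0 ∧ |ρ.im - s.im| ≤ C ∧ (ρ.re < s.re ∨ ρ = s)) ∧
      (s.re ≤ x - C / Real.log s.im → ∃ ρ : ℂ, L ρ = 0 ∧ x < ρ.re ∧
        ‖s - ⟨x, ρ.im⟩‖ < ρ.re - x + C / Real.log s.im)) ∧
    (∀ T : ℝ, (ZX (iteratedDeriv k L) x T0 T).Finite) ∧
    (∀ δ T : ℝ, 0 ≤ δ → 2 ≤ T →
      (NDX (iteratedDeriv k L) x T0 δ T : ℝ) ≤ C * T ^ (1 - c * δ) * Real.log T) ∧
    (∀ δ T : ℝ, 0 ≤ δ → 2 ≤ T →
      (NDX (iteratedDeriv k L) x T0 δ T : ℝ) ≤ C * Real.log T * (NRX L x δ (T + C) : ℝ))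
  right : ∀ ε : ℝ, 0 < ε → ∃ R T1 : ℝ, 0 < R ∧ ∀ ρ : ℂ, L ρ = 0 → T1 ≤ ρ.im → ρ.re ≤ x - ε →
    ∃ s : ℂ, iteratedDeriv k L s = 0 ∧ s.re < ρ.re + ε ∧ |s.im - ρ.im| ≤ R

lemma iteratedDeriv_shift (F : ℂ → ℂ) (a : ℂ) (k : ℕ) :
    iteratedDeriv k (fun s => F (s - a)) = fun s => iteratedDeriv k F (s - a) := by
  induction k with
  | zero => simp [iteratedDeriv_zero]
  | succ k ih =>
    rw [iteratedDeriv_succ, ih]
    funext s
    rw [deriv_comp_sub_const, ← iteratedDeriv_succ]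

/-- **The shifted theorem.** -/
theorem allX (h : SX.SD κ B H X Z) (hfe : FE κ H X Z) (hLG : LG H) {L : ℂ → ℂ} {x : ℝ}
    (hL : ∀ s, L s = Z (s - ((x - 1 / 2 : ℝ) : ℂ))) (k : ℕ) : AllX L x k := by
  obtain ⟨a, ha⟩ : ∃ a : ℂ, a = ((x - 1 / 2 : ℝ) : ℂ) := ⟨_, rfl⟩
  have har : a.re = x - 1 / 2 := by rw [ha, Complex.ofReal_re]
  have hai : a.im = 0 := by rw [ha, Complex.ofReal_im]
  have hLf : L = fun s => Z (s - a) := by rw [ha]; exact funext hL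
  have hdL : iteratedDeriv k L = fun s => iteratedDeriv k Z (s - a) := by
    rw [hLf]
    exact iteratedDeriv_shift Z a k
  have hsub : ∀ s : ℂ, (s - a).re = s.re - (x - 1 / 2) ∧ (s - a).im = s.im := fun s => by
    rw [Complex.sub_re, Complex.sub_im, har, hai, sub_zero]
    exact ⟨rfl, rfl⟩
  have hadd : ∀ s : ℂ, (s + a).re = s.re + (x - 1 / 2) ∧ (s + a).im = s.im := fun s => by
    rw [Complex.add_re, Complex.add_im, har, hai, add_zero]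
    exact ⟨rfl, rfl⟩
  have hLa : ∀ s : ℂ, L (s + a) = Z s := fun s => by rw [hLf]; simp
  have hLs : ∀ s : ℂ, L s = Z (s - a) := fun s => by rw [hLf]
  have hball : ∀ s ρ : ℂ, s - (⟨x, ρ.im⟩ : ℂ) = s - a - ⟨1 / 2, ρ.im⟩ := by
    intro s ρ
    apply Complex.ext
    · rw [Complex.sub_re, Complex.sub_re, Complex.sub_re, har]
      ring
    · rw [Complex.sub_im, Complex.sub_im, Complex.sub_im, hai]
      ring
  have hZX : ∀ T1 T2 : ℝ, ∀ s, s ∈ ZX (iteratedDeriv k L) x T1 T2 ↔ s - a ∈ ZX (iteratedDeriv k Z) (1 / 2) T1 T2 := by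
    intro T1 T2 s
    obtain ⟨h1, h2⟩ := hsub s
    unfold ZX
    rw [hdL]
    simp only [Set.mem_setOf_eq, h1, h2]
    constructor
    · rintro ⟨k1, k2, k3, k4⟩
      exact ⟨k1, by linarith, k3, k4⟩
    · rintro ⟨k1, k2, k3, k4⟩
      exact ⟨k1, by linarith, k3, k4⟩
  have hND : ∀ B δ T : ℝ, NDX (iteratedDeriv k L) x B δ T = NDX (iteratedDeriv k Z) (1 / 2) B δ T := by
    intro B δ T
    have h1 : ∀ s, s ∈ ZDX (iteratedDeriv k L) x B δ T ↔ s - a ∈ ZDX (iteratedDeriv k Z) (1 / 2) B δ T := by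
      intro s
      obtain ⟨h1, h2⟩ := hsub s
      unfold ZDX
      rw [hdL]
      simp only [Set.mem_setOf_eq, h1, h2]
      constructor
      · rintro ⟨k1, k2, k3, k4, k5⟩
        exact ⟨k1, by linarith, by linarith, k4, k5⟩
      · rintro ⟨k1, k2, k3, k4, k5⟩
        exact ⟨k1, by linarith, by linarith, k4, k5⟩
    unfold NDX
    rw [hdL] at h1 ⊢
    exact SX.sum_shift _ a h1
  have hNR : ∀ δ T : ℝ, NRX L x δ T = NRX Z (1 / 2) δ T := by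
    intro δ T
    unfold NRX
    have h1 : {s : ℂ | Z s = 0 ∧ 1 / 2 < s.re ∧ 1 / 2 + δ ≤ s.re ∧ 0 < s.im ∧ s.im ≤ T} = (fun s => s - a) ''
        {s : ℂ | L s = 0 ∧ x < s.re ∧ x + δ ≤ s.re ∧ 0 < s.im ∧ s.im ≤ T} := by
      ext s
      constructor
      · rintro ⟨k1, k2, k3, k4, k5⟩
        obtain ⟨e1, e2⟩ := hadd s
        refine ⟨s + a, ⟨?_, by rw [e1]; linarith, by rw [e1]; linarith, by rw [e2]; exact k4, by rw [e2]; exact k5⟩,
          by simp⟩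
        rw [hLa]
        exact k1
      · rintro ⟨w, ⟨k1, k2, k3, k4, k5⟩, rfl⟩
        obtain ⟨h1, h2⟩ := hsub w
        rw [hLs] at k1
        show Z (w - a) = 0 ∧ 1 / 2 < (w - a).re ∧ 1 / 2 + δ ≤ (w - a).re ∧ 0 < (w - a).im ∧ (w - a).im ≤ T
        rw [h1, h2]
        exact ⟨k1, by linarith, by linarith, k4, k5⟩
    rw [h1, Set.ncard_image_of_injective _ sub_left_injective]
  constructor
  · obtain ⟨c, C, T0, hc, hC, hT0, g1, g2, g3, g4⟩ := all_gen h hfe hLG k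
    refine ⟨c, C, T0, hc, hC, hT0, ?_, ?_, ?_, ?_⟩
    · intro s hs hsr hsi
      obtain ⟨e1, e2⟩ := hsub s
      obtain ⟨f1, f2⟩ := g1 (s - a) (by rw [hdL] at hs; exact hs) (by rw [e1]; linarith) (by rw [e2]; exact hsi)
      refine ⟨?_, fun hsC => ?_⟩
      · obtain ⟨ρ, h1, h2, h3⟩ := f1
        obtain ⟨e3, e4⟩ := hadd ρ
        refine ⟨ρ + a, by rw [hLa]; exact h1, by rw [e4, ← e2]; exact h2, ?_⟩
        rcases h3 with h3 | h3
        · left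
          rw [e3]
          linarith
        · right
          rw [h3, sub_add_cancel]
      · obtain ⟨ρ, h1, h2, h3⟩ := f2 (by rw [e1, e2]; linarith)
        obtain ⟨e3, e4⟩ := hadd ρ
        refine ⟨ρ + a, by rw [hLa]; exact h1, by rw [e3]; linarith, ?_⟩
        rw [hball, e3, e4]
        rw [e2] at h3
        linarith
    · intro T
      refine ((g2 T).image (fun s => s + a)).subset fun s hs => ⟨s - a, (hZX _ _ s).1 hs, by simp⟩
    · intro δ T hδ hT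
      rw [hND]
      exact g3 δ T hδ hT
    · intro δ T hδ hT
      rw [hND, hNR]
      exact g4 δ T hδ hT
  · intro ε hε
    have hst : ∀ s : ℂ, 0 < s.im → Z s = 0 → 0 ≤ s.re := by
      intro s hs hz
      have hi : 0 < (s - 1 / 2 : ℂ).im := by simpa using hs
      have e : (1 / 2 + (s - 1 / 2) : ℂ) = s := by ring
      have h1 := h.strip (s - 1 / 2) ((zero_iff h hi).2 (by rw [e]; exact hz))
      have hre : (s - 1 / 2 : ℂ).re = s.re - 1 / 2 := by simp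
      rw [hre] at h1
      linarith [(abs_le.1 h1).1]
    obtain ⟨R, T1, hR, hT1, -, hright⟩ := hfe.right hst k ε hε
    refine ⟨R, T1, hR, fun ρ hρ hρi hρr => ?_⟩
    obtain ⟨e1, e2⟩ := hsub ρ
    obtain ⟨s, h1, h2, h3⟩ := hright (ρ - a) (by rw [e2]; exact hρi) (by rw [e1]; linarith) (by rw [← hLs]; exact hρ)
    obtain ⟨e3, e4⟩ := hadd s
    refine ⟨s + a, ?_, by rw [e3]; linarith, by rw [e4, ← e2]; exact h3⟩
    rw [hdL]
    simp only [add_sub_cancel_right]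
    exact h1

end

end Pool.Agent.N831.SD
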