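import Pool.Agent.N831.SD.R

set_option autoImplicit false

/-!
# All derivatives: the data for newforms, their twists, and products
-/

namespace Pool.Agent.N831.SD

open UpperHalfPlane hiding I
open MatrixGroups CongruenceSubgroup Filter Topology Complex
open Pool.Agent.Y671.GL
open Pool.Agent.Y771.NF (lm psN frm_newf)
open Pool.Agent.Y693.GL (lx psx frm_tw l2 GY gy_one gy_mul)
open Pool.Agent.Y24.GL (LFn)
open Pool.Agent.W169.HF (IsForm coef)
open Pool.Agent.W355.UN (facE prodE Pk coprime_cond isNewf_of)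
open Pool.Agent.R838.TW (exists_L uniq euler_tw ldata_of lfn_of PL pl_of)
open Pool.Agent.R838.NB (exists_LC euler_twc lxc lmc frm_twc frm_newfC one_val)
open Pool.Agent.N831.SX (Lf lf_Hg serE PQ)
open Pool.Agent.N831.SP (re_ge_of_right logderiv_mul_of)
open scoped ComplexConjugate

noncomputable section

/-- one gamma factor -/
theorem lg_Hg {u : ℂ} (hu : u ≠ 0) {c A : ℝ} (hc : 0 < c) : LG (fun w => u * Hg c A w) := by
  have hcc : (c : ℂ) ≠ 0 := by exact_mod_cast hc.ne'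
  have hGne : ∀ w : ℂ, 0 < w.im → Complex.Gamma (w + (A : ℂ)) ≠ 0 := by
    intro w hw
    apply Complex.Gamma_ne_zero
    intro m hm
    have := congrArg Complex.im hm
    simp at this
    linarith
  have hne : ∀ w : ℂ, 0 < w.im → u * Hg c A w ≠ 0 := by
    intro w hw
    unfold Hg
    refine mul_ne_zero hu (mul_ne_zero ?_ (hGne w hw))
    rw [Ne, Complex.cpow_eq_zero_iff]
    exact fun h => hcc h.1
  have hd : ∀ w : ℂ, 0 < w.im → DifferentiableAt ℂ (fun w => u * Hg c A w) w := by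
    intro w hw
    unfold Hg
    have h1 : DifferentiableAt ℂ (fun w : ℂ => (c : ℂ) ^ w) w :=
      (differentiableAt_id).const_cpow (Or.inl hcc)
    have h2 : DifferentiableAt ℂ (fun w : ℂ => Complex.Gamma (w + (A : ℂ))) w := by
      have h3 : DifferentiableAt ℂ Complex.Gamma (w + (A : ℂ)) := by
        apply Complex.differentiableAt_Gamma
        intro m hm
        have := congrArg Complex.im hm
        simp at this
        linarith
      exact h3.comp w (by fun_prop)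
    exact (h1.mul h2).const_mul u
  refine ⟨1, Real.pi - Real.log c, 1, one_pos, le_rfl, fun w hw => ?_⟩
  have hw0 : 0 < w.im := by linarith
  have hwe : w = w.re + w.im * I := (Complex.re_add_im w).symm
  refine ⟨hd w hw0, hne w hw0, ?_⟩
  have hpi : Real.pi / w.im ≤ Real.pi := by
    rw [div_le_iff₀ hw0]
    nlinarith [Real.pi_pos]
  have h9 := re_ge_of_right (f := fun w => u * Hg c A w) (σ := w.re) (t := w.im)
    (c := Real.log c + Real.log w.im - Real.pi / w.im) (by rw [← hwe]; exact hd w hw0) (by rw [← hwe]; exact hne w hw0) (by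
      filter_upwards [self_mem_nhdsWithin] with x hx
      rw [Set.mem_Ioi] at hx
      have h1 := Pool.Agent.Y22.LM.gamma_left hw0 (w.re + A) (x - w.re) (by linarith)
      have e1 : (((w.re + A : ℝ) : ℂ) + w.im * I : ℂ) = w.re + w.im * I + (A : ℂ) := by push_cast; ring
      have e2 : ((((w.re + A) + (x - w.re) : ℝ) : ℂ) + w.im * I : ℂ) = x + w.im * I + (A : ℂ) := by push_cast; ring
      rw [e1, e2] at h1
      have hn : ∀ y : ℝ, ‖(c : ℂ) ^ ((y : ℂ) + w.im * I)‖ = Real.exp (Real.log c * y) := by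
        intro y
        rw [Complex.norm_cpow_eq_rpow_re_of_pos hc, Real.rpow_def_of_pos hc]
        simp
      have e3 : ∀ y : ℝ, ‖(fun w => u * Hg c A w) ((y : ℂ) + w.im * I)‖ =
          ‖u‖ * (Real.exp (Real.log c * y) * ‖Complex.Gamma (y + w.im * I + (A : ℂ))‖) := by
        intro y
        simp only
        unfold Hg
        rw [norm_mul, norm_mul, hn]
      rw [e3, e3]
      set L1 := Real.log c
      set L2 := Real.log w.im - Real.pi / w.im
      calc ‖u‖ * (Real.exp (L1 * w.re) * ‖Complex.Gamma (w.re + w.im * I + (A : ℂ))‖) *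
            Real.exp ((L1 + Real.log w.im - Real.pi / w.im) * (x - w.re))
          ≤ ‖u‖ * (Real.exp (L1 * w.re) * (‖Complex.Gamma (x + w.im * I + (A : ℂ))‖ *
              Real.exp (-L2 * (x - w.re)))) * Real.exp ((L1 + Real.log w.im - Real.pi / w.im) * (x - w.re)) := by
            gcongr
        _ = ‖u‖ * (Real.exp (L1 * x) * ‖Complex.Gamma (x + w.im * I + (A : ℂ))‖) := by
            have e4 : Real.exp (L1 * w.re) * Real.exp (-L2 * (x - w.re)) *
                Real.exp ((L1 + Real.log w.im - Real.pi / w.im) * (x - w.re)) = Real.exp (L1 * x) := by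
              rw [← Real.exp_add, ← Real.exp_add]
              congr 1
              simp only [L2]
              ring
            rw [← e4]
            ring)
  rw [← hwe] at h9
  refine le_trans ?_ h9
  linarith

/-- Properties of an L-function, with the growth of the gamma factor. -/
structure PG (κ : ℝ) (X Z : ℂ → ℂ) : Prop where
  pl : PL κ X
  dat : ∃ (H : ℂ → ℂ) (B : ℝ), GY κ H X Z ∧ (∀ w : ℂ, 0 < w.im → H w ≠ 0) ∧ Lf B H ∧ LG H

theorem PG.pq {κ : ℝ} {X Z : ℂ → ℂ} (h : PG κ X Z) : PQ κ X Z where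
  pl := h.pl
  dat := by
    obtain ⟨H, B, h1, h2, h3, -⟩ := h.dat
    exact ⟨H, B, h1, h2, h3⟩

/-- **Products.** -/
theorem PG.mul {κ κ' : ℝ} {X X' Z Z' : ℂ → ℂ} (h1 : PG κ X Z) (h2 : PG κ' X' Z') :
    PG (κ + κ') (fun s => X s * X' s) (fun s => Z s * Z' s) where
  pl := h1.pl.mul h2.pl
  dat := by
    obtain ⟨H, B, hG, hH, hL, hg⟩ := h1.dat
    obtain ⟨H', B', hG', hH', hL', hg'⟩ := h2.dat
    exact ⟨_, max B B', gy_mul hG hG', fun w hw => mul_ne_zero (hH w hw) (hH' w hw),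
      (hL.mono (le_max_left _ _)).mul (hL'.mono (le_max_right _ _)), hg.mul hg'⟩

theorem pg_prod {ι : Type*} [DecidableEq ι] (s : Finset ι) (hs : s.Nonempty) (X Z : ι → ℂ → ℂ)
    (h : ∀ i ∈ s, PG 1 (X i) (Z i)) : PG (s.card : ℝ) (fun w => ∏ i ∈ s, X i w) (fun w => ∏ i ∈ s, Z i w) := by
  induction hs using Finset.Nonempty.cons_induction with
  | singleton a =>
    simp only [Finset.card_singleton, Finset.prod_singleton, Nat.cast_one]
    exact h a (Finset.mem_singleton_self a)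
  | cons a s ha hs ih =>
    have h1 := h a (Finset.mem_cons_self a s)
    have h2 := ih fun i hi => h i (Finset.mem_cons_of_mem hi)
    have h3 := h1.mul h2
    simp only [Finset.card_cons, Finset.prod_cons, Nat.cast_add, Nat.cast_one]
    rw [add_comm (s.card : ℝ) 1]
    exact h3

/-- **One form.** -/
theorem pg_of {k N : ℕ} [NeZero N] {ps lam : ℕ → ℂ} {u : ℂ} {X Z : ℂ → ℂ} (hk : 1 ≤ k)
    (hF : Frm k N ps lam) (hL : IsL lam Z) (hD : LData k (Real.sqrt N / (2 * Real.pi)) u X Z) (hlfn : LFn Z) :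
    PG 1 X Z where
  pl := pl_of hk hF hL hD hlfn
  dat := by
    obtain ⟨h1, B, h2⟩ := lf_Hg (A := (k : ℝ) / 2) hD.u_ne hD.c_pos (by positivity)
    exact ⟨_, B, gy_one (gg_of hF hL hD), h1, h2, lg_Hg hD.u_ne hD.c_pos⟩

theorem PG.sd {κ : ℝ} {X Z : ℂ → ℂ} (hκ : 1 / 2 ≤ κ) (h : PG κ X Z) :
    ∃ (H : ℂ → ℂ) (B : ℝ), SX.SD κ B H X Z ∧ FE κ H X Z ∧ LG H := by
  obtain ⟨H, B, hG, hH, hL, hg⟩ := h.dat
  have cf := hG.cg.cf
  have hpq := h.pq
  have hsd : SX.SD κ B H X Z := {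
    κ_pos := cf.κ_pos
    B_one := hL.1
    sy := h.pl.sy
    strip := h.pl.strip
    zero := h.pl.zero hκ
    eq := cf.eq
    Hne := hH
    dZ := fun s _ => cf.diffZ s
    left := fun w hw _ => hL.2 w hw
    gam := cf.gam
    gro := cf.gro
    rgt := by
      obtain ⟨c, K, hc, -, h1⟩ := cf.rgt 1 one_pos
      exact ⟨c, 2, hc, by norm_num, fun s hs => (h1 s (by linarith)).1⟩
    good := SX.goodE_of cf.κ_pos hG.good
    dens := by
      obtain ⟨C, hC, h1⟩ := h.pl.ncard_S (c := 1 / 2) (by norm_num)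
      exact ⟨1 / 2, C, by norm_num, hC, fun δ T hδ hT => h1 δ T hδ hT⟩ }
  obtain ⟨c, K, hc, hK, h1⟩ := cf.rgt 1 one_pos
  exact ⟨H, B, hsd, FE.of_sd hsd (C := K) (A := 2) fun s hs => (h1 s (by linarith)).2.1, hg⟩

/-- **The theorem for one L-function.** -/
theorem PG.allX {κ : ℝ} {X Z L : ℂ → ℂ} (hκ : 1 / 2 ≤ κ) (h : PG κ X Z) {x : ℝ}
    (hL : ∀ s, L s = Z (s - ((x - 1 / 2 : ℝ) : ℂ))) (k : ℕ) : AllX L x k := by
  obtain ⟨H, B, h1, h2, h3⟩ := h.sd hκ
  exact SD.allX h1 h2 h3 hL k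

/-- one form -/
theorem pg_fe {k N : ℕ} [NeZero N] {ps lam : ℕ → ℂ} {M Q : ℝ} {F : ℂ → ℂ} (hk : 1 ≤ k) (hM : 1 ≤ M) (hQ : 1 ≤ Q)
    (hFE : W388.FE2 k M Q F) (hf : Frm k N ps lam) (hL : IsL lam F) (hN : Real.sqrt (N : ℝ) = Real.sqrt M * Q) :
    ∃ X : ℂ → ℂ, PG 1 X F := by
  obtain ⟨u, v, X, hD, hv, hX⟩ := ldata_of hk hM hQ hFE hf hL
  have hlfn := lfn_of hk hM hQ hFE hf hL
  rw [← hN] at hD
  exact ⟨X, pg_of hk hf hL hD hlfn⟩

section form

variable {N : ℕ} [NeZero N] {k : ℕ} {f : CuspForm (Gamma0 N : Subgroup (GL (Fin 2) ℝ)) (k : ℤ)} {ε : ℝ}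
variable {q : ℕ} [NeZero q] {χ : DirichletCharacter ℂ q}

theorem pg_tw (hk : 1 ≤ k) (hf : W388.IsNewf N k f ε) (hχ : χ.IsPrimitive) (hco : Nat.Coprime q N) :
    ∃ X F : ℂ → ℂ, PG 1 X F ∧ IsL (lx f χ) F := by
  obtain ⟨F, hFE, hL⟩ := exists_L hk hf hχ hco
  have hfm := frm_tw hk hf hχ hco
  have hN1 : (1 : ℝ) ≤ N := by exact_mod_cast Nat.one_le_iff_ne_zero.2 (NeZero.ne N)
  have hq1 : (1 : ℝ) ≤ q := by exact_mod_cast Nat.one_le_iff_ne_zero.2 (NeZero.ne q)
  haveI : NeZero (N * q ^ 2) := ⟨Nat.mul_ne_zero (NeZero.ne N) (pow_ne_zero _ (NeZero.ne q))⟩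
  have hsq : Real.sqrt ((N * q ^ 2 : ℕ) : ℝ) = Real.sqrt N * q := by
    push_cast
    rw [Real.sqrt_mul (by linarith), Real.sqrt_sq (by linarith)]
  obtain ⟨X, hP⟩ := pg_fe hk hN1 hq1 hFE hfm hL hsq
  exact ⟨X, F, hP, hL⟩

end form

section ec

variable {N : ℕ} [NeZero N] {f : CuspForm (Gamma0 N : Subgroup (GL (Fin 2) ℝ)) 2} {w : ℝ}
variable {q : ℕ} [NeZero q] {χ : DirichletCharacter ℂ q}

/-- **Twists of elliptic curves.** -/
theorem pg_fac (hf : IsForm N f w) (hχ : χ.IsPrimitive) (hco : Nat.Coprime q N) :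
    ∃ X F : ℂ → ℂ, PG 1 X F ∧ Differentiable ℂ F ∧ ∀ s : ℂ, 3 / 2 < s.re → F (s - 1 / 2) = serE f χ s := by
  have hpi := Real.pi_pos
  obtain ⟨X, F, hP, hL⟩ := pg_tw (k := 2) (f := f) (by norm_num) (isNewf_of hf) hχ hco
  have hN0 : (0 : ℝ) < N := by exact_mod_cast Nat.pos_of_ne_zero (NeZero.ne N)
  have hq0 : (0 : ℝ) < q := by exact_mod_cast Nat.pos_of_ne_zero (NeZero.ne q)
  have hsq : 0 < Real.sqrt N := Real.sqrt_pos.2 hN0
  obtain ⟨c, hc⟩ : ∃ c : ℝ, c = Real.sqrt N * q / (2 * Real.pi) := ⟨_, rfl⟩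
  have hcp : 0 < c := by rw [hc]; positivity
  have hcc : (c : ℂ) ≠ 0 := by exact_mod_cast hcp.ne'
  have h00 : W388.lamf f 0 = 0 := by
    have h0 : Frm 2 N (psN N) (lm (k := 2) f) := frm_newf (by norm_num) (isNewf_of hf)
    have h5 : (W388.lamf f 0 : ℂ) = 0 := h0.zero
    exact_mod_cast h5
  have hL' : IsL (l2 f χ) F := hL
  refine ⟨X, F, hP, hL.diff, fun s hs => ?_⟩
  have h1 := Pool.Agent.Y693.GL.facE_eq hf hL' hs h00
  unfold facE at h1
  have h2 : ((Real.sqrt N * q / (2 * Real.pi) : ℝ) : ℂ) ^ s * Complex.Gamma s ≠ 0 := by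
    rw [← hc]
    refine mul_ne_zero ?_ (Complex.Gamma_ne_zero_of_re_pos (by linarith))
    rw [Ne, Complex.cpow_eq_zero_iff]
    exact fun h => hcc h.1
  exact (mul_left_cancel₀ h2 h1).symm

end ec

section ab

variable {M : ℕ} [NeZero M] (G : Subgroup (DirichletCharacter ℂ M)) [Fintype G]
variable {N : ℕ} [NeZero N] {f : CuspForm (Gamma0 N : Subgroup (GL (Fin 2) ℝ)) 2} {w : ℝ}

/-- **Elliptic curves over abelian number fields.** -/
theorem pg_ab (hf : IsForm N f w) (hco : Nat.Coprime M N) :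
    ∃ X F : ℂ → ℂ, PG (Fintype.card G : ℝ) X F ∧ Differentiable ℂ F ∧
      ∀ s : ℂ, 3 / 2 < s.re → F (s - 1 / 2) = ∏ χ : G, serE f (χ : DirichletCharacter ℂ M).primitiveCharacter s := by
  classical
  have hone : ∀ χ : G, ∃ X F : ℂ → ℂ, PG 1 X F ∧ Differentiable ℂ F ∧ ∀ s : ℂ, 3 / 2 < s.re →
      F (s - 1 / 2) = serE f (χ : DirichletCharacter ℂ M).primitiveCharacter s := by
    intro χ
    haveI : NeZero (χ : DirichletCharacter ℂ M).conductor := ⟨DirichletCharacter.conductor_ne_zero _⟩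
    exact pg_fac hf (DirichletCharacter.primitiveCharacter_isPrimitive _) (coprime_cond hco _)
  choose X F h1 h2 h3 using hone
  refine ⟨fun w => ∏ χ : G, X χ w, fun w => ∏ χ : G, F χ w, ?_, ?_, fun s hs => ?_⟩
  · have := pg_prod (Finset.univ : Finset G) ⟨1, Finset.mem_univ _⟩ X F fun χ _ => h1 χ
    rw [Finset.card_univ] at this
    exact this
  · exact Differentiable.fun_finsetProd fun χ _ => h2 χ
  · exact Finset.prod_congr rfl fun χ _ => h3 χ s hs

end ab

end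

end Pool.Agent.N831.SD
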