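import Pool.Agent.N831.SD.S
import Pool.Agent.N831.SX.P

set_option autoImplicit false

/-!
# All derivatives: explicit exponents, the sum of the distances, newforms with nebentypus
-/

namespace Pool.Agent.N831.SD

open UpperHalfPlane hiding I
open MatrixGroups CongruenceSubgroup Filter Topology Complex
open Pool.Agent.Y671.GL
open Pool.Agent.Y693.GL (lx psx frm_tw l2 GY gy_one gy_mul)
open Pool.Agent.Y24.GL (LFn)
open Pool.Agent.R838.TW (exists_L uniq euler_tw ldata_of lfn_of PL pl_of)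
open Pool.Agent.R838.NB (exists_LC euler_twc lxc lmc frm_twc frm_newfC one_val)
open Pool.Agent.N831.SX (PQ ZX NX ZDX NDX NRX DistX dist_of log_ge_half)
open scoped ComplexConjugate

noncomputable section

/-- **Density theorems with explicit exponents.** -/
theorem explicit_k {κ : ℝ} {X Z L G : ℂ → ℂ} (h : PQ κ X Z) {x B A C1 : ℝ} (hA : 0 < A) (hC1 : 0 < C1)
    (hL : ∀ s, L s = Z (s - ((x - 1 / 2 : ℝ) : ℂ)))
    (h1 : ∀ δ T : ℝ, 0 ≤ δ → 2 ≤ T → (NDX G x B δ T : ℝ) ≤ C1 * Real.log T * (NRX L x δ (T + A) : ℝ))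
    {c : ℝ} (hc : c < 1) : ∃ C : ℝ, 0 < C ∧
    ∀ δ T : ℝ, 0 ≤ δ → 2 ≤ T → (NDX G x B δ T : ℝ) ≤ C * T ^ (1 - c * δ) * Real.log T ^ 2 := by
  obtain ⟨H, B0, hG, hH, -⟩ := h.dat
  obtain ⟨C2, hC2, h2⟩ := h.pl.ncard_S hc
  have hfact : ∀ T : ℝ, 2 ≤ T → ∀ δ : ℝ, 0 ≤ δ → (T + A) ^ (1 - c * δ) * Real.log (T + A) ≤
      ((1 + A) ^ |1 - c * δ| * (1 + 2 * Real.log (1 + A))) * (T ^ (1 - c * δ) * Real.log T) := by
    intro T hT δ hδ
    have hT0 : 0 < T := by linarith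
    have hlT : 0 < Real.log T := Real.log_pos (by linarith)
    have hlA : 0 ≤ Real.log (1 + A) := Real.log_nonneg (by linarith)
    have e1 : (T + A) ^ (1 - c * δ) ≤ (1 + A) ^ |1 - c * δ| * T ^ (1 - c * δ) := by
      have e2 : (T + A) = T * ((T + A) / T) := by field_simp
      rw [e2, Real.mul_rpow hT0.le (by positivity), mul_comm]
      apply mul_le_mul_of_nonneg_right _ (by positivity)
      have h3 : 1 ≤ (T + A) / T := by rw [le_div_iff₀ hT0]; linarith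
      have h4 : (T + A) / T ≤ 1 + A := by rw [div_le_iff₀ hT0]; nlinarith
      exact (Real.rpow_le_rpow_of_exponent_le h3 (le_abs_self _)).trans
        (Real.rpow_le_rpow (by linarith) h4 (abs_nonneg _))
    have e3 : Real.log (T + A) ≤ (1 + 2 * Real.log (1 + A)) * Real.log T := by
      have h3 : Real.log (T + A) ≤ Real.log (T * (1 + A)) := Real.log_le_log (by linarith) (by nlinarith)
      rw [Real.log_mul hT0.ne' (by linarith)] at h3
      have h5 := log_ge_half hT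
      nlinarith
    calc (T + A) ^ (1 - c * δ) * Real.log (T + A) ≤
          ((1 + A) ^ |1 - c * δ| * T ^ (1 - c * δ)) * ((1 + 2 * Real.log (1 + A)) * Real.log T) := by
          gcongr
          exact Real.log_nonneg (by linarith)
      _ = _ := by ring
  have hNR : ∀ δ T : ℝ, 0 ≤ δ → 2 ≤ T → NRX L x δ T ≤ (Pool.Agent.Y22.RX.S X δ T).ncard := by
    intro δ T hδ hT
    have hfin := (h2 δ T hδ hT).1
    unfold NRX
    have h3 : (fun s : ℂ => s - (x : ℂ)) '' {s : ℂ | L s = 0 ∧ x < s.re ∧ x + δ ≤ s.re ∧ 0 < s.im ∧ s.im ≤ T} ⊆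
        Pool.Agent.Y22.RX.S X δ T := by
      rintro _ ⟨s, ⟨k1, k2, k3, k4, k5⟩, rfl⟩
      have e1 : (s - (x : ℂ)).re = s.re - x := by rw [Complex.sub_re, Complex.ofReal_re]
      have e2 : (s - (x : ℂ)).im = s.im := by rw [Complex.sub_im, Complex.ofReal_im, sub_zero]
      refine ⟨?_, ?_, ?_, ?_⟩
      · rw [hG.cg.cf.eq _ (by rw [e2]; exact k4)]
        have e3 : (1 / 2 + (s - (x : ℂ)) : ℂ) = s - ((x - 1 / 2 : ℝ) : ℂ) := by push_cast; ring
        rw [e3, ← hL, k1, mul_zero]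
      · rw [e1]
        exact (by linarith : δ ≤ s.re - x).trans (le_abs_self _)
      · rw [e2]; exact k4
      · rw [e2]; exact k5
    rw [← Set.ncard_image_of_injective _ (sub_left_injective (b := (x : ℂ)))]
    exact Set.ncard_le_ncard h3 hfin
  -- for large `δ` there are no zeros
  have hbig : ∀ δ T : ℝ, 1 < δ → (NRX L x δ T : ℝ) = 0 := by
    intro δ T hδ
    have h3 : {s : ℂ | L s = 0 ∧ x < s.re ∧ x + δ ≤ s.re ∧ 0 < s.im ∧ s.im ≤ T} = ∅ := by
      rw [Set.eq_empty_iff_forall_notMem]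
      rintro s ⟨k1, k2, k3, k4, k5⟩
      have e1 : (s - (x : ℂ)).re = s.re - x := by rw [Complex.sub_re, Complex.ofReal_re]
      have e2 : (s - (x : ℂ)).im = s.im := by rw [Complex.sub_im, Complex.ofReal_im, sub_zero]
      have h4 : X (s - (x : ℂ)) = 0 := by
        rw [hG.cg.cf.eq _ (by rw [e2]; exact k4)]
        have e3 : (1 / 2 + (s - (x : ℂ)) : ℂ) = s - ((x - 1 / 2 : ℝ) : ℂ) := by push_cast; ring
        rw [e3, ← hL, k1, mul_zero]
      have h5 := h.pl.strip _ h4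
      rw [e1] at h5
      have h6 := le_abs_self (s.re - x)
      linarith
    unfold NRX
    rw [h3, Set.ncard_empty, Nat.cast_zero]
  have hlA : 0 ≤ Real.log (1 + A) := Real.log_nonneg (by linarith)
  refine ⟨C1 * (C2 * ((1 + A) ^ (1 + |c|) * (1 + 2 * Real.log (1 + A)))), by positivity, fun δ T hδ hT => ?_⟩
  have hT0 : 0 < T := by linarith
  have hlT : 0 < Real.log T := Real.log_pos (by linarith)
  refine (h1 δ T hδ hT).trans ?_
  rcases le_or_gt δ 1 with hd | hd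
  · have h3 : (NRX L x δ (T + A) : ℝ) ≤ C2 * (T + A) ^ (1 - c * δ) * Real.log (T + A) := by
      refine le_trans ?_ (h2 δ (T + A) hδ (by linarith)).2
      exact_mod_cast hNR δ (T + A) hδ (by linarith)
    have h4 := hfact T hT δ hδ
    have h5 : (1 + A) ^ |1 - c * δ| ≤ (1 + A) ^ (1 + |c|) := by
      apply Real.rpow_le_rpow_of_exponent_le (by linarith)
      calc |1 - c * δ| ≤ |(1 : ℝ)| + |c * δ| := abs_sub _ _
        _ ≤ 1 + |c| := by
          rw [abs_one, abs_mul, abs_of_nonneg hδ]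
          have := mul_le_mul_of_nonneg_left hd (abs_nonneg c)
          linarith
    calc C1 * Real.log T * NRX L x δ (T + A)
        ≤ C1 * Real.log T * (C2 * (T + A) ^ (1 - c * δ) * Real.log (T + A)) := by gcongr
      _ = C1 * Real.log T * (C2 * ((T + A) ^ (1 - c * δ) * Real.log (T + A))) := by ring
      _ ≤ C1 * Real.log T * (C2 * (((1 + A) ^ |1 - c * δ| * (1 + 2 * Real.log (1 + A))) * (T ^ (1 - c * δ) * Real.log T))) := by gcongr
      _ ≤ C1 * Real.log T * (C2 * (((1 + A) ^ (1 + |c|) * (1 + 2 * Real.log (1 + A))) * (T ^ (1 - c * δ) * Real.log T))) := by gcongr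
      _ = _ := by ring
  · rw [hbig δ (T + A) hd, mul_zero]
    positivity


/-- the sum of the distances for the derivatives -/
theorem dist_k {G : ℂ → ℂ} {x B c C : ℝ} (hc : 0 < c) (hC : 0 < C) (hfin : ∀ T : ℝ, (ZX G x B T).Finite)
    (h : ∀ δ T : ℝ, 0 ≤ δ → 2 ≤ T → (NDX G x B δ T : ℝ) ≤ C * T ^ (1 - c * δ) * Real.log T) :
    ∃ C' : ℝ, 0 < C' ∧ ∀ T : ℝ, 2 ≤ T → DistX G x B T ≤ C' * T := by
  have hq1 : Real.exp (-c) < 1 := by
    rw [Real.exp_lt_one_iff]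
    linarith
  exact ⟨C / (1 - Real.exp (-c)), div_pos hC (by linarith), fun T hT => dist_of hc hC hT (hfin T) fun δ hδ => h δ T hδ hT⟩

section nb

variable {N : ℕ} [NeZero N] {k : ℕ} {ψ : DirichletCharacter ℂ N}
  {f : CuspForm (Gamma1 N : Subgroup (GL (Fin 2) ℝ)) (k : ℤ)} {η : ℂ}
variable {q : ℕ} [NeZero q] {χ : DirichletCharacter ℂ q}

/-- **Twists of newforms with nebentypus.** -/
theorem pg_twc (hk : 1 ≤ k) (hf : W388.IsNewfC N k ψ f η) (hχ : χ.IsPrimitive) (hco : Nat.Coprime q N) :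
    ∃ X F : ℂ → ℂ, PG 1 X F ∧ IsL (lxc f χ) F := by
  obtain ⟨F, hFE, hL⟩ := exists_LC hk hf hχ hco
  have hfm := frm_twc hk hf hχ hco
  have hN1 : (1 : ℝ) ≤ N := by exact_mod_cast Nat.one_le_iff_ne_zero.2 (NeZero.ne N)
  have hq1 : (1 : ℝ) ≤ q := by exact_mod_cast Nat.one_le_iff_ne_zero.2 (NeZero.ne q)
  haveI : NeZero (N * q ^ 2) := ⟨Nat.mul_ne_zero (NeZero.ne N) (pow_ne_zero _ (NeZero.ne q))⟩
  have hsq : Real.sqrt ((N * q ^ 2 : ℕ) : ℝ) = Real.sqrt N * q := by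
    push_cast
    rw [Real.sqrt_mul (by linarith), Real.sqrt_sq (by linarith)]
  obtain ⟨X, hP⟩ := pg_fe hk hN1 hq1 hFE hfm hL hsq
  exact ⟨X, F, hP, hL⟩

/-- **A newform with nebentypus as a part of the cohomology of degree `i = k - 1 + 2 r`.** -/
theorem pg_new (hk : 1 ≤ k) (hf : W388.IsNewfC N k ψ f η) {i r : ℕ} (hi : k + 2 * r = i + 1) :
    ∃ X F : ℂ → ℂ, PG 1 X F ∧ Differentiable ℂ F ∧ ∀ s : ℂ, (i : ℝ) / 2 + 1 < s.re →
      HasProd (fun p : Nat.Primes =>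
        (1 - (qExpansion 1 f).coeff p * ((p : ℕ) : ℂ) ^ ((r : ℂ) - s) +
          ψ ((p : ℕ) : ZMod N) * ((p : ℕ) : ℂ) ^ ((i : ℂ) - 2 * s))⁻¹) (F (s - (i : ℂ) / 2)) := by
  obtain ⟨X, F, hP, hL⟩ := pg_twc (q := 1) (χ := 1) hk hf DirichletCharacter.isPrimitive_one_level_one
    (Nat.coprime_one_left N)
  have hir : (k : ℂ) + 2 * r = i + 1 := by exact_mod_cast hi
  have hik : (k : ℂ) = i + 1 - 2 * r := by linear_combination hir
  refine ⟨X, F, hP, hL.diff, fun s hs => ?_⟩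
  have hs' : 1 < (s - (i : ℂ) / 2).re := by
    have e : (s - (i : ℂ) / 2).re = s.re - (i : ℝ) / 2 := by
      rw [Complex.sub_re]
      congr 1
      rw [show ((i : ℂ) / 2) = (((i : ℝ) / 2 : ℝ) : ℂ) by push_cast; ring, Complex.ofReal_re]
    rw [e]
    linarith
  have h1 := euler_twc hk hf hL hs'
  refine h1.congr_fun fun p => ?_
  rw [one_val, one_mul, one_pow, one_mul]
  have hp := p.2
  have hp0 : (0 : ℝ) < (p : ℕ) := by exact_mod_cast hp.pos
  have hpc : (((p : ℕ)) : ℂ) ≠ 0 := by exact_mod_cast hp.ne_zero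
  have e1 : W388.lamC f p * ((p : ℕ) : ℂ) ^ (-(s - (i : ℂ) / 2)) =
      (qExpansion 1 f).coeff p * ((p : ℕ) : ℂ) ^ ((r : ℂ) - s) := by
    unfold W388.lamC
    rw [Complex.ofReal_cpow hp0.le, Complex.ofReal_natCast]
    have e2 : ((((((k : ℕ) : ℤ) : ℝ) - 1) / 2 : ℝ) : ℂ) = ((k : ℂ) - 1) / 2 := by
      push_cast
      ring
    rw [e2, div_mul_eq_mul_div, mul_div_assoc, ← Complex.cpow_sub _ _ hpc]
    congr 2
    rw [hik]
    ring
  have e3 : ((p : ℕ) : ℂ) ^ ((i : ℂ) - 2 * s) = ((p : ℕ) : ℂ) ^ (-2 * (s - (i : ℂ) / 2)) := by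
    congr 1
    ring
  rw [e3, e1]

/-- **Sums of parts.** -/
theorem pg_parts {ι : Type} [Fintype ι] [Nonempty ι] {σ : ℝ} {a : ℂ} (fac : ι → Nat.Primes → ℂ → ℂ)
    (h : ∀ j, ∃ X F : ℂ → ℂ, PG 1 X F ∧ Differentiable ℂ F ∧ ∀ s : ℂ, σ < s.re →
      HasProd (fun p : Nat.Primes => (fac j p s)⁻¹) (F (s - a))) :
    ∃ X F : ℂ → ℂ, PG (Fintype.card ι : ℝ) X F ∧ Differentiable ℂ F ∧ ∀ s : ℂ, σ < s.re →
      HasProd (fun p : Nat.Primes => (∏ j, fac j p s)⁻¹) (F (s - a)) := by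
  classical
  choose X F h1 h2 h3 using h
  obtain ⟨j0⟩ := (inferInstance : Nonempty ι)
  refine ⟨fun w => ∏ j, X j w, fun w => ∏ j, F j w, ?_, ?_, fun s hs => ?_⟩
  · have := pg_prod (Finset.univ : Finset ι) ⟨j0, Finset.mem_univ _⟩ X F fun j _ => h1 j
    rw [Finset.card_univ] at this
    exact this
  · exact Differentiable.fun_finsetProd fun χ _ => h2 χ
  · have h6 : HasProd (fun p : Nat.Primes => ∏ j, (fac j p s)⁻¹) (∏ j, F j (s - a)) :=
      hasProd_prod fun j _ => h3 j s hs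
    simpa only [Finset.prod_inv_distrib] using h6

end nb

end

end Pool.Agent.N831.SD
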